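import Pool.Agent.Lib.MP_d8ef8f_an.Rf.Stm

/-!
# Three species with rates within a factor four: the algebraic inequality
-/

set_option autoImplicit false

namespace Pool.Agent.Lib.MP_d8ef8f_an.Rf

open Set Filter Topology MeasureTheory
open Pool.Agent.Lib.MP_d8ef8f_an.Gd Pool.Agent.Lib.MP_d8ef8f_an.Ff

/-- the form in the new coordinates; `a = D + X (T - E + b)`, `c = (1 + X) (E + Z T + Z b)`,
`u1, u2, u3` are the reciprocals of `4 + 23 X`, `(1 + X) (1 + Z)`, `(1 + X) (6 + 29 Z)` -/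
private noncomputable def Gc (r2 r3 e0 e1 e3 T b a c u1 u2 u3 : ℝ) : ℝ :=
  b * (((r2 - 1) * a + (r3 - 1) * c) * u2) + 19 / 37 * ((e0 - b) * (e0 + b))
    + 4 / 37 * ((e1 - b) * ((4 * (e0 + b) + 23 * r2 * a) * u1))
    + 8 / 37 * ((T - b) * (((e0 + b) + r2 * a + r3 * c) * u2))
    + 6 / 37 * ((e3 - b) * ((6 * (e0 + b) + 6 * r2 * a + 29 * r3 * c) * u3))
    + b ^ 2 - 1 / 6 * (((r2 - 1) * a + (r3 - 1) * c) * u2) ^ 2

/-- convexity -/
private theorem Gc_conv (r2 r3 l0 l1 l2 e0 e1 e3 T b a c u1 u2 u3 : ℝ) (h0 : 0 ≤ l0)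
    (h1 : 0 ≤ l1) (h2 : 0 ≤ l2) (hl : l0 = 1 - l1 - l2) (hr2 : r2 = 1 + 3 * l1)
    (hr3 : r3 = 1 + 3 * (l1 + l2)) :
    l0 * Gc 1 1 e0 e1 e3 T b a c u1 u2 u3 + l1 * Gc 4 4 e0 e1 e3 T b a c u1 u2 u3
      + l2 * Gc 1 4 e0 e1 e3 T b a c u1 u2 u3 ≤ Gc r2 r3 e0 e1 e3 T b a c u1 u2 u3 := by
  have key : Gc r2 r3 e0 e1 e3 T b a c u1 u2 u3 -
      (l0 * Gc 1 1 e0 e1 e3 T b a c u1 u2 u3 + l1 * Gc 4 4 e0 e1 e3 T b a c u1 u2 u3
      + l2 * Gc 1 4 e0 e1 e3 T b a c u1 u2 u3) =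
      1 / 6 * (l0 * (l1 * (3 * (a + c) * u2) ^ 2 + l2 * (3 * c * u2) ^ 2)
        + l1 * l2 * (3 * a * u2) ^ 2) := by
    unfold Gc
    subst hl hr2 hr3
    ring
  have h3 : 0 ≤ 1 / 6 * (l0 * (l1 * (3 * (a + c) * u2) ^ 2 + l2 * (3 * c * u2) ^ 2)
        + l1 * l2 * (3 * a * u2) ^ 2) := by positivity
  linarith

/-- the value at the vertex `(4, 4)` -/
private theorem Gc_44 (X Z D E T b : ℝ) (hX : 0 ≤ X) (hZ : 0 ≤ Z) :
    Gc 4 4 (T - E - D) (T - E + 19 * D / (4 + 23 * X)) (T + 23 * E / (6 + 29 * Z)) T b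
      (D + X * (T - E + b)) ((1 + X) * (E + Z * T + Z * b)) (1 / (4 + 23 * X))
      (1 / ((1 + X) * (1 + Z))) (1 / ((1 + X) * (6 + 29 * Z))) = P1 X Z D E T b := by
  have hx : 4 + 23 * X ≠ 0 := by positivity
  have hx1 : 1 + X ≠ 0 := by positivity
  have hz : 6 + 29 * Z ≠ 0 := by positivity
  have hz1 : 1 + Z ≠ 0 := by positivity
  have e1 : (4 * ((T - E - D) + b) + 23 * 4 * (D + X * (T - E + b))) * (1 / (4 + 23 * X)) =
      4 * ((T - E + 19 * D / (4 + 23 * X)) + b) - 12 / (4 + 23 * X) * (T - E - D + b) := by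
    field_simp
    ring
  have e2 : (((T - E - D) + b) + 4 * (D + X * (T - E + b)) + 4 * ((1 + X) * (E + Z * T + Z * b))) *
      (1 / ((1 + X) * (1 + Z))) = 4 * (T + b) - 3 / ((1 + X) * (1 + Z)) * (T - E - D + b) := by
    field_simp
    ring
  have e3 : (6 * ((T - E - D) + b) + 6 * 4 * (D + X * (T - E + b)) +
      29 * 4 * ((1 + X) * (E + Z * T + Z * b))) * (1 / ((1 + X) * (6 + 29 * Z))) =
      4 * ((T + 23 * E / (6 + 29 * Z)) + b)
        - 18 / ((1 + X) * (6 + 29 * Z)) * (T - E - D + b) := by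
    field_simp
    ring
  have e4 : (((4 : ℝ) - 1) * (D + X * (T - E + b)) + (4 - 1) * ((1 + X) * (E + Z * T + Z * b))) *
      (1 / ((1 + X) * (1 + Z))) =
      3 * ((T + b) - 1 / ((1 + X) * (1 + Z)) * (T - E - D + b)) := by
    field_simp
    ring
  unfold Gc P1
  rw [e1, e2, e3, e4]
  ring

/-- the value at the vertex `(1, 4)` -/
private theorem Gc_14 (X Z D E T b : ℝ) (hX : 0 ≤ X) (hZ : 0 ≤ Z) :
    Gc 1 4 (T - E - D) (T - E + 19 * D / (4 + 23 * X)) (T + 23 * E / (6 + 29 * Z)) T b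
      (D + X * (T - E + b)) ((1 + X) * (E + Z * T + Z * b)) (1 / (4 + 23 * X))
      (1 / ((1 + X) * (1 + Z))) (1 / ((1 + X) * (6 + 29 * Z))) = P2 X Z D E T b := by
  have hx : 4 + 23 * X ≠ 0 := by positivity
  have hx1 : 1 + X ≠ 0 := by positivity
  have hz : 6 + 29 * Z ≠ 0 := by positivity
  have hz1 : 1 + Z ≠ 0 := by positivity
  have e1 : (4 * ((T - E - D) + b) + 23 * 1 * (D + X * (T - E + b))) * (1 / (4 + 23 * X)) =
      (T - E + 19 * D / (4 + 23 * X)) + b := by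
    field_simp
    ring
  have e2 : (((T - E - D) + b) + 1 * (D + X * (T - E + b)) + 4 * ((1 + X) * (E + Z * T + Z * b))) *
      (1 / ((1 + X) * (1 + Z))) = 4 * (T + b) - 3 / (1 + Z) * (T - E + b) := by
    field_simp
    ring
  have e3 : (6 * ((T - E - D) + b) + 6 * 1 * (D + X * (T - E + b)) +
      29 * 4 * ((1 + X) * (E + Z * T + Z * b))) * (1 / ((1 + X) * (6 + 29 * Z))) =
      4 * ((T + 23 * E / (6 + 29 * Z)) + b)
        - 18 / (6 + 29 * Z) * (T - E + b) := by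
    field_simp
    ring
  have e4 : (((1 : ℝ) - 1) * (D + X * (T - E + b)) + (4 - 1) * ((1 + X) * (E + Z * T + Z * b))) *
      (1 / ((1 + X) * (1 + Z))) =
      3 * ((T + b) - 1 / (1 + Z) * (T - E + b)) := by
    field_simp
    ring
  unfold Gc P2
  rw [e1, e2, e3, e4]
  ring

/-- the value at the vertex `(1, 1)` -/
private theorem Gc_11 (X Z D E T b : ℝ) (hX : 0 ≤ X) (hZ : 0 ≤ Z) :
    T ^ 2 / 100 ≤
    Gc 1 1 (T - E - D) (T - E + 19 * D / (4 + 23 * X)) (T + 23 * E / (6 + 29 * Z)) T b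
      (D + X * (T - E + b)) ((1 + X) * (E + Z * T + Z * b)) (1 / (4 + 23 * X))
      (1 / ((1 + X) * (1 + Z))) (1 / ((1 + X) * (6 + 29 * Z))) := by
  have hx : 4 + 23 * X ≠ 0 := by positivity
  have hx1 : 1 + X ≠ 0 := by positivity
  have hz : 6 + 29 * Z ≠ 0 := by positivity
  have hz1 : 1 + Z ≠ 0 := by positivity
  have e1 : (4 * ((T - E - D) + b) + 23 * 1 * (D + X * (T - E + b))) * (1 / (4 + 23 * X)) =
      (T - E + 19 * D / (4 + 23 * X)) + b := by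
    field_simp
    ring
  have e2 : (((T - E - D) + b) + 1 * (D + X * (T - E + b)) + 1 * ((1 + X) * (E + Z * T + Z * b))) *
      (1 / ((1 + X) * (1 + Z))) = T + b := by
    field_simp
    ring
  have e3 : (6 * ((T - E - D) + b) + 6 * 1 * (D + X * (T - E + b)) +
      29 * 1 * ((1 + X) * (E + Z * T + Z * b))) * (1 / ((1 + X) * (6 + 29 * Z))) =
      (T + 23 * E / (6 + 29 * Z)) + b := by
    field_simp
    ring
  unfold Gc
  rw [e1, e2, e3]
  have h1 := sq_nonneg (T - E - D)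
  have h2 := sq_nonneg (T - E + 19 * D / (4 + 23 * X))
  have h3 := sq_nonneg (T + 23 * E / (6 + 29 * Z))
  have h4 := sq_nonneg T
  nlinarith


/-! ### the vertex `(4, 4)` with all squares on the left -/

/-- the part without `T`, bound for the three unit directions -/
private theorem C_le (p1 : StmP1) (X Z D E b : ℝ) (hX : 0 ≤ X) (hZ : 0 ≤ Z) :
    P1 X Z D E 0 b ≤ 39 * (D ^ 2 + E ^ 2 + ((X + Z + X * Z) / ((1 + X) * (1 + Z)) * b) ^ 2) := by
  have hx : 0 < 4 + 23 * X := by positivity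
  have hx1 : 0 < 1 + X := by positivity
  have hz : 0 < 6 + 29 * Z := by positivity
  have hz1 : 0 < 1 + Z := by positivity
  have q1 := p1 X Z D (-E) 0 0 hX hZ
  have q2 := p1 X Z D 0 0 (-b) hX hZ
  have q3 := p1 X Z 0 E 0 (-b) hX hZ
  have q1' : 0 ≤ P1 X Z D (-E) 0 0 := le_trans (by positivity) q1
  have q2' : 0 ≤ P1 X Z D 0 0 (-b) := le_trans (by positivity) q2
  have q3' : 0 ≤ P1 X Z 0 E 0 (-b) := le_trans (by positivity) q3
  have id1 : 3 * (P1 X Z D 0 0 0 + P1 X Z 0 E 0 0 + P1 X Z 0 0 0 b) - P1 X Z D E 0 b =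
      P1 X Z D (-E) 0 0 + P1 X Z D 0 0 (-b) + P1 X Z 0 E 0 (-b) := by
    unfold P1
    ring
  have u4 : 1 / (4 + 23 * X) ≤ 1 / 4 := by
    apply one_div_le_one_div_of_le <;> linarith
  have u40 : 0 ≤ 1 / (4 + 23 * X) := by positivity
  have u6 : 1 / (6 + 29 * Z) ≤ 1 / 6 := by
    apply one_div_le_one_div_of_le <;> linarith
  have u60 : 0 ≤ 1 / (6 + 29 * Z) := by positivity
  have v6 : 1 / ((1 + X) * (6 + 29 * Z)) ≤ 1 / 6 := by
    apply one_div_le_one_div_of_le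
    · norm_num
    · nlinarith [mul_nonneg hX hZ]
  have v60 : 0 ≤ 1 / ((1 + X) * (6 + 29 * Z)) := by positivity
  have d1 : P1 X Z D 0 0 0 ≤ 12 * D ^ 2 := by
    have e : P1 X Z D 0 0 0 = (19 + 4 * 19 * 88 * (1 / (4 + 23 * X)) ^ 2
        - 111 / 2 * (1 / ((1 + X) * (1 + Z))) ^ 2) / 37 * D ^ 2 := by
      unfold P1
      ring
    rw [e]
    apply mul_le_mul_of_nonneg_right _ (sq_nonneg D)
    have h1 : (1 / (4 + 23 * X)) ^ 2 ≤ 1 / 16 := by nlinarith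
    have h2 := sq_nonneg (1 / ((1 + X) * (1 + Z)))
    linarith
  have d2 : P1 X Z 0 E 0 0 ≤ 13 * E ^ 2 := by
    have e : P1 X Z 0 E 0 0 = (35 - 48 * (1 / (4 + 23 * X))
        + 6 * (23 * (1 / (6 + 29 * Z)) * (92 * (1 / (6 + 29 * Z))
          + 18 * (1 / ((1 + X) * (6 + 29 * Z)))))
        - 111 / 2 * (1 / ((1 + X) * (1 + Z))) ^ 2) / 37 * E ^ 2 := by
      unfold P1
      ring
    rw [e]
    apply mul_le_mul_of_nonneg_right _ (sq_nonneg E)
    have h1 : (1 / (6 + 29 * Z)) * (92 * (1 / (6 + 29 * Z))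
        + 18 * (1 / ((1 + X) * (6 + 29 * Z)))) ≤ 1 / 6 * (92 * (1 / 6) + 18 * (1 / 6)) := by
      apply mul_le_mul u6 _ (by positivity) (by norm_num)
      linarith
    have h2 := sq_nonneg (1 / ((1 + X) * (1 + Z)))
    linarith
  have d3 : P1 X Z 0 0 0 b ≤ 9 * ((X + Z + X * Z) / ((1 + X) * (1 + Z)) * b) ^ 2 := by
    have e : 9 * ((X + Z + X * Z) / ((1 + X) * (1 + Z)) * b) ^ 2 - P1 X Z 0 0 0 b =
        (33 * ((X + Z + X * Z) / ((1 + X) * (1 + Z))) ^ 2 +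
          (300 * ((X + Z + X * Z) / ((1 + X) * (1 + Z))) ^ 2
            - (-54 + 48 * (1 / (4 + 23 * X)) + 24 * (1 / ((1 + X) * (1 + Z)))
              + 108 * (1 / ((1 + X) * (6 + 29 * Z)))
              + 111 * ((X + Z + X * Z) / ((1 + X) * (1 + Z)))
              - 111 / 2 * ((X + Z + X * Z) / ((1 + X) * (1 + Z))) ^ 2))) / 37 * b ^ 2 := by
      have e2 : 1 / ((1 + X) * (1 + Z)) = 1 - (X + Z + X * Z) / ((1 + X) * (1 + Z)) := by
        field_simp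
        ring
      have e3 : 3 / ((1 + X) * (1 + Z)) = 3 * (1 - (X + Z + X * Z) / ((1 + X) * (1 + Z))) := by
        rw [← e2]
        ring
      unfold P1
      rw [e3, e2]
      ring
    have e4 : 300 * ((X + Z + X * Z) / ((1 + X) * (1 + Z))) ^ 2
            - (-54 + 48 * (1 / (4 + 23 * X)) + 24 * (1 / ((1 + X) * (1 + Z)))
              + 108 * (1 / ((1 + X) * (6 + 29 * Z)))
              + 111 * ((X + Z + X * Z) / ((1 + X) * (1 + Z)))
              - 111 / 2 * ((X + Z + X * Z) / ((1 + X) * (1 + Z))) ^ 2) =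
        (666 * X ^ 2 + 102669 * X ^ 2 * Z + 41193 * X ^ 3 + 562971 / 2 * X ^ 3 * Z
          + 17064 * X * Z + 94572 * X * Z ^ 2 + 533436 * X ^ 2 * Z ^ 2 + 439392 * X ^ 3 * Z ^ 2
          + 528 * Z ^ 2 + 33234 * Z ^ 3 + 531135 / 2 * X * Z ^ 3 + 431433 * X ^ 2 * Z ^ 3
          + 398199 / 2 * X ^ 3 * Z ^ 3)
          / ((4 + 23 * X) * (1 + X) ^ 2 * (1 + Z) ^ 2 * (6 + 29 * Z)) := by
      field_simp
      ring
    have e5 : 0 ≤ 9 * ((X + Z + X * Z) / ((1 + X) * (1 + Z)) * b) ^ 2 - P1 X Z 0 0 0 b := by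
      rw [e, e4]
      positivity
    linarith
  have s1 := sq_nonneg D
  have s2 := sq_nonneg E
  have s3 := sq_nonneg ((X + Z + X * Z) / ((1 + X) * (1 + Z)) * b)
  linarith

/-- the coefficient of `T²` -/
private theorem A_ge (X Z : ℝ) (hX : 0 ≤ X) (hZ : 0 ≤ Z) : 1 / 2 ≤ P1 X Z 0 0 1 0 := by
  have hx : 0 < 4 + 23 * X := by positivity
  have hx1 : 0 < 1 + X := by positivity
  have hz : 0 < 6 + 29 * Z := by positivity
  have hz1 : 0 < 1 + Z := by positivity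
  have u4 : 1 / (4 + 23 * X) ≤ 1 / 4 := by
    apply one_div_le_one_div_of_le <;> linarith
  have w1 : 1 / ((1 + X) * (1 + Z)) ≤ 1 := by
    rw [div_le_one (by positivity)]
    nlinarith [mul_nonneg hX hZ]
  have w0 : 0 ≤ 1 / ((1 + X) * (1 + Z)) := by positivity
  have v6 : 1 / ((1 + X) * (6 + 29 * Z)) ≤ 1 / 6 * (1 / ((1 + X) * (1 + Z))) := by
    rw [← one_div_mul_one_div_rev, ← one_div_mul_one_div_rev, ← mul_assoc]
    apply mul_le_mul_of_nonneg_right _ (by positivity)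
    have : (1 : ℝ) / 6 * (1 / (1 + Z)) = 1 / (6 * (1 + Z)) := by
      field_simp
    rw [this]
    apply one_div_le_one_div_of_le
    · positivity
    · linarith
  have e : P1 X Z 0 0 1 0 = (91 - 48 * (1 / (4 + 23 * X)) - 24 * (1 / ((1 + X) * (1 + Z)))
      - 108 * (1 / ((1 + X) * (6 + 29 * Z))) - 111 / 2 * (1 - 1 / ((1 + X) * (1 + Z))) ^ 2) / 37 := by
    unfold P1
    ring
  rw [e]
  generalize 1 / ((1 + X) * (1 + Z)) = w at *
  have h : 0 ≤ w * (1 - w) := mul_nonneg w0 (by linarith)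
  nlinarith

private theorem P1s (p1 : StmP1) (X Z D E T b : ℝ) (hX : 0 ≤ X) (hZ : 0 ≤ Z) :
    T ^ 2 / 100 + (T ^ 2 + (D ^ 2 + E ^ 2 + ((X + Z + X * Z) / ((1 + X) * (1 + Z)) * b) ^ 2))
      / 100000 ≤ P1 X Z D E T b := by
  have hA := A_ge X Z hX hZ
  have hC := C_le p1 X Z D E b hX hZ
  have hq : ∀ t : ℝ, P1 X Z D E t b = P1 X Z 0 0 1 0 * (t * t)
      + (P1 X Z D E 1 b - P1 X Z D E 0 b - P1 X Z 0 0 1 0) * t + P1 X Z D E 0 b := by
    intro t
    unfold P1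
    ring
  set S := D ^ 2 + E ^ 2 + ((X + Z + X * Z) / ((1 + X) * (1 + Z)) * b) ^ 2 with hS
  set A := P1 X Z 0 0 1 0
  set C := P1 X Z D E 0 b
  set B := P1 X Z D E 1 b - C - A
  have hS0 : 0 ≤ S := by
    rw [hS]
    positivity
  have hd : discrim (A - 1 / 100) B (C - S / 1000) ≤ 0 := by
    apply discrim_le_zero
    intro t
    have h := p1 X Z D E t b hX hZ
    rw [hq t] at h
    nlinarith
  unfold discrim at hd
  rw [hq T]
  have h1 : B ^ 2 ≤ 4 * (A - 1 / 100 - 1 / 100000) * (C - S / 100000) := by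
    nlinarith [mul_nonneg (by linarith : 0 ≤ A - 1 / 2) hS0]
  have h2 : 0 < A - 1 / 100 - 1 / 100000 := by linarith
  have h3 : 0 ≤ 4 * (A - 1 / 100 - 1 / 100000) *
      ((A - 1 / 100 - 1 / 100000) * T ^ 2 + B * T + (C - S / 100000)) := by
    have : 4 * (A - 1 / 100 - 1 / 100000) *
      ((A - 1 / 100 - 1 / 100000) * T ^ 2 + B * T + (C - S / 100000)) =
      (2 * (A - 1 / 100 - 1 / 100000) * T + B) ^ 2
        + (4 * (A - 1 / 100 - 1 / 100000) * (C - S / 100000) - B ^ 2) := by ring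
    rw [this]
    have := sq_nonneg (2 * (A - 1 / 100 - 1 / 100000) * T + B)
    linarith
  have h4 : 0 ≤ (A - 1 / 100 - 1 / 100000) * T ^ 2 + B * T + (C - S / 100000) := by
    by_contra hneg
    push Not at hneg
    have := mul_neg_of_pos_of_neg (by linarith : 0 < 4 * (A - 1 / 100 - 1 / 100000)) hneg
    linarith
  nlinarith


/-! ### the substitution -/

/-- the form in the new coordinates -/
private theorem Pq_eq (r2 r3 s X Z D E T b : ℝ) (hs : 0 < s) (hX : 0 ≤ X) (hZ : 0 ≤ Z) :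
    Pq r2 r3 s (s * X) (s * (1 + X) * Z) (s * (T - E - D)) (s * D + s * X * (T - E))
      (s * (1 + X) * (E + Z * T)) b
      - 1 / 6 * (((r2 - 1) * ((s * D + s * X * (T - E)) + s * X * b)
        + (r3 - 1) * (s * (1 + X) * (E + Z * T) + s * (1 + X) * Z * b))
          / (s + s * X + s * (1 + X) * Z)) ^ 2 =
    Gc r2 r3 (T - E - D) (T - E + 19 * D / (4 + 23 * X)) (T + 23 * E / (6 + 29 * Z)) T b
      (D + X * (T - E + b)) ((1 + X) * (E + Z * T + Z * b)) (1 / (4 + 23 * X))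
      (1 / ((1 + X) * (1 + Z))) (1 / ((1 + X) * (6 + 29 * Z))) := by
  have hx : 4 + 23 * X ≠ 0 := by positivity
  have hx1 : 1 + X ≠ 0 := by positivity
  have hz : 6 + 29 * Z ≠ 0 := by positivity
  have hz1 : 1 + Z ≠ 0 := by positivity
  have hs0 : s ≠ 0 := hs.ne'
  have ht : s + s * X + s * (1 + X) * Z = s * ((1 + X) * (1 + Z)) := by ring
  have h1 : s + 23 / 4 * (s * X) = s * ((4 + 23 * X) / 4) := by ring
  have h3 : s + s * X + 29 / 6 * (s * (1 + X) * Z) = s * ((1 + X) * (6 + 29 * Z) / 6) := by ring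
  have f1 : ((r2 - 1) * ((s * D + s * X * (T - E)) + s * X * b)
        + (r3 - 1) * (s * (1 + X) * (E + Z * T) + s * (1 + X) * Z * b))
          / (s + s * X + s * (1 + X) * Z) =
      ((r2 - 1) * (D + X * (T - E + b)) + (r3 - 1) * ((1 + X) * (E + Z * T + Z * b)))
        * (1 / ((1 + X) * (1 + Z))) := by
    rw [ht]
    have : ((r2 - 1) * ((s * D + s * X * (T - E)) + s * X * b)
        + (r3 - 1) * (s * (1 + X) * (E + Z * T) + s * (1 + X) * Z * b)) = s *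
        ((r2 - 1) * (D + X * (T - E + b)) + (r3 - 1) * ((1 + X) * (E + Z * T + Z * b))) := by ring
    rw [this, mul_div_mul_left _ _ hs0, mul_one_div]
  have f2 : s * (T - E - D) / s = T - E - D := by
    rw [mul_div_cancel_left₀ _ hs0]
  have f3 : (s * (T - E - D) + s * b) / s = T - E - D + b := by
    rw [← mul_add, mul_div_cancel_left₀ _ hs0]
  have f4 : (s * (T - E - D) + 23 / 4 * (s * D + s * X * (T - E))) / (s + 23 / 4 * (s * X)) =
      T - E + 19 * D / (4 + 23 * X) := by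
    rw [h1]
    have : s * (T - E - D) + 23 / 4 * (s * D + s * X * (T - E)) = s *
        (((4 + 23 * X) * (T - E) + 19 * D) / 4) := by ring
    rw [this, mul_div_mul_left _ _ hs0]
    field_simp
  have f5 : ((s * (T - E - D) + s * b) + 23 / 4 * r2 * ((s * D + s * X * (T - E)) + s * X * b))
      / (s + 23 / 4 * (s * X)) =
      (4 * ((T - E - D) + b) + 23 * r2 * (D + X * (T - E + b))) * (1 / (4 + 23 * X)) := by
    rw [h1]
    have : (s * (T - E - D) + s * b) + 23 / 4 * r2 * ((s * D + s * X * (T - E)) + s * X * b) = s *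
        ((4 * ((T - E - D) + b) + 23 * r2 * (D + X * (T - E + b))) / 4) := by ring
    rw [this, mul_div_mul_left _ _ hs0]
    field_simp
  have f6 : (s * (T - E - D) + (s * D + s * X * (T - E)) + s * (1 + X) * (E + Z * T))
      / (s + s * X + s * (1 + X) * Z) = T := by
    rw [ht]
    have : s * (T - E - D) + (s * D + s * X * (T - E)) + s * (1 + X) * (E + Z * T) = s *
        ((1 + X) * (1 + Z) * T) := by ring
    rw [this, mul_div_mul_left _ _ hs0]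
    field_simp
  have f7 : ((s * (T - E - D) + s * b) + r2 * ((s * D + s * X * (T - E)) + s * X * b)
      + r3 * (s * (1 + X) * (E + Z * T) + s * (1 + X) * Z * b)) / (s + s * X + s * (1 + X) * Z) =
      (((T - E - D) + b) + r2 * (D + X * (T - E + b)) + r3 * ((1 + X) * (E + Z * T + Z * b)))
        * (1 / ((1 + X) * (1 + Z))) := by
    rw [ht]
    have : ((s * (T - E - D) + s * b) + r2 * ((s * D + s * X * (T - E)) + s * X * b)
      + r3 * (s * (1 + X) * (E + Z * T) + s * (1 + X) * Z * b)) = s *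
      (((T - E - D) + b) + r2 * (D + X * (T - E + b)) + r3 * ((1 + X) * (E + Z * T + Z * b))) := by
      ring
    rw [this, mul_div_mul_left _ _ hs0, mul_one_div]
  have f8 : (s * (T - E - D) + (s * D + s * X * (T - E)) + 29 / 6 * (s * (1 + X) * (E + Z * T)))
      / (s + s * X + 29 / 6 * (s * (1 + X) * Z)) = T + 23 * E / (6 + 29 * Z) := by
    rw [h3]
    have : s * (T - E - D) + (s * D + s * X * (T - E)) + 29 / 6 * (s * (1 + X) * (E + Z * T)) = s *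
        ((1 + X) * ((6 + 29 * Z) * T + 23 * E) / 6) := by ring
    rw [this, mul_div_mul_left _ _ hs0]
    field_simp
  have f9 : ((s * (T - E - D) + s * b) + r2 * ((s * D + s * X * (T - E)) + s * X * b)
      + 29 / 6 * r3 * (s * (1 + X) * (E + Z * T) + s * (1 + X) * Z * b))
        / (s + s * X + 29 / 6 * (s * (1 + X) * Z)) =
      (6 * ((T - E - D) + b) + 6 * r2 * (D + X * (T - E + b))
        + 29 * r3 * ((1 + X) * (E + Z * T + Z * b))) * (1 / ((1 + X) * (6 + 29 * Z))) := by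
    rw [h3]
    have : ((s * (T - E - D) + s * b) + r2 * ((s * D + s * X * (T - E)) + s * X * b)
      + 29 / 6 * r3 * (s * (1 + X) * (E + Z * T) + s * (1 + X) * Z * b)) = s *
      ((6 * ((T - E - D) + b) + 6 * r2 * (D + X * (T - E + b))
        + 29 * r3 * ((1 + X) * (E + Z * T + Z * b))) / 6) := by
      ring
    rw [this, mul_div_mul_left _ _ hs0]
    field_simp
  unfold Pq Gc
  rw [f1, f2, f3, f4, f5, f6, f7, f8, f9]

/-- the new coordinates -/
private theorem coord (s1 s2 s3 z1 z2 z3 : ℝ) (h1 : 0 < s1) (h2 : 0 ≤ s2) (h3 : 0 ≤ s3) :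
    ∃ X Z D E T : ℝ, 0 ≤ X ∧ 0 ≤ Z ∧ s2 = s1 * X ∧ s3 = s1 * (1 + X) * Z ∧
      z1 = s1 * (T - E - D) ∧ z2 = s1 * D + s1 * X * (T - E) ∧
      z3 = s1 * (1 + X) * (E + Z * T) := by
  have hX : 0 ≤ s2 / s1 := by positivity
  have hZ : 0 ≤ s3 / (s1 + s2) := by positivity
  have e2 : s2 = s1 * (s2 / s1) := by
    field_simp
  have e12 : s1 * (1 + s2 / s1) = s1 + s2 := by
    field_simp
  have e3 : s3 = s1 * (1 + s2 / s1) * (s3 / (s1 + s2)) := by
    rw [e12]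
    have : s1 + s2 ≠ 0 := by positivity
    field_simp
  generalize s2 / s1 = X at *
  generalize s3 / (s1 + s2) = Z at *
  have hs0 : s1 ≠ 0 := h1.ne'
  have hx1 : 1 + X ≠ 0 := by positivity
  have hz1 : 1 + Z ≠ 0 := by positivity
  obtain ⟨T, hT⟩ : ∃ T : ℝ, s1 * ((1 + X) * (1 + Z)) * T = z1 + z2 + z3 := by
    refine ⟨(z1 + z2 + z3) / (s1 * ((1 + X) * (1 + Z))), ?_⟩
    field_simp
  obtain ⟨E, hE⟩ : ∃ E : ℝ, s1 * (1 + X) * (E + Z * T) = z3 := by
    refine ⟨z3 / (s1 * (1 + X)) - Z * T, ?_⟩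
    rw [sub_add_cancel]
    field_simp
  obtain ⟨D, hD⟩ : ∃ D : ℝ, s1 * (T - E - D) = z1 := by
    refine ⟨T - E - z1 / s1, ?_⟩
    rw [sub_sub_cancel]
    field_simp
  refine ⟨X, Z, D, E, T, hX, hZ, e2, e3, hD.symm, ?_, hE.symm⟩
  have : z2 = s1 * ((1 + X) * (1 + Z)) * T - z1 - z3 := by linarith
  rw [this, ← hD, ← hE]
  ring

/-! ### the inequality -/

/-- **Al** -/
theorem p_Al (p1 : StmP1) (p2 : StmP2) : StmAl := by
  intro r2 r3 L hr2 hr23 hr3
  have hM : 1 ≤ |L| + 1 := by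
    have := abs_nonneg L
    linarith
  have hl1 : 0 < (r2 - 1) / 3 := by linarith
  refine ⟨(r2 - 1) / 3 / (800000 * (|L| + 1) ^ 2), by positivity, ?_⟩
  intro s1 s2 s3 z1 z2 z3 b h1 h2 h3 hL
  obtain ⟨X, Z, D, E, T, hX, hZ, rfl, rfl, rfl, rfl, rfl⟩ := coord s1 s2 s3 z1 z2 z3 h1 h2 h3
  have hPq := Pq_eq r2 r3 s1 X Z D E T b h1 hX hZ
  have hconv := Gc_conv r2 r3 (1 - (r2 - 1) / 3 - (r3 - r2) / 3) ((r2 - 1) / 3) ((r3 - r2) / 3)
    (T - E - D) (T - E + 19 * D / (4 + 23 * X)) (T + 23 * E / (6 + 29 * Z)) T b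
      (D + X * (T - E + b)) ((1 + X) * (E + Z * T + Z * b)) (1 / (4 + 23 * X))
      (1 / ((1 + X) * (1 + Z))) (1 / ((1 + X) * (6 + 29 * Z))) (by linarith) hl1.le (by linarith)
      rfl (by ring) (by ring)
  rw [← hPq, Gc_44 X Z D E T b hX hZ, Gc_14 X Z D E T b hX hZ] at hconv
  have g11 := Gc_11 X Z D E T b hX hZ
  have g14 := p2 X Z D E T b hX hZ
  have g44 := P1s p1 X Z D E T b hX hZ
  have k0 := mul_le_mul_of_nonneg_left g11
    (by linarith : 0 ≤ 1 - (r2 - 1) / 3 - (r3 - r2) / 3)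
  have k1 := mul_le_mul_of_nonneg_left g44 hl1.le
  have k2 := mul_le_mul_of_nonneg_left g14 (by linarith : 0 ≤ (r3 - r2) / 3)
  have hs0 : s1 ≠ 0 := h1.ne'
  have hx1 : 1 + X ≠ 0 := by positivity
  have hz1 : 1 + Z ≠ 0 := by positivity
  have hL0 : 0 < L := by linarith
  have hLM : L ≤ |L| + 1 := by
    have := le_abs_self L
    linarith
  generalize |L| + 1 = M at *
  have hM0 : 0 < M := by linarith
  have e6 : (s1 * (T - E - D) + (s1 * D + s1 * X * (T - E)) + s1 * (1 + X) * (E + Z * T))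
      / (s1 + s1 * X + s1 * (1 + X) * Z) = T := by
    have ht : s1 + s1 * X + s1 * (1 + X) * Z = s1 * ((1 + X) * (1 + Z)) := by ring
    have : s1 * (T - E - D) + (s1 * D + s1 * X * (T - E)) + s1 * (1 + X) * (E + Z * T) = s1 *
        ((1 + X) * (1 + Z)) * T := by ring
    rw [this, ht]
    field_simp
  rw [e6]
  have b1 : (1 - 1 / s1) ^ 2 * (s1 * (T - E - D)) ^ 2 ≤
      3 * M ^ 2 * (T ^ 2 + D ^ 2 + E ^ 2) := by
    have e : (1 - 1 / s1) ^ 2 * (s1 * (T - E - D)) ^ 2 = (s1 - 1) ^ 2 * (T - E - D) ^ 2 := by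
      field_simp
    rw [e]
    have e1 : (s1 - 1) ^ 2 ≤ M ^ 2 := by
      apply sq_le_sq'
      · linarith
      · linarith
    have e2 : (T - E - D) ^ 2 ≤ 3 * (T ^ 2 + D ^ 2 + E ^ 2) := by
      nlinarith [sq_nonneg (T + E), sq_nonneg (T + D), sq_nonneg (E - D)]
    calc (s1 - 1) ^ 2 * (T - E - D) ^ 2 ≤ M ^ 2 * (3 * (T ^ 2 + D ^ 2 + E ^ 2)) :=
          mul_le_mul e1 e2 (sq_nonneg _) (sq_nonneg _)
      _ = _ := by ring
  have c1 : s1 ^ 2 ≤ M ^ 2 := by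
    apply pow_le_pow_left₀ h1.le
    linarith
  have c2 : (s1 * X) ^ 2 ≤ M ^ 2 := by
    apply pow_le_pow_left₀ h2
    linarith
  have c3 : (s1 * (1 + X) * Z) ^ 2 ≤ M ^ 2 := by
    apply pow_le_pow_left₀ h3
    linarith
  have c4 : (s1 * (1 + X)) ^ 2 ≤ M ^ 2 := by
    apply pow_le_pow_left₀ (by positivity)
    linarith
  have b2 : (s1 * D + s1 * X * (T - E)) ^ 2 ≤ 3 * M ^ 2 * (T ^ 2 + D ^ 2 + E ^ 2) := by
    have e2 : (s1 * D + s1 * X * (T - E)) ^ 2 ≤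
        3 * (s1 ^ 2 * D ^ 2 + (s1 * X) ^ 2 * T ^ 2 + (s1 * X) ^ 2 * E ^ 2) := by
      nlinarith [sq_nonneg (s1 * D - s1 * X * T), sq_nonneg (s1 * D + s1 * X * E),
        sq_nonneg (s1 * X * T + s1 * X * E)]
    have a1 := mul_le_mul_of_nonneg_right c1 (sq_nonneg D)
    have a2 := mul_le_mul_of_nonneg_right c2 (sq_nonneg T)
    have a3 := mul_le_mul_of_nonneg_right c2 (sq_nonneg E)
    linarith
  have b3 : (s1 * (1 + X) * (E + Z * T)) ^ 2 ≤ 2 * M ^ 2 * (T ^ 2 + D ^ 2 + E ^ 2) := by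
    have e2 : (s1 * (1 + X) * (E + Z * T)) ^ 2 ≤
        2 * ((s1 * (1 + X)) ^ 2 * E ^ 2 + (s1 * (1 + X) * Z) ^ 2 * T ^ 2) := by
      nlinarith [sq_nonneg (s1 * (1 + X) * E - s1 * (1 + X) * Z * T)]
    have a1 := mul_le_mul_of_nonneg_right c4 (sq_nonneg E)
    have a2 := mul_le_mul_of_nonneg_right c3 (sq_nonneg T)
    have a3 := mul_nonneg (sq_nonneg M) (sq_nonneg D)
    linarith
  have b4 : b ^ 2 * (s1 * X + s1 * (1 + X) * Z) ^ 2 ≤
      M ^ 2 * ((X + Z + X * Z) / ((1 + X) * (1 + Z)) * b) ^ 2 := by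
    have e : b ^ 2 * (s1 * X + s1 * (1 + X) * Z) ^ 2 =
        (s1 + s1 * X + s1 * (1 + X) * Z) ^ 2 *
          ((X + Z + X * Z) / ((1 + X) * (1 + Z)) * b) ^ 2 := by
      have : (s1 + s1 * X + s1 * (1 + X) * Z) * ((X + Z + X * Z) / ((1 + X) * (1 + Z)) * b) =
          b * (s1 * X + s1 * (1 + X) * Z) := by
        field_simp
        ring
      rw [← mul_pow, ← mul_pow, this]
    rw [e]
    apply mul_le_mul_of_nonneg_right _ (sq_nonneg _)
    apply pow_le_pow_left₀ (by positivity)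
    linarith
  generalize ((X + Z + X * Z) / ((1 + X) * (1 + Z)) * b) ^ 2 = Q at *
  have hQ0 : 0 ≤ M ^ 2 * Q := le_trans (by positivity) b4
  have btot : (1 - 1 / s1) ^ 2 * (s1 * (T - E - D)) ^ 2 +
      ((s1 * D + s1 * X * (T - E)) ^ 2 + (s1 * (1 + X) * (E + Z * T)) ^ 2) +
      b ^ 2 * (s1 * X + s1 * (1 + X) * Z) ^ 2 ≤ 8 * M ^ 2 * (T ^ 2 + (D ^ 2 + E ^ 2 + Q)) := by
    linarith
  have hc : (r2 - 1) / 3 / (800000 * M ^ 2) *
      ((1 - 1 / s1) ^ 2 * (s1 * (T - E - D)) ^ 2 +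
      ((s1 * D + s1 * X * (T - E)) ^ 2 + (s1 * (1 + X) * (E + Z * T)) ^ 2) +
      b ^ 2 * (s1 * X + s1 * (1 + X) * Z) ^ 2) ≤
      (r2 - 1) / 3 * ((T ^ 2 + (D ^ 2 + E ^ 2 + Q)) / 100000) := by
    have e : (r2 - 1) / 3 * ((T ^ 2 + (D ^ 2 + E ^ 2 + Q)) / 100000) =
        (r2 - 1) / 3 / (800000 * M ^ 2) * (8 * M ^ 2 * (T ^ 2 + (D ^ 2 + E ^ 2 + Q))) := by
      field_simp
      ring
    rw [e]
    exact mul_le_mul_of_nonneg_left btot (by positivity)
  linarith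

end Pool.Agent.Lib.MP_d8ef8f_an.Rf
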