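import Pool.Agent.Lib.MP_d8ef8f_an.Rf.Stm
import Pool.Agent.Lib.MP_d8ef8f_an.Uf.U0
import Pool.Agent.Lib.MP_d8ef8f_an.Gd.A2
import Pool.Agent.Lib.MP_d8ef8f_an.Gd.A3
import Pool.Agent.Lib.MP_d8ef8f_an.Gd.D0

/-!
# From attraction of solutions bounded by `2 m₀` to attraction of bounded solutions
-/

set_option autoImplicit false

namespace Pool.Agent.Lib.MP_d8ef8f_an.Rf

open Set Filter Topology MeasureTheory
open Pool.Agent.Lib.MP_d8ef8f_an.Gd Pool.Agent.Lib.MP_d8ef8f_an.Ff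

theorem p_Au : StmAu := by
  intro n N Ω hO hb d hd m hm m₀ hm₀ hmm k θ hA M η hη
  obtain ⟨ν, hν, HA⟩ := hA η hη
  obtain ⟨τ₀, hτ₀, H0⟩ := Uf.p_U0 Ω hO hb m hm m₀ hm₀ hmm d hd M
  obtain ⟨R, -, HR⟩ := p_D0 p_A2 p_A3 Ω hO hb d m hm M
  refine ⟨ν, hν, ?_⟩
  intro A hA0
  obtain ⟨τ', hτ', HT⟩ := HA (A * Real.exp (- R * τ₀)) (by positivity)
  refine ⟨τ₀ + τ', by linarith, ?_⟩
  intro T hT a b hab hsub u ut Du lu hs hM hmk hlow t ht
  have hb' : a + 1 + (τ₀ + τ') ≤ b := ht.1.trans ht.2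
  have hsub1 : Icc (a + τ₀) b ⊆ Icc a b := Icc_subset_Icc_left (by linarith)
  have hsub2 : Icc a (a + τ₀) ⊆ Icc a b := Icc_subset_Icc_right (by linarith)
  have hmass : A * Real.exp (- R * τ₀) ≤ ∫ x in Ω, u k (a + τ₀) x := by
    have h1 := (HR T hT a (a + τ₀) (by linarith) (hsub2.trans hsub) u ut Du lu hs
      (fun j s hs' => hM j s (hsub2 hs')) k).1
    have h2 : a + τ₀ - a = τ₀ := by ring
    rw [h2] at h1
    exact (mul_le_mul_of_nonneg_right hmk (Real.exp_pos _).le).trans h1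
  exact HT T hT (a + τ₀) b (by linarith) (hsub1.trans hsub) u ut Du lu hs
    (fun j s hs' => H0 T hT a b hsub u ut Du lu hs hM j s hs') hmass
    (fun s hs' => hlow s (hsub1 hs')) t ⟨by linarith [ht.1], ht.2⟩

end Pool.Agent.Lib.MP_d8ef8f_an.Rf
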