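import Pool.Agent.Lib.MP_d8ef8f_an.Rf.Stm
import Pool.Agent.Lib.MP_d8ef8f_an.Gd.A2
import Pool.Agent.Lib.MP_d8ef8f_an.Gd.A1

/-!
# Piece Bw: the dissipation inequality for weakly heterogeneous resources
-/

set_option autoImplicit false

namespace Pool.Agent.Lib.MP_d8ef8f_an.Rf

open Set Filter Topology MeasureTheory
open Pool.Agent.Lib.MP_d8ef8f_an.Gd Pool.Agent.Lib.MP_d8ef8f_an.Ff

private theorem Bw_alg (A C L l r gk ε s e : ℝ) (hL : 1 ≤ L) (hl0 : 0 ≤ l) (hlL : l ≤ L)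
    (hε : 0 < ε) (hεs : ε ≤ s) (hsL : s ≤ L) (hr : |r| ≤ C) (hg : |gk| ≤ C / s)
    (hlr : A ≤ (l - 1) * r) (he : 0 ≤ e) :
    A - 5 * L * C * (ε / s) - 2 * C * e ≤ (l - ε + e - 1) * (r - ε * gk) := by
  have hs : 0 < s := lt_of_lt_of_le hε hεs
  have hC : 0 ≤ C := le_trans (abs_nonneg _) hr
  have hq0 : 0 < ε / s := div_pos hε hs
  have hq1 : ε / s ≤ 1 := (div_le_one hs).2 hεs
  have hεq : ε = (ε / s) * s := by field_simp
  have hεL : ε ≤ (ε / s) * L := by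
    calc ε = (ε / s) * s := hεq
      _ ≤ (ε / s) * L := mul_le_mul_of_nonneg_left hsL hq0.le
  have h1 : |ε * gk| ≤ C * (ε / s) := by
    rw [abs_mul, abs_of_pos hε]
    calc ε * |gk| ≤ ε * (C / s) := mul_le_mul_of_nonneg_left hg hε.le
      _ = C * (ε / s) := by ring
  have hl1 : |l - 1| ≤ L := abs_le.2 ⟨by linarith, by linarith⟩
  have h2 : |(l - 1) * (ε * gk)| ≤ L * (C * (ε / s)) := by
    rw [abs_mul]
    exact mul_le_mul hl1 h1 (abs_nonneg _) (by linarith)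
  have hCq : C * (ε / s) ≤ C := mul_le_of_le_one_right hC hq1
  have h3 : |r - ε * gk| ≤ 2 * C := by
    have := abs_sub r (ε * gk)
    linarith
  have h4 : |(- ε + e) * (r - ε * gk)| ≤ ((ε / s) * L + e) * (2 * C) := by
    rw [abs_mul]
    apply mul_le_mul _ h3 (abs_nonneg _) (by positivity)
    rw [abs_le]
    constructor <;> linarith
  have h5 := abs_le.1 h2
  have h6 := abs_le.1 h4
  have h7 : (l - ε + e - 1) * (r - ε * gk) =
      (l - 1) * r - (l - 1) * (ε * gk) + (- ε + e) * (r - ε * gk) := by ring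
  rw [h7]
  have h8 : ((ε / s) * L + e) * (2 * C) = 2 * (L * (C * (ε / s))) + 2 * C * e := by ring
  have h9 : 5 * L * C * (ε / s) = 5 * (L * (C * (ε / s))) := by ring
  have h10 : 0 ≤ L * (C * (ε / s)) := by positivity
  rw [h9]
  rw [h8] at h6
  linarith [h5.2, h6.1]

private theorem Bw_scale (t t1 A B D X : ℝ) (ht : 0 < t) (h1 : t ≤ t1)
    (hB : 0 ≤ B) (hD : 0 ≤ D) (hX : A - B - D ≤ X) :
    t ^ 3 * A - t1 ^ 3 * B - t1 ^ 3 * D ≤ t ^ 3 * X := by
  have h4 : t ^ 3 ≤ t1 ^ 3 := pow_le_pow_left₀ ht.le h1 3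
  have h5 : t ^ 3 * (A - B - D) ≤ t ^ 3 * X := mul_le_mul_of_nonneg_left hX (by positivity)
  have h7 : t ^ 3 * B ≤ t1 ^ 3 * B := mul_le_mul_of_nonneg_right h4 hB
  have h8 : t ^ 3 * D ≤ t1 ^ 3 * D := mul_le_mul_of_nonneg_right h4 hD
  have h9 : t ^ 3 * (A - B - D) = t ^ 3 * A - t ^ 3 * B - t ^ 3 * D := by ring
  linarith

private theorem Bw_split {N : ℕ} (k : Fin N) (a : Fin N → ℝ) :
    ∑ i, a i = (∑ i ∈ Finset.univ.filter (fun j => j < k), a i) + a k +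
      ∑ i ∈ Finset.univ.filter (fun j => k < j), a i := by
  rw [← Finset.sum_filter_add_sum_filter_not Finset.univ (fun j => j < k)]
  have h : Finset.univ.filter (fun j => ¬ j < k) =
      insert k (Finset.univ.filter (fun j => k < j)) := by
    ext j
    simp only [Finset.mem_filter, Finset.mem_univ, true_and, not_lt, Finset.mem_insert]
    rw [le_iff_eq_or_lt]
    constructor
    · rintro (h | h)
      · exact Or.inl h.symm
      · exact Or.inr h
    · rintro (h | h)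
      · exact Or.inl h.symm
      · exact Or.inr h
  rw [h, Finset.sum_insert (by simp)]
  ring

private theorem Bw_sqn {n : ℕ} (a : ℝ) (v : Sp n) : a * ‖v‖ ^ 2 = ∑ i, a * (v i) ^ 2 := by
  rw [EuclideanSpace.real_norm_sq_eq, Finset.mul_sum]

private theorem Bw_ssl {n : ℕ} (F G H : Fin n → ℝ) (h : ∀ i, F i - G i ≤ H i) :
    ∑ i, F i - ∑ i, G i ≤ ∑ i, H i := by
  rw [← Finset.sum_sub_distrib]
  exact Finset.sum_le_sum fun i _ => h i

/-- completing the square in one coordinate -/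
private theorem Bw_coord (dk l A T y b Q : ℝ) (hd : 0 < dk) (hl : 0 < l)
    (h : A + dk / 100 * T ^ 2 + 1 / (6 * dk) * (y / l) ^ 2 ≤ Q - (l - 1) / l * (b * y)) :
    A + dk / 100 * T ^ 2 - 3 / 2 * dk * (l - 1) ^ 2 * b ^ 2 ≤ Q := by
  have h2 : 0 ≤ (y / l + 3 * dk * b * (l - 1)) ^ 2 / (6 * dk) := by positivity
  have h3 : (y / l + 3 * dk * b * (l - 1)) ^ 2 / (6 * dk) =
      1 / (6 * dk) * (y / l) ^ 2 + (l - 1) / l * (b * y) + 3 / 2 * dk * (l - 1) ^ 2 * b ^ 2 := by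
    field_simp
    ring
  linarith

private theorem Bw_cube (L l : ℝ) (hL : 1 ≤ L) (hl0 : 0 ≤ l) (hlL : l ≤ L) :
    |l - 1| ^ 3 ≤ (L + 1) * (l - 1) ^ 2 := by
  have h1 : |l - 1| ≤ L + 1 := abs_le.2 ⟨by linarith, by linarith⟩
  have h2 : |l - 1| ^ 3 = |l - 1| * (l - 1) ^ 2 := by
    rw [← sq_abs (l - 1)]
    ring
  rw [h2]
  exact mul_le_mul_of_nonneg_right h1 (sq_nonneg _)

private theorem Bw_div (a1 : StmA1) {n : ℕ} {Ω : Set (Sp n)} (hΩ : IsOpen Ω) {φ θ : Sp n → ℝ}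
    {Dφ Dθ : Sp n → Sp n} (h : C1 Ω φ Dφ) (hθ : C1 Ω θ Dθ) (pos : ∀ x ∈ closure Ω, 0 < θ x) :
    C1 Ω (fun x => φ x / θ x) (fun x => (θ x)⁻¹ • Dφ x - (φ x / θ x ^ 2) • Dθ x) := by
  have h1 := a1 (ι := Bool) Ω hΩ (fun b => cond b φ θ) (fun b => cond b Dφ Dθ)
    (fun b => by cases b; exacts [hθ, h])
    (fun p => p true / p false) (fun b p => cond b (p false)⁻¹ (-(p true / p false ^ 2))) (by
      intro x hx
      have hp := (pos x hx).ne'
      have h2 := (hasFDerivAt_apply (𝕜 := ℝ) (F' := fun _ : Bool => ℝ) true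
        (fun b => (cond b φ θ) x)).fun_mul ((hasDerivAt_inv (x := θ x) hp).comp_hasFDerivAt
          (f := fun p : Bool → ℝ => p false) (fun b => (cond b φ θ) x) (hasFDerivAt_apply false _))
      refine (h2.congr_of_eventuallyEq (Eventually.of_forall fun p => ?_)).congr_fderiv ?_
      · simp [div_eq_mul_inv]
      · ext v
        simp
        field_simp
        ring) (by
      intro b
      have c1 := hθ.cont
      have c2 := h.cont
      cases b
      · simp only [cond_true, cond_false]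
        exact (c2.div (c1.pow 2) fun x hx => pow_ne_zero 2 (pos x hx).ne').neg
      · simp only [cond_true, cond_false]
        exact c1.inv₀ fun x hx => (pos x hx).ne')
  simpa [sub_eq_add_neg] using h1

private theorem Bw_add {n : ℕ} {Ω : Set (Sp n)} {φ ψ : Sp n → ℝ} {Dφ Dψ : Sp n → Sp n}
    (h1 : C1 Ω φ Dφ) (h2 : C1 Ω ψ Dψ) :
    C1 Ω (fun x => φ x + ψ x) (fun x => Dφ x + Dψ x) := by
  refine ⟨h1.cont.add h2.cont, h1.contD.add h2.contD, fun x hx => ?_⟩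
  have e1 := (h1.grad x hx).hasFDerivAt
  have e2 := (h2.grad x hx).hasFDerivAt
  rw [hasGradientAt_iff_hasFDerivAt, map_add]
  exact e1.add e2

private theorem Bw_const {n : ℕ} {Ω : Set (Sp n)} (a : ℝ) :
    C1 Ω (fun _ : Sp n => a) (fun _ => (0 : Sp n)) := by
  refine ⟨continuousOn_const, continuousOn_const, fun x _ => ?_⟩
  rw [hasGradientAt_iff_hasFDerivAt, map_zero]
  exact hasFDerivAt_const a x

private theorem Bw_sum {n : ℕ} {Ω : Set (Sp n)} {ι : Type} (S : Finset ι) (φ : ι → Sp n → ℝ)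
    (Dφ : ι → Sp n → Sp n) (h : ∀ i, C1 Ω (φ i) (Dφ i)) :
    C1 Ω (fun x => ∑ i ∈ S, φ i x) (fun x => ∑ i ∈ S, Dφ i x) := by
  classical
  induction S using Finset.induction_on with
  | empty =>
    simp only [Finset.sum_empty]
    exact Bw_const 0
  | insert a S ha ih =>
    simp only [Finset.sum_insert ha]
    exact Bw_add (h a) ih

theorem p_Bw (w1 : StmW1) (w2 : StmW2) : StmBw := by
  intro n N Ω d m k θ Dθ lθ P hB m₁ hm₁ hm hcard f g h hD hR hQL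
  have a2 : StmA2 := p_A2
  have a1 : StmA1 := p_A1
  have hw1 := w1 Ω hB.isOpen hB.bdd (d k) (hB.hd k) m hB.hm m₁ (101 / 100 * m₁) hm₁ hm θ Dθ lθ hB.st
  have hθc : ContinuousOn θ (closure Ω) := hB.st.lap.c1.cont
  have hDθc : ContinuousOn Dθ (closure Ω) := hB.st.lap.c1.contD
  have hcomp : IsCompact (closure Ω) := hB.bdd.isCompact_closure
  have hne : (closure Ω).Nonempty := hB.nonempty.closure
  obtain ⟨x₀, hx₀, hmin⟩ := hcomp.exists_isMinOn hne hθc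
  obtain ⟨x₁, hx₁, hmax⟩ := hcomp.exists_isMaxOn hne hθc
  have hmin' : ∀ x ∈ closure Ω, θ x₀ ≤ θ x := fun x hx => hmin hx
  have hmax' : ∀ x ∈ closure Ω, θ x ≤ θ x₁ := fun x hx => hmax hx
  have hθx : ∀ x ∈ closure Ω, 0 < θ x := hB.st.pos
  have hθ0 : 0 < θ x₀ := hθx x₀ hx₀
  have hθ1 : 0 < θ x₁ := hθx x₁ hx₁
  obtain ⟨L, hLdef⟩ : ∃ L : ℝ, L = 36 / 5 := ⟨_, rfl⟩
  have hL1 : 1 ≤ L := by
    rw [hLdef]
    norm_num
  obtain ⟨c, hc, hq⟩ := hQL L
  have hdk : 0 < d k := hB.hd k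
  have hC0 : 0 < L + 1 := by linarith
  have hc3 : 0 < 1 / 2 * θ x₀ ^ 3 / (L + 1) := by positivity
  have hc2 : 0 < θ x₀ ^ 2 * c := by positivity
  refine ⟨min (1 / 2 * θ x₀ ^ 3 / (L + 1)) (θ x₀ ^ 2 * c),
    θ x₁ ^ 3 * (5 * L * (L + 1)) + θ x₁ ^ 3 * (2 * (L + 1) / θ x₀),
    lt_min hc3 hc2, by positivity, ?_⟩
  intro ε hε hε1 u Du huC hu
  have huc : ∀ j, ContinuousOn (u j) (closure Ω) := fun j => (huC j).cont
  have hDuc : ∀ j, ContinuousOn (Du j) (closure Ω) := fun j => (huC j).contD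
  -- admissibility
  have hs0 : ∀ x ∈ closure Ω, ∀ j, 0 ≤ sh k ε θ u x j := by
    intro x hx j
    unfold sh
    have h1 : 0 ≤ u j x / θ x := div_nonneg (hu j x hx).1 (hθx x hx).le
    split_ifs
    · linarith
    · linarith
  have hsk : ∀ x, sh k ε θ u x k = u k x / θ x + ε := by
    intro x
    unfold sh
    simp
  have hskε : ∀ x ∈ closure Ω, ε ≤ sh k ε θ u x k := by
    intro x hx
    rw [hsk]
    have h1 : 0 ≤ u k x / θ x := div_nonneg (hu k x hx).1 (hθx x hx).le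
    linarith
  have hSab0 : ∀ x ∈ closure Ω, 0 ≤ Sab k (sh k ε θ u x) := fun x hx =>
    Finset.sum_nonneg fun j _ => hs0 x hx j
  have hsum : ∀ x, ∑ j, sh k ε θ u x j = (∑ j, u j x / θ x) + ε := by
    intro x
    unfold sh
    rw [Finset.sum_add_distrib]
    simp
  have hlow : ∀ x, ∑ j ∈ Finset.univ.filter (fun j => j < k), sh k ε θ u x j =
      (∑ j ∈ Finset.univ.filter (fun j => j < k), u j x) / θ x := by
    intro x
    rw [Finset.sum_div]
    apply Finset.sum_congr rfl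
    intro j hj
    have : j ≠ k := ne_of_lt (Finset.mem_filter.1 hj).2
    unfold sh
    rw [if_neg this, add_zero]
  have hlen : ∀ x, (∑ j, u j x) / θ x =
      len k (sh k ε θ u x) - ε + (∑ j ∈ Finset.univ.filter (fun j => j < k), u j x) / θ x := by
    intro x
    have h1 := Bw_split k (fun j => sh k ε θ u x j)
    rw [hsum x, hlow x, ← Finset.sum_div] at h1
    have h2 : len k (sh k ε θ u x) = sh k ε θ u x k +
        ∑ j ∈ Finset.univ.filter (fun j => k < j), sh k ε θ u x j := rfl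
    rw [h2]
    linarith
  have hlenk : ∀ x, len k (sh k ε θ u x) =
      u k x / θ x + ε + ∑ j ∈ Finset.univ.filter (fun j => k < j), u j x / θ x := by
    intro x
    have h2 : len k (sh k ε θ u x) = sh k ε θ u x k +
        ∑ j ∈ Finset.univ.filter (fun j => k < j), sh k ε θ u x j := rfl
    rw [h2, hsk]
    congr 1
    apply Finset.sum_congr rfl
    intro j hj
    have : j ≠ k := (ne_of_lt (Finset.mem_filter.1 hj).2).symm
    unfold sh
    rw [if_neg this, add_zero]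
  have hAdm : ∀ x ∈ closure Ω, Adm k L (sh k ε θ u x) := by
    intro x hx
    refine ⟨lt_of_lt_of_le hε (hskε x hx), hs0 x hx, ?_⟩
    have hub : ∀ j, u j x / θ x ≤ 101 / 50 := by
      intro j
      rw [div_le_iff₀ (hθx x hx)]
      have q1 := (hu j x hx).2
      have q2 := (hw1 x hx).1
      linarith
    have h4 : (∑ j ∈ Finset.univ.filter (fun j => k < j), u j x / θ x) ≤
        ∑ j ∈ Finset.univ.filter (fun j => k < j), (101 / 50 : ℝ) :=
      Finset.sum_le_sum (fun j _ => hub j)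
    rw [Finset.sum_const, nsmul_eq_mul] at h4
    have h5 : ((Finset.univ.filter (fun j => k < j)).card : ℝ) ≤ 2 := by exact_mod_cast hcard
    have h6 := hlenk x
    have h7 := hub k
    rw [hLdef]
    linarith
  -- the radial derivative
  have hrad : ∀ x, ∑ j, (u j x / θ x) * g j (sh k ε θ u x) =
      rad g (sh k ε θ u x) - ε * g k (sh k ε θ u x) := by
    intro x
    have h1 : rad g (sh k ε θ u x) =
        ∑ j, ((u j x / θ x) * g j (sh k ε θ u x) +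
          (if j = k then ε else 0) * g j (sh k ε θ u x)) := by
      apply Finset.sum_congr rfl
      intro j _
      show (u j x / θ x + if j = k then ε else 0) * g j (sh k ε θ u x) = _
      ring
    rw [h1, Finset.sum_add_distrib]
    have h2 : ∑ j, (if j = k then ε else 0) * g j (sh k ε θ u x) = ε * g k (sh k ε θ u x) := by
      simp
    rw [h2]
    ring
  have hl0' : ∀ x ∈ closure Ω, 0 < len k (sh k ε θ u x) := by
    intro x hx
    have h5 : len k (sh k ε θ u x) = sh k ε θ u x k + Sab k (sh k ε θ u x) := rfl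
    have h6 := hSab0 x hx
    have h7 := hskε x hx
    linarith
  -- first term
  have hpt1 : ∀ x ∈ closure Ω,
      θ x ^ 3 * (len k (sh k ε θ u x) - 1) ^ 2
        - θ x₁ ^ 3 * (5 * L * (L + 1)) * (ε / (u k x / θ x + ε))
        - θ x₁ ^ 3 * (2 * (L + 1) / θ x₀) * (∑ j ∈ Finset.univ.filter (fun j => j < k), u j x)
      ≤ θ x ^ 3 * ((∑ i, u i x) / θ x - 1) * ∑ j, (u j x / θ x) * g j (sh k ε θ u x) := by
    intro x hx
    have hA := hAdm x hx
    have hsp : 0 < sh k ε θ u x k := lt_of_lt_of_le hε (hskε x hx)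
    have hl0 : 0 ≤ len k (sh k ε θ u x) := (hl0' x hx).le
    have hl : sh k ε θ u x k ≤ L := by
      have h5 : len k (sh k ε θ u x) = sh k ε θ u x k + Sab k (sh k ε θ u x) := rfl
      have h6 := hSab0 x hx
      have h7 := hA.2.2
      linarith
    have hrd := hR.rd _ hsp (hs0 x hx)
    have h2 : (len k (sh k ε θ u x) - 1) ^ 2 ≤
        (len k (sh k ε θ u x) - 1) * rad g (sh k ε θ u x) := by
      rw [hrd]
      exact le_of_eq (by ring)
    have h3 : |rad g (sh k ε θ u x)| ≤ L + 1 := by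
      rw [hrd, abs_le]
      have := hA.2.2
      constructor <;> linarith
    have h4 : |g k (sh k ε θ u x)| ≤ (L + 1) / sh k ε θ u x k := by
      refine le_trans (hR.gk _ hsp (hs0 x hx)) ?_
      rw [le_div_iff₀ hsp, add_mul, one_div, inv_mul_cancel₀ hsp.ne']
      linarith
    have he0 : 0 ≤ (∑ j ∈ Finset.univ.filter (fun j => j < k), u j x) :=
      Finset.sum_nonneg fun j _ => (hu j x hx).1
    have he : 0 ≤ (∑ j ∈ Finset.univ.filter (fun j => j < k), u j x) / θ x :=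
      div_nonneg he0 (hθx x hx).le
    have h5 := Bw_alg ((len k (sh k ε θ u x) - 1) ^ 2) (L + 1) L (len k (sh k ε θ u x))
      (rad g (sh k ε θ u x))
      (g k (sh k ε θ u x)) ε (sh k ε θ u x k)
      ((∑ j ∈ Finset.univ.filter (fun j => j < k), u j x) / θ x) hL1 hl0 hA.2.2 hε
      (hskε x hx) hl h3 h4 h2 he
    have h6 := Bw_scale (θ x) (θ x₁) _ _ _ _ (hθx x hx) (hmax' x hx)
      (by positivity) (by positivity) h5
    rw [hlen x, hrad x, mul_assoc (θ x ^ 3)]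
    refine le_trans ?_ h6
    rw [hsk x]
    have h7 : (∑ j ∈ Finset.univ.filter (fun j => j < k), u j x) / θ x ≤
        (∑ j ∈ Finset.univ.filter (fun j => j < k), u j x) / θ x₀ :=
      div_le_div_of_nonneg_left he0 hθ0 (hmin' x hx)
    have h8 : θ x₁ ^ 3 * (2 * (L + 1) *
          ((∑ j ∈ Finset.univ.filter (fun j => j < k), u j x) / θ x)) ≤
        θ x₁ ^ 3 * (2 * (L + 1) *
          ((∑ j ∈ Finset.univ.filter (fun j => j < k), u j x) / θ x₀)) := by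
      apply mul_le_mul_of_nonneg_left _ (by positivity)
      apply mul_le_mul_of_nonneg_left h7 (by positivity)
    have h9 : θ x₁ ^ 3 * (2 * (L + 1) / θ x₀) *
          (∑ j ∈ Finset.univ.filter (fun j => j < k), u j x) =
        θ x₁ ^ 3 * (2 * (L + 1) *
          ((∑ j ∈ Finset.univ.filter (fun j => j < k), u j x) / θ x₀)) := by
      ring
    have h10 : θ x₁ ^ 3 * (5 * L * (L + 1)) * (ε / (u k x / θ x + ε)) =
        θ x₁ ^ 3 * (5 * L * (L + 1) * (ε / (u k x / θ x + ε))) := by ring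
    rw [h9, h10]
    linarith
  -- the gradient of the length
  obtain ⟨DV, hDV⟩ : ∃ DV : Sp n → Sp n, ∀ x, DV x = (Dsh θ Dθ u Du k x +
      ∑ j ∈ Finset.univ.filter (fun j => k < j), Dsh θ Dθ u Du j x) := ⟨fun x => _, fun x => rfl⟩
  have hDVi : ∀ x i, DV x i = len k (fun j => Dsh θ Dθ u Du j x i) := by
    intro x i
    rw [hDV]
    unfold len Sab
    simp
  have hc1V : C1 Ω (fun x => len k (sh k ε θ u x) - 1) DV := by
    have q1 : ∀ j, C1 Ω (fun x => u j x / θ x) (fun x => Dsh θ Dθ u Du j x) := fun j =>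
      Bw_div a1 hB.isOpen (huC j) hB.st.lap.c1 hθx
    have q2 := Bw_sum (Finset.univ.filter (fun j => k < j)) (fun j x => u j x / θ x)
      (fun j x => Dsh θ Dθ u Du j x) q1
    have q3 := Bw_add (Bw_add (q1 k) q2) (Bw_const (Ω := Ω) (ε - 1))
    have q4 : (fun x => len k (sh k ε θ u x) - 1) = (fun x => (u k x / θ x +
        ∑ j ∈ Finset.univ.filter (fun j => k < j), u j x / θ x) + (ε - 1)) := by
      funext x
      rw [hlenk x]
      ring
    have q5 : DV = (fun x => (Dsh θ Dθ u Du k x +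
        ∑ j ∈ Finset.univ.filter (fun j => k < j), Dsh θ Dθ u Du j x) + (0 : Sp n)) := by
      funext x
      rw [hDV x, add_zero]
    rw [q4, q5]
    exact q3
  -- second term
  have hpt2 : ∀ x ∈ closure Ω,
      θ x₀ ^ 2 * c * ((∑ j ∈ Finset.univ.filter (fun j => k < j), ‖Dsh θ Dθ u Du j x‖ ^ 2)
        + ‖(θ x)⁻¹ • Dθ x‖ ^ 2 * Sab k (sh k ε θ u x) ^ 2
        + (1 - 1 / (sh k ε θ u x k)) ^ 2 * ‖Dsh θ Dθ u Du k x‖ ^ 2)
        + θ x ^ 2 * (d k / 100 * (‖DV x‖ ^ 2 / len k (sh k ε θ u x) ^ 2))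
        - 3 / 2 * (d k * (‖Dθ x‖ ^ 2 * (len k (sh k ε θ u x) - 1) ^ 2))
      ≤ θ x ^ 2 * ∑ c : Fin n, Qf d k g h (sh k ε θ u x)
              (fun j => Dsh θ Dθ u Du j x c) (((θ x)⁻¹ • Dθ x) c) := by
    intro x hx
    have h1 := hq _ (hAdm x hx)
    have hθp := hθx x hx
    have h2 : c * ((∑ j ∈ Finset.univ.filter (fun j => k < j), ‖Dsh θ Dθ u Du j x‖ ^ 2)
        + ‖(θ x)⁻¹ • Dθ x‖ ^ 2 * Sab k (sh k ε θ u x) ^ 2
        + (1 - 1 / (sh k ε θ u x k)) ^ 2 * ‖Dsh θ Dθ u Du k x‖ ^ 2) =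
        ∑ i : Fin n, c * ((1 - 1 / sh k ε θ u x k) ^ 2 * (Dsh θ Dθ u Du k x i) ^ 2
          + (∑ j ∈ Finset.univ.filter (fun j => k < j), (Dsh θ Dθ u Du j x i) ^ 2)
          + (((θ x)⁻¹ • Dθ x) i) ^ 2 * Sab k (sh k ε θ u x) ^ 2) := by
      rw [← Finset.mul_sum, Finset.sum_add_distrib, Finset.sum_add_distrib, ← Finset.mul_sum,
        ← Finset.sum_mul, Finset.sum_comm]
      simp only [EuclideanSpace.real_norm_sq_eq]
      ring
    have h2' : d k / 100 * (‖DV x‖ ^ 2 / len k (sh k ε θ u x) ^ 2) =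
        ∑ i : Fin n, d k / 100 *
          (len k (fun j => Dsh θ Dθ u Du j x i) / len k (sh k ε θ u x)) ^ 2 := by
      rw [EuclideanSpace.real_norm_sq_eq, Finset.sum_div, Finset.mul_sum]
      apply Finset.sum_congr rfl
      intro i _
      rw [hDVi, div_pow]
    have h3 : ∑ i : Fin n, (c * ((1 - 1 / sh k ε θ u x k) ^ 2 * (Dsh θ Dθ u Du k x i) ^ 2
          + (∑ j ∈ Finset.univ.filter (fun j => k < j), (Dsh θ Dθ u Du j x i) ^ 2)
          + (((θ x)⁻¹ • Dθ x) i) ^ 2 * Sab k (sh k ε θ u x) ^ 2)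
          + d k / 100 *
          (len k (fun j => Dsh θ Dθ u Du j x i) / len k (sh k ε θ u x)) ^ 2)
          - 3 / 2 * d k * (len k (sh k ε θ u x) - 1) ^ 2 * ‖(θ x)⁻¹ • Dθ x‖ ^ 2 ≤
        ∑ c : Fin n, Qf d k g h (sh k ε θ u x)
              (fun j => Dsh θ Dθ u Du j x c) (((θ x)⁻¹ • Dθ x) c) := by
      rw [Bw_sqn (3 / 2 * d k * (len k (sh k ε θ u x) - 1) ^ 2) ((θ x)⁻¹ • Dθ x)]
      exact Bw_ssl _ _ _ fun i => Bw_coord (d k) _ _ _ _ _ _ hdk (hl0' x hx)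
        (h1 (fun j => Dsh θ Dθ u Du j x i) (((θ x)⁻¹ • Dθ x) i))
    rw [Finset.sum_add_distrib, ← h2, ← h2'] at h3
    have hb : θ x ^ 2 * (3 / 2 * d k * (len k (sh k ε θ u x) - 1) ^ 2 *
        ‖(θ x)⁻¹ • Dθ x‖ ^ 2) =
        3 / 2 * (d k * (‖Dθ x‖ ^ 2 * (len k (sh k ε θ u x) - 1) ^ 2)) := by
      have e1 : ‖(θ x)⁻¹ • Dθ x‖ = (θ x)⁻¹ * ‖Dθ x‖ := by
        rw [norm_smul, Real.norm_eq_abs, abs_of_pos (inv_pos.2 hθp)]
      rw [e1]
      field_simp
    have h4 : θ x₀ ^ 2 ≤ θ x ^ 2 := pow_le_pow_left₀ hθ0.le (hmin' x hx) 2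
    have h5 : 0 ≤ c * ((∑ j ∈ Finset.univ.filter (fun j => k < j), ‖Dsh θ Dθ u Du j x‖ ^ 2)
        + ‖(θ x)⁻¹ • Dθ x‖ ^ 2 * Sab k (sh k ε θ u x) ^ 2
        + (1 - 1 / (sh k ε θ u x k)) ^ 2 * ‖Dsh θ Dθ u Du k x‖ ^ 2) :=
      mul_nonneg hc.le (add_nonneg (add_nonneg (Finset.sum_nonneg fun j _ => sq_nonneg _)
        (mul_nonneg (sq_nonneg _) (sq_nonneg _))) (mul_nonneg (sq_nonneg _) (sq_nonneg _)))
    rw [mul_assoc]
    have h6 := mul_le_mul_of_nonneg_right h4 h5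
    have h9 := mul_le_mul_of_nonneg_left (sub_le_iff_le_add.1 h3) (sq_nonneg (θ x))
    rw [mul_add, mul_add] at h9
    linarith
  -- absorption
  have hab : ∀ x ∈ closure Ω,
      1 / 2 * (θ x ^ 3 * (len k (sh k ε θ u x) - 1) ^ 2)
        + 6 * (m₁ / 200) ^ 2 * d k * ‖DV x‖ ^ 2
        + 3 / 4 * (m₁ / 200) ^ 2 * (θ x * (len k (sh k ε θ u x) - 1) ^ 2)
      ≤ θ x ^ 3 * (len k (sh k ε θ u x) - 1) ^ 2
        + θ x ^ 2 * (d k / 100 * (‖DV x‖ ^ 2 / len k (sh k ε θ u x) ^ 2)) := by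
    intro x hx
    have hθp := hθx x hx
    have hmθ := (hw1 x hx).1
    have hlp := hl0' x hx
    have hlL := (hAdm x hx).2.2
    rw [hLdef] at hlL
    have q1 : m₁ ^ 2 ≤ θ x ^ 2 := pow_le_pow_left₀ hm₁.le hmθ 2
    have q2 : len k (sh k ε θ u x) ^ 2 ≤ (36 / 5) ^ 2 := pow_le_pow_left₀ hlp.le hlL 2
    have q3 : 3 / 4 * (m₁ / 200) ^ 2 * (θ x * (len k (sh k ε θ u x) - 1) ^ 2) ≤
        1 / 2 * (θ x ^ 3 * (len k (sh k ε θ u x) - 1) ^ 2) := by
      have r1 : 1 / 2 * (θ x ^ 3 * (len k (sh k ε θ u x) - 1) ^ 2) =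
          1 / 2 * θ x ^ 2 * (θ x * (len k (sh k ε θ u x) - 1) ^ 2) := by ring
      rw [r1]
      apply mul_le_mul_of_nonneg_right _ (by positivity)
      have r2 : 3 / 4 * (m₁ / 200) ^ 2 = 3 / 160000 * m₁ ^ 2 := by ring
      rw [r2]
      have r3 : 0 ≤ m₁ ^ 2 := sq_nonneg _
      linarith
    have q4 : 6 * (m₁ / 200) ^ 2 * d k * ‖DV x‖ ^ 2 ≤
        θ x ^ 2 * (d k / 100 * (‖DV x‖ ^ 2 / len k (sh k ε θ u x) ^ 2)) := by
      have r1 : θ x ^ 2 * (d k / 100 * (‖DV x‖ ^ 2 / len k (sh k ε θ u x) ^ 2)) =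
          (θ x ^ 2 / (100 * len k (sh k ε θ u x) ^ 2)) * (d k * ‖DV x‖ ^ 2) := by
        field_simp
      have r2 : 6 * (m₁ / 200) ^ 2 * d k * ‖DV x‖ ^ 2 =
          (6 * (m₁ / 200) ^ 2) * (d k * ‖DV x‖ ^ 2) := by ring
      rw [r1, r2]
      apply mul_le_mul_of_nonneg_right _ (by positivity)
      rw [le_div_iff₀ (by positivity)]
      have r3 : 6 * (m₁ / 200) ^ 2 * (100 * len k (sh k ε θ u x) ^ 2) =
          (3 / 200 * m₁ ^ 2) * len k (sh k ε θ u x) ^ 2 := by ring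
      rw [r3]
      have r4 : (3 / 200 * m₁ ^ 2) * len k (sh k ε θ u x) ^ 2 ≤
          (3 / 200 * m₁ ^ 2) * (36 / 5) ^ 2 := mul_le_mul_of_nonneg_left q2 (by positivity)
      have r5 : 0 ≤ m₁ ^ 2 := sq_nonneg _
      linarith
    linarith
  -- pointwise
  have hpt : ∀ x ∈ closure Ω,
      - (θ x ^ 3 * ((∑ i, u i x) / θ x - 1) * ∑ j, (u j x / θ x) * g j (sh k ε θ u x))
        - θ x ^ 2 * ∑ c : Fin n, Qf d k g h (sh k ε θ u x)
              (fun j => Dsh θ Dθ u Du j x c) (((θ x)⁻¹ • Dθ x) c)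
      ≤ - min (1 / 2 * θ x₀ ^ 3 / (L + 1)) (θ x₀ ^ 2 * c) * dis k θ Dθ ε u Du x
        + ((θ x₁ ^ 3 * (5 * L * (L + 1)) + θ x₁ ^ 3 * (2 * (L + 1) / θ x₀)) *
            (∑ j ∈ Finset.univ.filter (fun j => j < k), u j x)
        + (θ x₁ ^ 3 * (5 * L * (L + 1)) + θ x₁ ^ 3 * (2 * (L + 1) / θ x₀)) *
            (ε / (u k x / θ x + ε)))
        + (3 / 2 * (d k * (‖Dθ x‖ ^ 2 * (len k (sh k ε θ u x) - 1) ^ 2))
        - 6 * (m₁ / 200) ^ 2 * d k * ‖DV x‖ ^ 2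
        - 3 / 4 * (m₁ / 200) ^ 2 * (θ x * (len k (sh k ε θ u x) - 1) ^ 2)) := by
    intro x hx
    have h1 := hpt1 x hx
    have h2 := hpt2 x hx
    have h2a := hab x hx
    have h3 : 0 ≤ ∑ j ∈ Finset.univ.filter (fun j => j < k), u j x :=
      Finset.sum_nonneg fun j _ => (hu j x hx).1
    have h4 : 0 ≤ ε / (u k x / θ x + ε) := by
      have := hskε x hx
      rw [hsk] at this
      have h5 : 0 < u k x / θ x + ε := by linarith
      positivity
    have h5 : dis k θ Dθ ε u Du x = |len k (sh k ε θ u x) - 1| ^ 3 +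
        ((∑ j ∈ Finset.univ.filter (fun j => k < j), ‖Dsh θ Dθ u Du j x‖ ^ 2)
        + ‖(θ x)⁻¹ • Dθ x‖ ^ 2 * Sab k (sh k ε θ u x) ^ 2
        + (1 - 1 / (sh k ε θ u x k)) ^ 2 * ‖Dsh θ Dθ u Du k x‖ ^ 2) := by
      unfold dis
      ring
    rw [h5]
    have h6 : min (1 / 2 * θ x₀ ^ 3 / (L + 1)) (θ x₀ ^ 2 * c) * |len k (sh k ε θ u x) - 1| ^ 3 ≤
        1 / 2 * (θ x ^ 3 * (len k (sh k ε θ u x) - 1) ^ 2) := by
      have q1 : min (1 / 2 * θ x₀ ^ 3 / (L + 1)) (θ x₀ ^ 2 * c) * |len k (sh k ε θ u x) - 1| ^ 3 ≤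
          1 / 2 * θ x₀ ^ 3 / (L + 1) * |len k (sh k ε θ u x) - 1| ^ 3 :=
        mul_le_mul_of_nonneg_right (min_le_left _ _) (by positivity)
      have q2 := Bw_cube L (len k (sh k ε θ u x)) hL1 (hl0' x hx).le (hAdm x hx).2.2
      have q3 : 1 / 2 * θ x₀ ^ 3 / (L + 1) * |len k (sh k ε θ u x) - 1| ^ 3 ≤
          1 / 2 * θ x₀ ^ 3 / (L + 1) * ((L + 1) * (len k (sh k ε θ u x) - 1) ^ 2) :=
        mul_le_mul_of_nonneg_left q2 hc3.le
      have q4 : 1 / 2 * θ x₀ ^ 3 / (L + 1) * ((L + 1) * (len k (sh k ε θ u x) - 1) ^ 2) =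
          1 / 2 * (θ x₀ ^ 3 * (len k (sh k ε θ u x) - 1) ^ 2) := by
        field_simp
      have q5 : 1 / 2 * (θ x₀ ^ 3 * (len k (sh k ε θ u x) - 1) ^ 2) ≤
          1 / 2 * (θ x ^ 3 * (len k (sh k ε θ u x) - 1) ^ 2) :=
        mul_le_mul_of_nonneg_left (mul_le_mul_of_nonneg_right
          (pow_le_pow_left₀ hθ0.le (hmin' x hx) 3) (sq_nonneg _)) (by norm_num)
      linarith
    have h7 : min (1 / 2 * θ x₀ ^ 3 / (L + 1)) (θ x₀ ^ 2 * c) *
        ((∑ j ∈ Finset.univ.filter (fun j => k < j), ‖Dsh θ Dθ u Du j x‖ ^ 2)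
        + ‖(θ x)⁻¹ • Dθ x‖ ^ 2 * Sab k (sh k ε θ u x) ^ 2
        + (1 - 1 / (sh k ε θ u x k)) ^ 2 * ‖Dsh θ Dθ u Du k x‖ ^ 2) ≤
        θ x₀ ^ 2 * c *
        ((∑ j ∈ Finset.univ.filter (fun j => k < j), ‖Dsh θ Dθ u Du j x‖ ^ 2)
        + ‖(θ x)⁻¹ • Dθ x‖ ^ 2 * Sab k (sh k ε θ u x) ^ 2
        + (1 - 1 / (sh k ε θ u x k)) ^ 2 * ‖Dsh θ Dθ u Du k x‖ ^ 2) :=
      mul_le_mul_of_nonneg_right (min_le_right _ _) (by positivity)
    have h8 : 0 ≤ θ x₁ ^ 3 * (5 * L * (L + 1)) *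
        (∑ j ∈ Finset.univ.filter (fun j => j < k), u j x) := by
      positivity
    have h9 : 0 ≤ θ x₁ ^ 3 * (2 * (L + 1) / θ x₀) * (ε / (u k x / θ x + ε)) := by positivity
    rw [neg_mul, mul_add, add_mul, add_mul]
    linarith
  -- continuity
  have hsc : ContinuousOn (fun x => sh k ε θ u x) (closure Ω) := by
    rw [continuousOn_pi]
    intro j
    unfold sh
    exact ((huc j).div hθc (fun x hx => (hθx x hx).ne')).add continuousOn_const
  have hmaps : MapsTo (fun x => sh k ε θ u x) (closure Ω) {s | 0 < s k ∧ ∀ j, 0 ≤ s j} :=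
    fun x hx => ⟨lt_of_lt_of_le hε (hskε x hx), hs0 x hx⟩
  have hgc : ∀ i, ContinuousOn (fun x => g i (sh k ε θ u x)) (closure Ω) := by
    intro i x hx
    have h1 : ContinuousAt (g i) (sh k ε θ u x) :=
      (hD.dg i _ (lt_of_lt_of_le hε (hskε x hx)) (hs0 x hx)).continuousAt
    exact ContinuousAt.comp_continuousWithinAt h1 (hsc x hx)
  have hhc : ∀ i j, ContinuousOn (fun x => h i j (sh k ε θ u x)) (closure Ω) :=
    fun i j => (hD.ch i j).comp hsc hmaps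
  have hsjc : ∀ j, ContinuousOn (fun x => sh k ε θ u x j) (closure Ω) :=
    fun j => continuousOn_pi.1 hsc j
  have hθinv : ContinuousOn (fun x => (θ x)⁻¹) (closure Ω) :=
    hθc.inv₀ fun x hx => (hθx x hx).ne'
  have hbc : ContinuousOn (fun x => (θ x)⁻¹ • Dθ x) (closure Ω) := hθinv.smul hDθc
  have hDshc : ∀ j, ContinuousOn (fun x => Dsh θ Dθ u Du j x) (closure Ω) := by
    intro j
    unfold Dsh
    exact (hθinv.smul (hDuc j)).sub (((huc j).div (hθc.pow 2)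
      (fun x hx => (pow_pos (hθx x hx) 2).ne')).smul hDθc)
  have hcoord : ∀ (v : Sp n → Sp n), ContinuousOn v (closure Ω) → ∀ i,
      ContinuousOn (fun x => v x i) (closure Ω) := by
    intro v hv i
    exact (EuclideanSpace.proj (𝕜 := ℝ) i).continuous.comp_continuousOn hv
  have hQc : ContinuousOn (fun x => ∑ c : Fin n, Qf d k g h (sh k ε θ u x)
              (fun j => Dsh θ Dθ u Du j x c) (((θ x)⁻¹ • Dθ x) c)) (closure Ω) := by
    apply continuousOn_finsetSum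
    intro c _
    unfold Qf
    have hz : ∀ j, ContinuousOn (fun x => Dsh θ Dθ u Du j x c) (closure Ω) :=
      fun j => hcoord _ (hDshc j) c
    have hb : ContinuousOn (fun x => ((θ x)⁻¹ • Dθ x) c) (closure Ω) := hcoord _ hbc c
    refine ContinuousOn.add (ContinuousOn.add ?_ ?_) ?_
    · apply continuousOn_finsetSum
      intro i _
      apply continuousOn_finsetSum
      intro j _
      exact ((continuousOn_const.mul (hhc i j)).mul (hz i)).mul (hz j)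
    · apply hb.mul
      apply continuousOn_finsetSum
      intro i _
      apply continuousOn_const.mul
      apply ((hz i).mul (hgc i)).add
      apply (hsjc i).mul
      apply continuousOn_finsetSum
      intro j _
      exact (hhc i j).mul (hz j)
    · apply (hb.pow 2).mul
      apply continuousOn_finsetSum
      intro i _
      exact continuousOn_const.mul ((hsjc i).mul (hgc i))
  have hSabc : ContinuousOn (fun x => Sab k (sh k ε θ u x)) (closure Ω) := by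
    unfold Sab
    apply continuousOn_finsetSum
    intro j _
    exact hsjc j
  have hlenc : ContinuousOn (fun x => len k (sh k ε θ u x)) (closure Ω) := by
    unfold len
    exact (hsjc k).add hSabc
  have hdisc : ContinuousOn (fun x => dis k θ Dθ ε u Du x) (closure Ω) := by
    unfold dis
    refine ContinuousOn.add (ContinuousOn.add (ContinuousOn.add ?_ ?_) ?_) ?_
    · exact ((hlenc.sub continuousOn_const).abs).pow 3
    · apply continuousOn_finsetSum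
      intro j _
      exact (hDshc j).norm.pow 2
    · exact (hbc.norm.pow 2).mul (hSabc.pow 2)
    · exact ((continuousOn_const.sub (continuousOn_const.div (hsjc k)
        (fun x hx => (lt_of_lt_of_le hε (hskε x hx)).ne'))).pow 2).mul ((hDshc k).norm.pow 2)
  have hUc : ContinuousOn (fun x => ∑ i, u i x) (closure Ω) :=
    continuousOn_finsetSum _ fun i _ => huc i
  have hI1 : IntegrableOn (fun x => θ x ^ 3 * ((∑ i, u i x) / θ x - 1) *
      ∑ j, (u j x / θ x) * g j (sh k ε θ u x)) Ω := by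
    apply a2 Ω hB.bdd
    apply ContinuousOn.mul
    · exact (hθc.pow 3).mul ((hUc.div hθc (fun x hx => (hθx x hx).ne')).sub continuousOn_const)
    · apply continuousOn_finsetSum
      intro j _
      exact ((huc j).div hθc (fun x hx => (hθx x hx).ne')).mul (hgc j)
  have hI2 : IntegrableOn (fun x => θ x ^ 2 * ∑ c : Fin n, Qf d k g h (sh k ε θ u x)
              (fun j => Dsh θ Dθ u Du j x c) (((θ x)⁻¹ • Dθ x) c)) Ω :=
    a2 Ω hB.bdd _ ((hθc.pow 2).mul hQc)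
  have hI3 : IntegrableOn (fun x => dis k θ Dθ ε u Du x) Ω := a2 Ω hB.bdd _ hdisc
  have hI4 : IntegrableOn (fun x => ∑ j ∈ Finset.univ.filter (fun j => j < k), u j x) Ω :=
    a2 Ω hB.bdd _ (continuousOn_finsetSum _ fun i _ => huc i)
  have hI5 : IntegrableOn (fun x => ε / (u k x / θ x + ε)) Ω := by
    apply a2 Ω hB.bdd
    apply continuousOn_const.div
    · exact ((huc k).div hθc (fun x hx => (hθx x hx).ne')).add continuousOn_const
    · intro x hx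
      have := hskε x hx
      rw [hsk] at this
      linarith
  have hVc : ContinuousOn (fun x => (len k (sh k ε θ u x) - 1) ^ 2) (closure Ω) :=
    (hlenc.sub continuousOn_const).pow 2
  have hI6 : IntegrableOn (fun x => ‖Dθ x‖ ^ 2 * (len k (sh k ε θ u x) - 1) ^ 2) Ω :=
    a2 Ω hB.bdd _ ((hDθc.norm.pow 2).mul hVc)
  have hI7 : IntegrableOn (fun x => ‖DV x‖ ^ 2) Ω := a2 Ω hB.bdd _ (hc1V.contD.norm.pow 2)
  have hI8 : IntegrableOn (fun x => θ x * (len k (sh k ε θ u x) - 1) ^ 2) Ω :=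
    a2 Ω hB.bdd _ (hθc.mul hVc)
  have hI9 : IntegrableOn (fun x => (3 / 2 * (d k * (‖Dθ x‖ ^ 2 * (len k (sh k ε θ u x) - 1) ^ 2))
        - 6 * (m₁ / 200) ^ 2 * d k * ‖DV x‖ ^ 2
        - 3 / 4 * (m₁ / 200) ^ 2 * (θ x * (len k (sh k ε θ u x) - 1) ^ 2))) Ω :=
    (((hI6.const_mul (d k)).const_mul (3 / 2)).sub
      (hI7.const_mul (6 * (m₁ / 200) ^ 2 * d k))).sub
      (hI8.const_mul (3 / 4 * (m₁ / 200) ^ 2))
  have hE : ∫ x in Ω, (3 / 2 * (d k * (‖Dθ x‖ ^ 2 * (len k (sh k ε θ u x) - 1) ^ 2))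
        - 6 * (m₁ / 200) ^ 2 * d k * ‖DV x‖ ^ 2
        - 3 / 4 * (m₁ / 200) ^ 2 * (θ x * (len k (sh k ε θ u x) - 1) ^ 2)) ≤ 0 := by
    have hI6' : IntegrableOn (fun x => 3 / 2 * (d k * (‖Dθ x‖ ^ 2 *
        (len k (sh k ε θ u x) - 1) ^ 2))) Ω := (hI6.const_mul (d k)).const_mul (3 / 2)
    have hI7' : IntegrableOn (fun x => 6 * (m₁ / 200) ^ 2 * d k * ‖DV x‖ ^ 2) Ω :=
      hI7.const_mul (6 * (m₁ / 200) ^ 2 * d k)
    have hI8' : IntegrableOn (fun x => 3 / 4 * (m₁ / 200) ^ 2 *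
        (θ x * (len k (sh k ε θ u x) - 1) ^ 2)) Ω := hI8.const_mul (3 / 4 * (m₁ / 200) ^ 2)
    have hI67 : IntegrableOn (fun x => 3 / 2 * (d k * (‖Dθ x‖ ^ 2 *
        (len k (sh k ε θ u x) - 1) ^ 2)) - 6 * (m₁ / 200) ^ 2 * d k * ‖DV x‖ ^ 2) Ω :=
      hI6'.sub hI7'
    rw [integral_sub hI67 hI8', integral_sub hI6' hI7', integral_const_mul, integral_const_mul,
      integral_const_mul, integral_const_mul]
    have q1 := w2 Ω hB.isOpen hB.bdd (d k) hdk m hB.hm θ Dθ lθ hB.st (m₁ + m₁ / 200) (m₁ / 200)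
      (by positivity) (by
        intro x hx
        have r1 := hm x hx
        have r2 := hw1 x hx
        refine ⟨abs_le.2 ⟨?_, ?_⟩, abs_le.2 ⟨?_, ?_⟩⟩
        · linarith [r1.1]
        · linarith [r1.2]
        · linarith [r2.1]
        · linarith [r2.2]) _ DV hc1V
    linarith
  have hfin := setIntegral_mono_on (hI1.neg.sub hI2)
    (((hI3.const_mul (- min (1 / 2 * θ x₀ ^ 3 / (L + 1)) (θ x₀ ^ 2 * c))).add
      ((hI4.const_mul (θ x₁ ^ 3 * (5 * L * (L + 1)) + θ x₁ ^ 3 * (2 * (L + 1) / θ x₀))).add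
      (hI5.const_mul (θ x₁ ^ 3 * (5 * L * (L + 1)) + θ x₁ ^ 3 * (2 * (L + 1) / θ x₀))))).add
      hI9)
    hB.isOpen.measurableSet (fun x hx => hpt x (subset_closure hx))
  have e1 : ∫ x in Ω, (- (θ x ^ 3 * ((∑ i, u i x) / θ x - 1) *
      ∑ j, (u j x / θ x) * g j (sh k ε θ u x))
        - θ x ^ 2 * ∑ c : Fin n, Qf d k g h (sh k ε θ u x)
              (fun j => Dsh θ Dθ u Du j x c) (((θ x)⁻¹ • Dθ x) c)) =
      - (∫ x in Ω, θ x ^ 3 * ((∑ i, u i x) / θ x - 1) *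
              ∑ j, (u j x / θ x) * g j (sh k ε θ u x))
          - (∫ x in Ω, θ x ^ 2 * ∑ c : Fin n, Qf d k g h (sh k ε θ u x)
              (fun j => Dsh θ Dθ u Du j x c) (((θ x)⁻¹ • Dθ x) c)) := by
    have hI1n : IntegrableOn (fun x => - (θ x ^ 3 * ((∑ i, u i x) / θ x - 1) *
      ∑ j, (u j x / θ x) * g j (sh k ε θ u x))) Ω := hI1.neg
    rw [integral_sub hI1n hI2, integral_neg]
  have e2 : ∫ x in Ω, (- min (1 / 2 * θ x₀ ^ 3 / (L + 1)) (θ x₀ ^ 2 * c) * dis k θ Dθ ε u Du x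
        + ((θ x₁ ^ 3 * (5 * L * (L + 1)) + θ x₁ ^ 3 * (2 * (L + 1) / θ x₀)) *
            (∑ j ∈ Finset.univ.filter (fun j => j < k), u j x)
        + (θ x₁ ^ 3 * (5 * L * (L + 1)) + θ x₁ ^ 3 * (2 * (L + 1) / θ x₀)) *
            (ε / (u k x / θ x + ε)))
        + (3 / 2 * (d k * (‖Dθ x‖ ^ 2 * (len k (sh k ε θ u x) - 1) ^ 2))
        - 6 * (m₁ / 200) ^ 2 * d k * ‖DV x‖ ^ 2
        - 3 / 4 * (m₁ / 200) ^ 2 * (θ x * (len k (sh k ε θ u x) - 1) ^ 2))) =
      - min (1 / 2 * θ x₀ ^ 3 / (L + 1)) (θ x₀ ^ 2 * c) * Dis Ω k θ Dθ ε u Du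
        + ((θ x₁ ^ 3 * (5 * L * (L + 1)) + θ x₁ ^ 3 * (2 * (L + 1) / θ x₀)) *
            (∫ x in Ω, ∑ j ∈ Finset.univ.filter (fun j => j < k), u j x)
        + (θ x₁ ^ 3 * (5 * L * (L + 1)) + θ x₁ ^ 3 * (2 * (L + 1) / θ x₀)) *
            (∫ x in Ω, ε / (u k x / θ x + ε)))
        + ∫ x in Ω, (3 / 2 * (d k * (‖Dθ x‖ ^ 2 * (len k (sh k ε θ u x) - 1) ^ 2))
        - 6 * (m₁ / 200) ^ 2 * d k * ‖DV x‖ ^ 2
        - 3 / 4 * (m₁ / 200) ^ 2 * (θ x * (len k (sh k ε θ u x) - 1) ^ 2)) := by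
    have hI45 : IntegrableOn (fun x =>
        (θ x₁ ^ 3 * (5 * L * (L + 1)) + θ x₁ ^ 3 * (2 * (L + 1) / θ x₀)) *
            (∑ j ∈ Finset.univ.filter (fun j => j < k), u j x)
        + (θ x₁ ^ 3 * (5 * L * (L + 1)) + θ x₁ ^ 3 * (2 * (L + 1) / θ x₀)) *
            (ε / (u k x / θ x + ε))) Ω := (hI4.const_mul _).add (hI5.const_mul _)
    have hI345 : IntegrableOn (fun x =>
        - min (1 / 2 * θ x₀ ^ 3 / (L + 1)) (θ x₀ ^ 2 * c) * dis k θ Dθ ε u Du x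
        + ((θ x₁ ^ 3 * (5 * L * (L + 1)) + θ x₁ ^ 3 * (2 * (L + 1) / θ x₀)) *
            (∑ j ∈ Finset.univ.filter (fun j => j < k), u j x)
        + (θ x₁ ^ 3 * (5 * L * (L + 1)) + θ x₁ ^ 3 * (2 * (L + 1) / θ x₀)) *
            (ε / (u k x / θ x + ε)))) Ω := (hI3.const_mul _).add hI45
    rw [integral_add hI345 hI9, integral_add (hI3.const_mul _) hI45,
      integral_add (hI4.const_mul _) (hI5.const_mul _), integral_const_mul, integral_const_mul,
      integral_const_mul]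
    rfl
  have e3 : ∫ x in Ω, (- (θ x ^ 3 * ((∑ i, u i x) / θ x - 1) *
      ∑ j, (u j x / θ x) * g j (sh k ε θ u x))
        - θ x ^ 2 * ∑ c : Fin n, Qf d k g h (sh k ε θ u x)
              (fun j => Dsh θ Dθ u Du j x c) (((θ x)⁻¹ • Dθ x) c)) ≤
      ∫ x in Ω, (- min (1 / 2 * θ x₀ ^ 3 / (L + 1)) (θ x₀ ^ 2 * c) * dis k θ Dθ ε u Du x
        + ((θ x₁ ^ 3 * (5 * L * (L + 1)) + θ x₁ ^ 3 * (2 * (L + 1) / θ x₀)) *
            (∑ j ∈ Finset.univ.filter (fun j => j < k), u j x)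
        + (θ x₁ ^ 3 * (5 * L * (L + 1)) + θ x₁ ^ 3 * (2 * (L + 1) / θ x₀)) *
            (ε / (u k x / θ x + ε)))
        + (3 / 2 * (d k * (‖Dθ x‖ ^ 2 * (len k (sh k ε θ u x) - 1) ^ 2))
        - 6 * (m₁ / 200) ^ 2 * d k * ‖DV x‖ ^ 2
        - 3 / 4 * (m₁ / 200) ^ 2 * (θ x * (len k (sh k ε θ u x) - 1) ^ 2))) := hfin
  rw [e1, e2] at e3
  linarith

end Pool.Agent.Lib.MP_d8ef8f_an.Rf
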