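import Pool.Agent.Lib.MP_d8ef8f_an.Rf.Stm

/-!
# The certificate for the vertex `(1, 1, 4)`
-/

set_option autoImplicit false

namespace Pool.Agent.Lib.MP_d8ef8f_an.Rf

private def a00 (Z : ℝ) : ℝ :=
    10578 + 138883 * Z + 267932 * Z ^ 2 + 11977 * Z ^ 3

private def a01 (Z : ℝ) : ℝ :=
    268200 + 2329200 * Z + 2620400 * Z ^ 2 - 2712950 * Z ^ 3 - 336400 * Z ^ 4

private def a02 (Z : ℝ) : ℝ :=
    33300 * Z + 160950 * Z ^ 2

private def a11 (Z : ℝ) : ℝ :=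
    7995600 + 46281000 * Z + 21783300 * Z ^ 2 - 68218150 * Z ^ 3 + 25566400 * Z ^ 4
    + 9755600 * Z ^ 5

private def a12 (Z : ℝ) : ℝ :=
    1000800 * Z + 2770950 * Z ^ 2 - 1165800 * Z ^ 3

private def a22 (Z : ℝ) : ℝ :=
    166800 * Z ^ 2 + 39150 * Z ^ 3

private def b11 (Z : ℝ) : ℝ :=
    252924336 + 6506760384 * Z + 26125350288 * Z ^ 2 + 22202492568 * Z ^ 3
    - 7754219317 * Z ^ 4 + 21748354192 * Z ^ 5 + 73557224 * Z ^ 6

private def b12 (Z : ℝ) : ℝ :=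
    33108048 * Z + 885305214 * Z ^ 2 + 1766447565 * Z ^ 3 + 803615868 * Z ^ 4

private def b22 (Z : ℝ) : ℝ :=
    13110408 * Z ^ 2 + 230990046 * Z ^ 3 + 9377991 * Z ^ 4

private def c22 (Z : ℝ) : ℝ :=
    11658360096 + 237569285976 * Z - 328097295621 * Z ^ 2 + 197094728144 * Z ^ 3
    + 662015016 * Z ^ 4

/-- elimination in a symmetric `3 × 3` matrix -/
private theorem elim3 {a00 a01 a02 a11 a12 a22 b11 b12 b22 c22 f1 f2 : ℝ}
    (h11 : a00 * a11 - a01 * a01 = f1 * b11) (h12 : a00 * a12 - a01 * a02 = f1 * b12)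
    (h22 : a00 * a22 - a02 * a02 = f1 * b22) (k22 : b11 * b22 - b12 * b12 = f2 * c22)
    (hf1 : 0 < f1) (hf2 : 0 ≤ f2) (ha : 0 < a00) (hb : 0 < b11) (hc : 0 ≤ c22) (T q b : ℝ) :
    0 ≤ a00 * T ^ 2 + 2 * a01 * T * q + 2 * a02 * T * b + a11 * q ^ 2 + 2 * a12 * q * b
      + a22 * b ^ 2 := by
  have g2 : 0 ≤ b11 * q ^ 2 + 2 * b12 * q * b + b22 * b ^ 2 := by
    have e : b11 * (b11 * q ^ 2 + 2 * b12 * q * b + b22 * b ^ 2)
        = (b11 * q + b12 * b) ^ 2 + f2 * c22 * b ^ 2 := by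
      linear_combination b ^ 2 * k22
    have h : 0 ≤ b11 * (b11 * q ^ 2 + 2 * b12 * q * b + b22 * b ^ 2) := by
      rw [e]
      positivity
    exact nonneg_of_mul_nonneg_right h hb
  have e : a00 * (a00 * T ^ 2 + 2 * a01 * T * q + 2 * a02 * T * b + a11 * q ^ 2 + 2 * a12 * q * b
      + a22 * b ^ 2) = (a00 * T + a01 * q + a02 * b) ^ 2
        + f1 * (b11 * q ^ 2 + 2 * b12 * q * b + b22 * b ^ 2) := by
    linear_combination q ^ 2 * h11 + 2 * q * b * h12 + b ^ 2 * h22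
  have h : 0 ≤ a00 * (a00 * T ^ 2 + 2 * a01 * T * q + 2 * a02 * T * b + a11 * q ^ 2
      + 2 * a12 * q * b + a22 * b ^ 2) := by
    rw [e]
    have := mul_nonneg hf1.le g2
    positivity
  exact nonneg_of_mul_nonneg_right h ha

private theorem h11 (Z : ℝ) : a00 Z * a11 Z - a01 Z * a01 Z =
    (50 * (1 + Z) ^ 2) * b11 Z := by
  unfold a00 a01 a11 b11
  ring

private theorem h12 (Z : ℝ) : a00 Z * a12 Z - a01 Z * a02 Z =
    (50 * (1 + Z) ^ 2) * b12 Z := by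
  unfold a00 a01 a02 a12 b12
  ring

private theorem h22 (Z : ℝ) : a00 Z * a22 Z - a02 Z * a02 Z =
    (50 * (1 + Z) ^ 2) * b22 Z := by
  unfold a00 a02 a22 b22
  ring

private theorem k22 (Z : ℝ) : b11 Z * b22 Z - b12 Z * b12 Z =
    (3 * a00 Z * (6 + 29 * Z) * Z ^ 2) * c22 Z := by
  unfold b11 b22 b12 a00 c22
  ring

private theorem pos_a00 (Z : ℝ) (hZ : 0 ≤ Z) : 0 < a00 Z := by
  unfold a00
  positivity

private theorem pos_b11 (Z : ℝ) (hZ : 0 ≤ Z) : 0 < b11 Z := by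
  have h : b11 Z = Z ^ 3 * (21748354192 * Z ^ 2 - 7754219317 * Z + 22202492568) + (252924336 + 6506760384 * Z + 26125350288 * Z ^ 2 + 73557224 * Z ^ 6) := by
    unfold b11
    ring
  have h1 : 0 ≤ 21748354192 * Z ^ 2 - 7754219317 * Z + (22202492568 : ℝ) := by
    nlinarith [sq_nonneg (Z - 1), sq_nonneg Z]
  rw [h]
  positivity

private theorem nonneg_c22 (Z : ℝ) (hZ : 0 ≤ Z) : 0 ≤ c22 Z := by
  have h : c22 Z = Z * (197094728144 * Z ^ 2 - 328097295621 * Z + 237569285976) + (11658360096 + 662015016 * Z ^ 4) := by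
    unfold c22
    ring
  have h1 : 0 ≤ 197094728144 * Z ^ 2 - 328097295621 * Z + (237569285976 : ℝ) := by
    nlinarith [sq_nonneg (Z - 1), sq_nonneg Z]
  rw [h]
  positivity


/-- the part of the form which depends on `D` -/
private theorem D_le (X z D : ℝ) (hX : 0 ≤ X) :
    4 * z ^ 2 ≤ 19 * (z - D) ^ 2 + 4 * (z + 19 * D / (4 + 23 * X)) ^ 2 := by
  have hA : 0 < 4 + 23 * X := by positivity
  obtain ⟨a, ha⟩ : ∃ a, a = 19 / (4 + 23 * X) := ⟨_, rfl⟩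
  have ha0 : 0 < a := by
    rw [ha]
    positivity
  have e : 19 * D / (4 + 23 * X) = a * D := by
    rw [ha]
    ring
  rw [e]
  -- `(19 + 4 a²) (..) = ((19 + 4 a²) D - (19 - 4 a) z)² + 76 (1 + a)² z²`
  have h : 0 ≤ (19 + 4 * a ^ 2) * (19 * (z - D) ^ 2 + 4 * (z + a * D) ^ 2 - 4 * z ^ 2) := by
    have e2 : (19 + 4 * a ^ 2) * (19 * (z - D) ^ 2 + 4 * (z + a * D) ^ 2 - 4 * z ^ 2)
        = ((19 + 4 * a ^ 2) * D - (19 - 4 * a) * z) ^ 2 + (152 * a + 60 * a ^ 2) * z ^ 2 := by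
      ring
    rw [e2]
    positivity
  have := nonneg_of_mul_nonneg_right h (by positivity)
  linarith

private theorem key (Z T q b : ℝ) (hZ : 0 ≤ Z) :
    (4 * (T - (6 + 29 * Z) * q) ^ 2 - 23 * b ^ 2
      + 8 * ((T - b) * (4 * (T + b) - 3 / (1 + Z) * (T - (6 + 29 * Z) * q + b)))
      + 6 * (((T + 23 * ((6 + 29 * Z) * q) / (6 + 29 * Z)) - b) *
          (4 * ((T + 23 * ((6 + 29 * Z) * q) / (6 + 29 * Z)) + b)
            - 18 / (6 + 29 * Z) * (T - (6 + 29 * Z) * q + b)))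
      + 111 * (b * ((T + b) - 1 / (1 + Z) * (T - (6 + 29 * Z) * q + b))) + 37 * b ^ 2
      - 111 / 2 * ((T + b) - 1 / (1 + Z) * (T - (6 + 29 * Z) * q + b)) ^ 2
      - 37 * T ^ 2 / 100) * (100 * ((6 + 29 * Z) * (1 + Z) ^ 2))
    = a00 Z * T ^ 2 + 2 * a01 Z * T * q + 2 * a02 Z * T * b + a11 Z * q ^ 2 + 2 * a12 Z * q * b
      + a22 Z * b ^ 2 := by
  have hB : (6 + 29 * Z) ≠ 0 := by positivity
  have hz : (1 + Z) ≠ 0 := by positivity
  unfold a00 a01 a02 a11 a12 a22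
  field_simp
  ring

theorem p_P2 : StmP2 := by
  intro X Z D E T b hX hZ
  have hB : 0 < 6 + 29 * Z := by positivity
  obtain ⟨q, rfl⟩ : ∃ q, E = (6 + 29 * Z) * q := ⟨E / (6 + 29 * Z), by field_simp⟩
  have h := elim3 (h11 Z) (h12 Z) (h22 Z) (k22 Z) (by positivity) (by
      have := pos_a00 Z hZ
      positivity) (pos_a00 Z hZ) (pos_b11 Z hZ) (nonneg_c22 Z hZ) T q b
  rw [← key Z T q b hZ] at h
  have h2 := nonneg_of_mul_nonneg_left h (by positivity :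
    (0:ℝ) < 100 * ((6 + 29 * Z) * (1 + Z) ^ 2))
  have h3 := D_le X (T - (6 + 29 * Z) * q) D hX
  unfold P2
  linarith

end Pool.Agent.Lib.MP_d8ef8f_an.Rf
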