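import Pool.Agent.Lib.MP_d8ef8f_an.Gd.Defs

set_option autoImplicit false

namespace Pool.Agent.Lib.MP_d8ef8f_an.Rf

open Set Filter Topology MeasureTheory
open Pool.Agent.Lib.MP_d8ef8f_an.Gd

/-- bounded open intervals are domains -/
theorem domain_interval {a b : ℝ} (hab : a < b) : Domain ({x | a < x 0 ∧ x 0 < b} : Set (Sp 1)) := by
  have hc : Continuous (fun x : Sp 1 => x 0) := by fun_prop
  have hL : 0 < b - a := sub_pos.2 hab
  refine ⟨?_, ?_, ?_, ?_, ?_⟩
  · exact (isOpen_lt continuous_const hc).inter (isOpen_lt hc continuous_const)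
  · refine ⟨WithLp.toLp 2 (fun _ => (a + b) / 2), ?_⟩
    constructor <;> simp only <;> linarith
  · have hconv : Convex ℝ ({x | a < x 0 ∧ x 0 < b} : Set (Sp 1)) := by
      have h1 : Convex ℝ ((fun x : Sp 1 => x 0) ⁻¹' Ioo a b) := by
        refine (convex_Ioo a b).is_linear_preimage ?_
        exact ⟨fun x y => by simp, fun c x => by simp⟩
      exact h1
    exact hconv.isPreconnected
  · rw [Metric.isBounded_iff_subset_closedBall (0 : Sp 1)]
    refine ⟨|a| + |b|, ?_⟩
    rintro x ⟨h1, h2⟩
    rw [mem_closedBall_zero_iff, EuclideanSpace.norm_eq]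
    simp only [Finset.univ_unique, Fin.default_eq_zero, Fin.isValue, Real.norm_eq_abs, sq_abs,
      Finset.sum_singleton]
    rw [Real.sqrt_sq_eq_abs, abs_le]
    constructor
    · linarith [neg_abs_le a, abs_nonneg b]
    · linarith [le_abs_self b, abs_nonneg a]
  · intro x _
    refine ⟨univ, isOpen_univ, mem_univ _, fun y => WithLp.toLp 2 (fun _ => a + (b - a) * y 0),
      fun _ => (b - a) • ContinuousLinearMap.id ℝ (Sp 1), (b - a) + 1 / (b - a), by positivity,
      ?_, ?_, ?_⟩
    · intro y _ z _ h
      have h1 : a + (b - a) * y 0 = a + (b - a) * z 0 := by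
        have := congrArg (fun w : Sp 1 => w 0) h
        simpa using this
      have h2 : y 0 = z 0 := by
        have : (b - a) * y 0 = (b - a) * z 0 := by linarith
        exact mul_left_cancel₀ hL.ne' this
      ext i
      rw [Subsingleton.elim i 0]
      exact h2
    · ext z
      simp only [mem_image, univ_inter, mem_ofPred_eq, cube]
      constructor
      · rintro ⟨y, hy, rfl⟩
        have h1 := hy 0
        simp only
        constructor
        · nlinarith [h1.1, h1.2]
        · nlinarith [h1.1, h1.2]
      · rintro ⟨h1, h2⟩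
        refine ⟨WithLp.toLp 2 (fun _ => (z 0 - a) / (b - a)), ?_, ?_⟩
        · intro i
          simp only
          constructor
          · exact div_pos (by linarith) hL
          · rw [div_lt_one hL]
            linarith
        · ext i
          rw [Subsingleton.elim i 0]
          simp only
          field_simp
          ring
    · intro y _
      refine ⟨?_, ?_, ?_⟩
      · have h1 : (fun y : Sp 1 => (WithLp.toLp 2 (fun _ => a + (b - a) * y 0) : Sp 1)) =
            fun y => (WithLp.toLp 2 (fun _ => a) : Sp 1) + (b - a) • y := by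
          funext w
          ext i
          rw [Subsingleton.elim i 0]
          simp
        rw [h1]
        exact ((hasFDerivAt_id y).const_smul (b - a)).const_add _
      · rw [norm_smul, Real.norm_eq_abs, abs_of_pos hL]
        have h2 : ‖ContinuousLinearMap.id ℝ (Sp 1)‖ ≤ 1 := ContinuousLinearMap.norm_id_le
        have h3 : 0 < 1 / (b - a) := by positivity
        nlinarith
      · have h2 : ((b - a) • ContinuousLinearMap.id ℝ (Sp 1)).det = b - a := by
          rw [ContinuousLinearMap.det]
          have h3 : (((b - a) • ContinuousLinearMap.id ℝ (Sp 1) : Sp 1 →L[ℝ] Sp 1) :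
              Sp 1 →ₗ[ℝ] Sp 1) = (b - a) • LinearMap.id := rfl
          rw [h3, LinearMap.det_smul]
          simp
        rw [h2, abs_of_pos hL]
        have h3 : 1 / (b - a) * (b - a) = 1 := by field_simp
        nlinarith

end Pool.Agent.Lib.MP_d8ef8f_an.Rf
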