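import Pool.Agent.Lib.MP_d8ef8f_an.Rf.Stm

/-!
# Piece F1: the density built from linear forms is twice differentiable (helper61)
-/

set_option autoImplicit false

namespace Pool.Agent.Lib.MP_d8ef8f_an.Rf

open Set Filter Topology MeasureTheory
open Pool.Agent.Lib.MP_d8ef8f_an.Gd Pool.Agent.Lib.MP_d8ef8f_an.Ff

private theorem ell_pos {N r : ℕ} {k : Fin N} {w : Fin r → ℝ} {c : Fin r → Fin N → ℝ}
    (F : Fam k w c) (i : Fin r) {s : Fin N → ℝ} (hk : 0 < s k) (hs : ∀ j, 0 ≤ s j) :
    0 < ell c i s := by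
  have h1 : c i k * s k ≤ ell c i s :=
    Finset.single_le_sum (f := fun j => c i j * s j)
      (fun j _ => mul_nonneg (F.c0 i j) (hs j)) (Finset.mem_univ k)
  rw [F.ck i, one_mul] at h1
  exact lt_of_lt_of_le hk h1

private theorem ell_deriv {N r : ℕ} (c : Fin r → Fin N → ℝ) (i : Fin r) (s : Fin N → ℝ) :
    HasFDerivAt (fun s => ell c i s)
      (∑ j, c i j • (ContinuousLinearMap.proj j : (Fin N → ℝ) →L[ℝ] ℝ)) s := by
  have h : (fun s => ell c i s) = fun s =>
      (∑ j, c i j • (ContinuousLinearMap.proj j : (Fin N → ℝ) →L[ℝ] ℝ)) s := by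
    funext s
    simp [ell]
  rw [h]
  exact ContinuousLinearMap.hasFDerivAt _

private theorem gl_deriv {p : ℝ} (hp : 0 < p) : HasDerivAt Gl (1 - 1 / p) p := by
  have h : HasDerivAt (fun p : ℝ => p - 1 - Real.log p) (1 - p⁻¹) p :=
    ((hasDerivAt_id p).sub_const 1).sub (Real.hasDerivAt_log hp.ne')
  rw [one_div]
  exact h

private theorem inv_deriv {p : ℝ} (hp : 0 < p) :
    HasDerivAt (fun p : ℝ => 1 - 1 / p) (1 / p ^ 2) p := by
  have h : HasDerivAt (fun p : ℝ => 1 - p⁻¹) (-(-(p ^ 2)⁻¹)) p :=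
    (hasDerivAt_inv hp.ne').const_sub 1
  have e : (fun p : ℝ => 1 - 1 / p) = fun p : ℝ => 1 - p⁻¹ := by funext p; rw [one_div]
  rw [e, one_div]
  simpa using h

/-- **F1** the density is twice differentiable. -/
theorem p_F1 : StmF1 := by
  intro N r k w c F
  refine ⟨?_, ?_, ?_, ?_⟩
  · intro s hk hs
    have h : HasFDerivAt (fun s => ∑ i, w i * Gl (ell c i s))
        (∑ i, w i • ((1 - 1 / ell c i s) •
          ∑ j, c i j • (ContinuousLinearMap.proj j : (Fin N → ℝ) →L[ℝ] ℝ))) s := by
      refine HasFDerivAt.fun_sum fun i _ => ?_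
      exact ((gl_deriv (ell_pos F i hk hs)).comp_hasFDerivAt s (ell_deriv c i s)).const_mul (w i)
    have e : (∑ i, w i • ((1 - 1 / ell c i s) •
          ∑ j, c i j • (ContinuousLinearMap.proj j : (Fin N → ℝ) →L[ℝ] ℝ)))
        = ∑ j, fg w c j s • (ContinuousLinearMap.proj j : (Fin N → ℝ) →L[ℝ] ℝ) := by
      simp only [fg, Finset.sum_smul, Finset.smul_sum, smul_smul]
      rw [Finset.sum_comm]
      refine Finset.sum_congr rfl fun j _ => Finset.sum_congr rfl fun i _ => ?_
      congr 1
      ring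
    rw [e] at h
    exact h
  · intro l s hk hs
    have h : HasFDerivAt (fun s => ∑ i, w i * (c i l * (1 - 1 / ell c i s)))
        (∑ i, w i • (c i l • ((1 / ell c i s ^ 2) •
          ∑ j, c i j • (ContinuousLinearMap.proj j : (Fin N → ℝ) →L[ℝ] ℝ)))) s := by
      refine HasFDerivAt.fun_sum fun i _ => ?_
      exact (((inv_deriv (ell_pos F i hk hs)).comp_hasFDerivAt s (ell_deriv c i s)).const_mul
        (c i l)).const_mul (w i)
    have e : (∑ i, w i • (c i l • ((1 / ell c i s ^ 2) •
          ∑ j, c i j • (ContinuousLinearMap.proj j : (Fin N → ℝ) →L[ℝ] ℝ))))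
        = ∑ j, fh w c l j s • (ContinuousLinearMap.proj j : (Fin N → ℝ) →L[ℝ] ℝ) := by
      simp only [fh, Finset.sum_smul, Finset.smul_sum, smul_smul]
      rw [Finset.sum_comm]
      refine Finset.sum_congr rfl fun j _ => Finset.sum_congr rfl fun i _ => ?_
      congr 1
      ring
    rw [e] at h
    exact h
  · intro i j
    unfold fh
    refine continuousOn_finsetSum _ fun a _ => ?_
    refine continuousOn_const.mul ?_
    refine ContinuousOn.div continuousOn_const ?_ ?_
    · have h : Continuous fun s : Fin N → ℝ => ell c a s := by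
        unfold ell
        exact continuous_finsetSum _ fun j _ => continuous_const.mul (continuous_apply j)
      exact (h.pow 2).continuousOn
    · intro s hs
      exact (pow_pos (ell_pos F a hs.1 hs.2) 2).ne'
  · intro j hj s
    unfold fg
    refine Finset.sum_eq_zero fun i _ => ?_
    rw [F.lo i j hj]
    ring

end Pool.Agent.Lib.MP_d8ef8f_an.Rf
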