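import Pool.Agent.Lib.MP_d8ef8f_an.Rf.Stm

/-!
# F2: bounds of the density
-/

set_option autoImplicit false

namespace Pool.Agent.Lib.MP_d8ef8f_an.Rf

open Set Filter Topology MeasureTheory
open Pool.Agent.Lib.MP_d8ef8f_an.Gd Pool.Agent.Lib.MP_d8ef8f_an.Ff

private theorem f2_Gl_nonneg {p : ℝ} (hp : 0 < p) : 0 ≤ Gl p := by
  unfold Gl
  have := Real.log_le_sub_one_of_pos hp
  linarith

private theorem f2_Gl_lower {p B : ℝ} (hp : 0 < p) (hB : 1 ≤ B) (hpB : p ≤ B) :
    (p - 1) ^ 2 / (4 * B) ≤ Gl p := by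
  obtain ⟨q, hq, rfl⟩ : ∃ q : ℝ, 0 < q ∧ q ^ 2 = p :=
    ⟨Real.sqrt p, Real.sqrt_pos.mpr hp, Real.sq_sqrt hp.le⟩
  have h1 : Real.log (q ^ 2) = 2 * Real.log q := by
    rw [Real.log_pow]; norm_num
  have h2 : Real.log q ≤ q - 1 := Real.log_le_sub_one_of_pos hq
  have h3 : (q - 1) ^ 2 ≤ Gl (q ^ 2) := by
    unfold Gl
    rw [h1]
    nlinarith
  refine le_trans ?_ h3
  rw [div_le_iff₀ (by linarith)]
  have h4 : (q + 1) ^ 2 ≤ 4 * B := by nlinarith [sq_nonneg (q - 1)]
  have h5 : (q ^ 2 - 1) ^ 2 = (q - 1) ^ 2 * (q + 1) ^ 2 := by ring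
  rw [h5]
  exact mul_le_mul_of_nonneg_left h4 (sq_nonneg _)

private theorem f2_ell_split {N r : ℕ} (k : Fin N) (c : Fin r → Fin N → ℝ)
    (ck : ∀ i, c i k = 1) (lo : ∀ i j, j < k → c i j = 0) (i : Fin r) (s : Fin N → ℝ) :
    ell c i s = s k + ∑ j ∈ Finset.univ.filter (fun j => k < j), c i j * s j := by
  unfold ell
  rw [← Finset.add_sum_erase Finset.univ (fun j => c i j * s j) (Finset.mem_univ k)]
  congr 1
  · simp only [ck, one_mul]
  · symm
    apply Finset.sum_subset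
    · intro j hj
      rw [Finset.mem_filter] at hj
      rw [Finset.mem_erase]
      exact ⟨hj.2.ne', Finset.mem_univ j⟩
    · intro j hj hj'
      rw [Finset.mem_erase] at hj
      rw [Finset.mem_filter] at hj'
      have h : ¬ k < j := fun h => hj' ⟨Finset.mem_univ j, h⟩
      have h2 : j < k := lt_of_le_of_ne (not_lt.mp h) hj.1
      rw [lo i j h2, zero_mul]

private theorem f2_Sab_nonneg {N : ℕ} (k : Fin N) (s : Fin N → ℝ) (hs : ∀ j, 0 ≤ s j) :
    0 ≤ Sab k s := Finset.sum_nonneg fun j _ => hs j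

private theorem f2_ell_ge {N r : ℕ} {k : Fin N} {w : Fin r → ℝ} {c : Fin r → Fin N → ℝ}
    (hF : Fam k w c) (i : Fin r) {s : Fin N → ℝ} (hs : ∀ j, 0 ≤ s j) : s k ≤ ell c i s := by
  rw [f2_ell_split k c hF.ck hF.lo i s]
  have : 0 ≤ ∑ j ∈ Finset.univ.filter (fun j => k < j), c i j * s j :=
    Finset.sum_nonneg fun j _ => mul_nonneg (hF.c0 i j) (hs j)
  linarith

private theorem f2_ell_le {N r : ℕ} {k : Fin N} {w : Fin r → ℝ} {c : Fin r → Fin N → ℝ}
    (hF : Fam k w c) {K : ℝ} (hK : ∀ i j, c i j ≤ K) (i : Fin r) {s : Fin N → ℝ}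
    (hs : ∀ j, 0 ≤ s j) : ell c i s ≤ s k + K * Sab k s := by
  rw [f2_ell_split k c hF.ck hF.lo i s]
  have : ∑ j ∈ Finset.univ.filter (fun j => k < j), c i j * s j ≤ K * Sab k s := by
    unfold Sab
    rw [Finset.mul_sum]
    exact Finset.sum_le_sum fun j _ => mul_le_mul_of_nonneg_right (hK i j) (hs j)
  linarith

/-- the sum of the linear forms is `len` -/
private theorem f2_sum_ell {N r : ℕ} {k : Fin N} {w : Fin r → ℝ} {c : Fin r → Fin N → ℝ}
    (hF : Fam k w c) (s : Fin N → ℝ) : ∑ i, w i * ell c i s = len k s := by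
  have e1 : ∀ i, w i * ell c i s
      = w i * s k + ∑ j ∈ Finset.univ.filter (fun j => k < j), w i * c i j * s j := by
    intro i
    rw [f2_ell_split k c hF.ck hF.lo i s, mul_add, Finset.mul_sum]
    congr 1
    exact Finset.sum_congr rfl fun j _ => by ring
  rw [Finset.sum_congr rfl fun i _ => e1 i, Finset.sum_add_distrib, ← Finset.sum_mul, hF.ws,
    one_mul, Finset.sum_comm]
  unfold len Sab
  congr 1
  refine Finset.sum_congr rfl fun j hj => ?_
  rw [Finset.mem_filter] at hj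
  rw [← Finset.sum_mul, hF.cs j hj.2, one_mul]

private theorem f2_R {N r : ℕ} {k : Fin N} {w : Fin r → ℝ} {c : Fin r → Fin N → ℝ}
    (hF : Fam k w c) : DensR k (fg w c) := by
  refine ⟨?_, ?_⟩
  · intro s hk hs
    unfold rad fg
    have e1 : ∑ j, s j * ∑ i, w i * (c i j * (1 - 1 / ell c i s))
        = ∑ i, w i * ((1 - 1 / ell c i s) * ell c i s) := by
      have e2 : ∀ j, s j * ∑ i, w i * (c i j * (1 - 1 / ell c i s))
          = ∑ i, w i * ((1 - 1 / ell c i s) * (c i j * s j)) := by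
        intro j
        rw [Finset.mul_sum]
        exact Finset.sum_congr rfl fun i _ => by ring
      rw [Finset.sum_congr rfl fun j _ => e2 j, Finset.sum_comm]
      refine Finset.sum_congr rfl fun i _ => ?_
      rw [← Finset.mul_sum, ← Finset.mul_sum]
      rfl
    rw [e1]
    have e3 : ∀ i, w i * ((1 - 1 / ell c i s) * ell c i s) = w i * ell c i s - w i := by
      intro i
      have h : 0 < ell c i s := lt_of_lt_of_le hk (f2_ell_ge hF i hs)
      field_simp
    rw [Finset.sum_congr rfl fun i _ => e3 i, Finset.sum_sub_distrib, hF.ws, f2_sum_ell hF]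
  · intro s hk hs
    unfold fg
    have e1 : ∀ i, |w i * (c i k * (1 - 1 / ell c i s))| ≤ w i * (1 + 1 / s k) := by
      intro i
      have h0 : s k ≤ ell c i s := f2_ell_ge hF i hs
      have h : 0 < ell c i s := lt_of_lt_of_le hk h0
      have h1 : 1 / ell c i s ≤ 1 / s k := one_div_le_one_div_of_le hk h0
      have h2 : 0 < 1 / ell c i s := by positivity
      rw [hF.ck i, one_mul, abs_mul, abs_of_nonneg (hF.w0 i)]
      refine mul_le_mul_of_nonneg_left ?_ (hF.w0 i)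
      rw [abs_le]
      constructor <;> linarith
    refine le_trans (Finset.abs_sum_le_sum_abs _ _) ?_
    refine le_trans (Finset.sum_le_sum fun i _ => e1 i) ?_
    rw [← Finset.sum_mul, hF.ws, one_mul]

private theorem f2_ff_ge {N r : ℕ} {k : Fin N} {w : Fin r → ℝ} {c : Fin r → Fin N → ℝ}
    (hF : Fam k w c) (i : Fin r) {s : Fin N → ℝ} (hk : 0 < s k) (hs : ∀ j, 0 ≤ s j) :
    w i * Gl (ell c i s) ≤ ff w c s := by
  unfold ff
  refine Finset.single_le_sum (f := fun i => w i * Gl (ell c i s)) (fun j _ => ?_)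
    (Finset.mem_univ i)
  exact mul_nonneg (hF.w0 j) (f2_Gl_nonneg (lt_of_lt_of_le hk (f2_ell_ge hF j hs)))

/-- numbers: the lower bound -/
private theorem f2_num {w1 w2 B x l S F G1 G2 : ℝ} (hw1 : 0 < w1) (hw2 : 0 < w2) (hB : 1 ≤ B)
    (hx : |x - 1| ≤ B) (hl : l = x + S) (h1 : (x - 1) ^ 2 / (4 * B) ≤ G1)
    (h2 : (l - 1) ^ 2 / (4 * B) ≤ G2) (hF1 : w1 * G1 ≤ F) (hF2 : w2 * G2 ≤ F) :
    min w1 w2 / (8 * B * (B + 2)) * (|x - 1| ^ 3 + S ^ 2) ≤ F := by
  have hB0 : 0 < B := by linarith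
  have hm : 0 < min w1 w2 := lt_min hw1 hw2
  have hm1 : min w1 w2 ≤ w1 := min_le_left _ _
  have hm2 : min w1 w2 ≤ w2 := min_le_right _ _
  set m := min w1 w2
  have a1 : |x - 1| ^ 3 ≤ B * (x - 1) ^ 2 := by
    have : |x - 1| ^ 3 = |x - 1| * (x - 1) ^ 2 := by
      rw [← sq_abs (x - 1)]; ring
    rw [this]
    exact mul_le_mul_of_nonneg_right hx (sq_nonneg _)
  have a2 : S ^ 2 ≤ 2 * (x - 1) ^ 2 + 2 * (l - 1) ^ 2 := by
    have : S = (l - 1) - (x - 1) := by rw [hl]; ring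
    rw [this]
    nlinarith [sq_nonneg ((l - 1) + (x - 1))]
  have a3 : |x - 1| ^ 3 + S ^ 2 ≤ (B + 2) * ((x - 1) ^ 2 + (l - 1) ^ 2) := by
    nlinarith [sq_nonneg (l - 1)]
  have hd1 : 0 ≤ (x - 1) ^ 2 / (4 * B) := by positivity
  have hd2 : 0 ≤ (l - 1) ^ 2 / (4 * B) := by positivity
  have b1 : m * ((x - 1) ^ 2 / (4 * B)) ≤ F :=
    le_trans (mul_le_mul hm1 h1 hd1 hw1.le) hF1
  have b2 : m * ((l - 1) ^ 2 / (4 * B)) ≤ F :=
    le_trans (mul_le_mul hm2 h2 hd2 hw2.le) hF2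
  calc m / (8 * B * (B + 2)) * (|x - 1| ^ 3 + S ^ 2)
      ≤ m / (8 * B * (B + 2)) * ((B + 2) * ((x - 1) ^ 2 + (l - 1) ^ 2)) :=
        mul_le_mul_of_nonneg_left a3 (by positivity)
    _ = (m * ((x - 1) ^ 2 / (4 * B)) + m * ((l - 1) ^ 2 / (4 * B))) / 2 := by
        field_simp
        ring
    _ ≤ F := by linarith

/-- **F2** -/
theorem p_F2 : StmF2 := by
  intro N r k w c hF
  refine ⟨f2_R hF, ?_⟩
  intro L
  obtain ⟨i1, hw1, hc1⟩ := hF.f1
  obtain ⟨i2, hw2, hc2⟩ := hF.f2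
  set B : ℝ := |L| + 1 with hBdef
  have hB : 1 ≤ B := by have := abs_nonneg L; linarith
  have hLB : L ≤ B := by have := le_abs_self L; linarith
  set K : ℝ := ∑ i, ∑ j, c i j with hKdef
  have hK0 : 0 ≤ K := Finset.sum_nonneg fun i _ => Finset.sum_nonneg fun j _ => hF.c0 i j
  have hK : ∀ i j, c i j ≤ K := by
    intro i j
    have h1 : c i j ≤ ∑ j, c i j :=
      Finset.single_le_sum (f := fun j => c i j) (fun j _ => hF.c0 i j) (Finset.mem_univ j)
    have h2 : ∑ j, c i j ≤ K :=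
      Finset.single_le_sum (f := fun i => ∑ j, c i j)
        (fun i _ => Finset.sum_nonneg fun j _ => hF.c0 i j) (Finset.mem_univ i)
    exact le_trans h1 h2
  have e1 : ∀ s : Fin N → ℝ, ell c i1 s = s k := by
    intro s
    rw [f2_ell_split k c hF.ck hF.lo i1 s]
    have : ∑ j ∈ Finset.univ.filter (fun j => k < j), c i1 j * s j = 0 := by
      refine Finset.sum_eq_zero fun j hj => ?_
      rw [Finset.mem_filter] at hj
      rw [hc1 j hj.2.ne', zero_mul]
    rw [this, add_zero]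
  have e2 : ∀ s : Fin N → ℝ, ell c i2 s = len k s := by
    intro s
    rw [f2_ell_split k c hF.ck hF.lo i2 s]
    unfold len Sab
    congr 1
    refine Finset.sum_congr rfl fun j hj => ?_
    rw [Finset.mem_filter] at hj
    rw [hc2 j hj.2, one_mul]
  refine ⟨min (w i1) (w i2) / (8 * B * (B + 2)), 1 + 1 / w i1 + K, ?_, by positivity, ?_⟩
  · have : 0 < min (w i1) (w i2) := lt_min hw1 hw2
    positivity
  intro e he
  have hC : 0 < 1 + 1 / w i1 + K := by positivity
  refine ⟨?_, ?_, ?_⟩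
  · intro s hs
    obtain ⟨hk, h0, hL⟩ := hs
    have hS : 0 ≤ Sab k s := f2_Sab_nonneg k s h0
    have hlen : len k s = s k + Sab k s := rfl
    have hl0 : 0 < len k s := by linarith
    have hsL : s k ≤ B := by linarith
    have h1 : (s k - 1) ^ 2 / (4 * B) ≤ Gl (s k) := f2_Gl_lower hk hB hsL
    have h2 : (len k s - 1) ^ 2 / (4 * B) ≤ Gl (len k s) := f2_Gl_lower hl0 hB (by linarith)
    have g1 : w i1 * Gl (s k) ≤ ff w c s := by
      have := f2_ff_ge hF i1 hk h0
      rwa [e1] at this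
    have g2 : w i2 * Gl (len k s) ≤ ff w c s := by
      have := f2_ff_ge hF i2 hk h0
      rwa [e2] at this
    have hx : |s k - 1| ≤ B := by
      rw [abs_le]
      constructor <;> linarith
    have := f2_num hw1 hw2 hB hx hlen h1 h2 g1 g2
    have hCe : 0 ≤ (1 + 1 / w i1 + K) * e := by positivity
    linarith
  · intro s hs
    obtain ⟨hk, h0, hL⟩ := hs
    have g1 : w i1 * Gl (s k) ≤ ff w c s := by
      have := f2_ff_ge hF i1 hk h0
      rwa [e1] at this
    have hG : Gl (s k) ≤ ff w c s / w i1 := by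
      rw [le_div_iff₀ hw1]; linarith
    have hf0 : 0 ≤ ff w c s :=
      le_trans (mul_nonneg hw1.le (f2_Gl_nonneg hk)) g1
    have hlog : - Real.log (s k) = Gl (s k) + 1 - s k := by unfold Gl; ring
    have h3 : ff w c s / w i1 = 1 / w i1 * ff w c s := by ring
    have h4 : 0 ≤ 1 / w i1 := by positivity
    have h5 : 0 ≤ K * ff w c s := by positivity
    rw [hlog]
    nlinarith
  · intro s hs
    obtain ⟨hk, h0, hL⟩ := hs
    have hS : 0 ≤ Sab k s := f2_Sab_nonneg k s h0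
    have hterm : ∀ i, w i * Gl (ell c i s) ≤ w i * (Gl (s k) + K * Sab k s) := by
      intro i
      refine mul_le_mul_of_nonneg_left ?_ (hF.w0 i)
      have ha : s k ≤ ell c i s := f2_ell_ge hF i h0
      have hb : ell c i s ≤ s k + K * Sab k s := f2_ell_le hF hK i h0
      have hc : Real.log (s k) ≤ Real.log (ell c i s) := Real.log_le_log hk ha
      unfold Gl
      linarith
    have hsum : ff w c s ≤ Gl (s k) + K * Sab k s := by
      unfold ff
      refine le_trans (Finset.sum_le_sum fun i _ => hterm i) ?_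
      rw [← Finset.sum_mul, hF.ws, one_mul]
    have hG0 : 0 ≤ Gl (s k) := f2_Gl_nonneg hk
    have hA0 : 0 ≤ |s k - 1| := abs_nonneg _
    have h4 : 0 ≤ 1 / w i1 := by positivity
    have h5 : 0 ≤ (1 / w i1 + K) * Gl (s k) := by positivity
    have h6 : 0 ≤ (1 + 1 / w i1 + K) * |s k - 1| := by positivity
    have h7 : 0 ≤ (1 + 1 / w i1) * Sab k s := by positivity
    have h8 : 0 ≤ (1 + 1 / w i1 + K) * e := by positivity
    nlinarith

end Pool.Agent.Lib.MP_d8ef8f_an.Rf
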