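import Pool.Agent.Lib.MP_d8ef8f_an.Rf.Stm

/-!
# F3: the quadratic form in terms of the linear forms
-/

set_option autoImplicit false

namespace Pool.Agent.Lib.MP_d8ef8f_an.Rf

open Set Filter Topology MeasureTheory
open Pool.Agent.Lib.MP_d8ef8f_an.Gd Pool.Agent.Lib.MP_d8ef8f_an.Ff

private theorem f3_two {N r : ℕ} (w L : Fin r → ℝ) (c : Fin r → Fin N → ℝ) (p z : Fin N → ℝ) :
    ∑ j, ∑ l, p j * (∑ i, w i * (c i j * c i l / L i ^ 2)) * z l
      = ∑ i, w i * ((∑ j, c i j * p j) * (∑ l, c i l * z l) / L i ^ 2) := by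
  have e1 : ∀ i, w i * ((∑ j, c i j * p j) * (∑ l, c i l * z l) / L i ^ 2)
      = ∑ j, ∑ l, p j * (w i * (c i j * c i l / L i ^ 2)) * z l := by
    intro i
    rw [Finset.sum_mul_sum, Finset.sum_div, Finset.mul_sum]
    refine Finset.sum_congr rfl fun j _ => ?_
    rw [Finset.sum_div, Finset.mul_sum]
    refine Finset.sum_congr rfl fun l _ => ?_
    ring
  rw [Finset.sum_congr rfl fun i _ => e1 i]
  have e2 : (∑ i, ∑ j, ∑ l, p j * (w i * (c i j * c i l / L i ^ 2)) * z l)
      = ∑ j, ∑ i, ∑ l, p j * (w i * (c i j * c i l / L i ^ 2)) * z l := Finset.sum_comm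
  rw [e2]
  refine Finset.sum_congr rfl fun j _ => ?_
  have e3 : (∑ i, ∑ l, p j * (w i * (c i j * c i l / L i ^ 2)) * z l)
      = ∑ l, ∑ i, p j * (w i * (c i j * c i l / L i ^ 2)) * z l := Finset.sum_comm
  rw [e3]
  refine Finset.sum_congr rfl fun l _ => ?_
  rw [Finset.mul_sum, Finset.sum_mul]

private theorem f3_one {N r : ℕ} (w v : Fin r → ℝ) (c : Fin r → Fin N → ℝ) (p : Fin N → ℝ) :
    ∑ j, p j * (∑ i, w i * (c i j * v i)) = ∑ i, w i * ((∑ j, c i j * p j) * v i) := by
  have e1 : ∀ i, w i * ((∑ j, c i j * p j) * v i) = ∑ j, p j * (w i * (c i j * v i)) := by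
    intro i
    rw [Finset.sum_mul, Finset.mul_sum]
    refine Finset.sum_congr rfl fun j _ => ?_
    ring
  rw [Finset.sum_congr rfl fun i _ => e1 i, Finset.sum_comm]
  refine Finset.sum_congr rfl fun j _ => ?_
  rw [Finset.mul_sum]

private theorem f3_Y {N r : ℕ} (k : Fin N) (w : Fin r → ℝ) (c : Fin r → Fin N → ℝ)
    (hF : Fam k w c) (d s z : Fin N → ℝ) (b : ℝ) :
    Yl d k s z b = ∑ i, w i * (∑ j, c i j * ((d j - d k) * (z j + s j * b))) := by
  have e1 : ∀ i, w i * (∑ j, c i j * ((d j - d k) * (z j + s j * b)))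
      = ∑ j, (w i * c i j) * ((d j - d k) * (z j + s j * b)) := by
    intro i
    rw [Finset.mul_sum]
    refine Finset.sum_congr rfl fun j _ => ?_
    ring
  rw [Finset.sum_congr rfl fun i _ => e1 i, Finset.sum_comm, Yl, Finset.sum_filter]
  refine Finset.sum_congr rfl fun j _ => ?_
  rw [← Finset.sum_mul]
  rcases lt_trichotomy j k with h | h | h
  · rw [if_neg (not_lt.mpr h.le)]
    rw [Finset.sum_eq_zero fun i _ => by rw [hF.lo i j h, mul_zero], zero_mul]
  · rw [if_neg (not_lt.mpr h.le), h]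
    simp
  · rw [if_pos h, hF.cs j h, one_mul]

theorem p_F3 : StmF3 := by
  intro N r k w c hF d s z b hs hs0
  have hl : ∀ i, ell c i s ≠ 0 := by
    intro i
    have h1 : s k ≤ ell c i s := by
      have := Finset.single_le_sum (f := fun j => c i j * s j)
        (fun j _ => mul_nonneg (hF.c0 i j) (hs0 j)) (Finset.mem_univ k)
      simp only [hF.ck i, one_mul] at this
      exact this
    exact (lt_of_lt_of_le hs h1).ne'
  -- the four sums of the quadratic form
  have q1 : (∑ i, ∑ j, d i * fh w c i j s * z i * z j)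
      = ∑ i, w i * ((∑ j, c i j * (d j * z j)) * ell c i z / ell c i s ^ 2) := by
    have := f3_two w (fun i => ell c i s) c (fun j => d j * z j) z
    rw [show (∑ i, w i * ((∑ j, c i j * (d j * z j)) * ell c i z / ell c i s ^ 2))
      = ∑ i, w i * ((∑ j, c i j * (d j * z j)) * (∑ l, c i l * z l) / ell c i s ^ 2) from rfl,
      ← this]
    refine Finset.sum_congr rfl fun j _ => Finset.sum_congr rfl fun l _ => ?_
    simp only [fh]
    ring
  have q2 : (∑ i, (d i - d k) * (z i * fg w c i s + s i * ∑ j, fh w c i j s * z j))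
      = (∑ i, w i * ((∑ j, c i j * ((d j - d k) * z j)) * (1 - 1 / ell c i s)))
        + ∑ i, w i * ((∑ j, c i j * ((d j - d k) * s j)) * ell c i z / ell c i s ^ 2) := by
    have h1 := f3_one w (fun i => 1 - 1 / ell c i s) c (fun j => (d j - d k) * z j)
    have h2 := f3_two w (fun i => ell c i s) c (fun j => (d j - d k) * s j) z
    rw [show (∑ i, w i * ((∑ j, c i j * ((d j - d k) * s j)) * ell c i z / ell c i s ^ 2))
      = ∑ i, w i * ((∑ j, c i j * ((d j - d k) * s j)) * (∑ l, c i l * z l) / ell c i s ^ 2)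
      from rfl, ← h1, ← h2, ← Finset.sum_add_distrib]
    refine Finset.sum_congr rfl fun j _ => ?_
    have e : (∑ l, ((d j - d k) * s j * (∑ i, w i * (c i j * c i l / ell c i s ^ 2))) * z l)
        = (d j - d k) * (s j * ∑ l, (∑ i, w i * (c i j * c i l / ell c i s ^ 2)) * z l) := by
      rw [Finset.mul_sum, Finset.mul_sum]
      exact Finset.sum_congr rfl fun l _ => by ring
    rw [e]
    simp only [fh, fg]
    ring
  have q3 : (∑ i, (d i - d k) * (s i * fg w c i s))
      = ∑ i, w i * ((∑ j, c i j * ((d j - d k) * s j)) * (1 - 1 / ell c i s)) := by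
    have h1 := f3_one w (fun i => 1 - 1 / ell c i s) c (fun j => (d j - d k) * s j)
    rw [← h1]
    refine Finset.sum_congr rfl fun j _ => ?_
    simp only [fg]
    ring
  have q4 := f3_Y k w c hF d s z b
  have q5 : d k * b ^ 2 = ∑ i, w i * (d k * b ^ 2) := by
    rw [← Finset.sum_mul, hF.ws, one_mul]
  have a1 : ∀ i, (∑ j, c i j * ((d j - d k) * z j))
      = (∑ j, c i j * (d j * z j)) - d k * ell c i z := by
    intro i
    rw [ell, Finset.mul_sum, ← Finset.sum_sub_distrib]
    exact Finset.sum_congr rfl fun j _ => by ring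
  have a2 : ∀ i, (∑ j, c i j * ((d j - d k) * s j))
      = (∑ j, c i j * (d j * s j)) - d k * ell c i s := by
    intro i
    rw [ell, Finset.mul_sum, ← Finset.sum_sub_distrib]
    exact Finset.sum_congr rfl fun j _ => by ring
  have a3 : ∀ i, (∑ j, c i j * ((d j - d k) * (z j + s j * b)))
      = ((∑ j, c i j * (d j * z j)) - d k * ell c i z)
        + b * ((∑ j, c i j * (d j * s j)) - d k * ell c i s) := by
    intro i
    rw [← a1 i, ← a2 i, Finset.mul_sum, ← Finset.sum_add_distrib]
    exact Finset.sum_congr rfl fun j _ => by ring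
  have a4 : ∀ i, (∑ j, d j * c i j * (z j + s j * b))
      = (∑ j, c i j * (d j * z j)) + b * (∑ j, c i j * (d j * s j)) := by
    intro i
    rw [Finset.mul_sum, ← Finset.sum_add_distrib]
    exact Finset.sum_congr rfl fun j _ => by ring
  rw [Qf, q1, q2, q3, q4, q5]
  simp only [a1, a2, a3, a4]
  rw [← Finset.sum_add_distrib, Finset.mul_sum, Finset.mul_sum, Finset.mul_sum,
    ← Finset.sum_add_distrib, ← Finset.sum_add_distrib, ← Finset.sum_add_distrib,
    ← Finset.sum_add_distrib]
  refine Finset.sum_congr rfl fun i _ => ?_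
  have hi := hl i
  generalize ell c i s = L at hi ⊢
  generalize ell c i z = E
  generalize (∑ j, c i j * (d j * z j)) = A
  generalize (∑ j, c i j * (d j * s j)) = S
  field_simp
  ring

end Pool.Agent.Lib.MP_d8ef8f_an.Rf
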