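import Pool.Agent.Lib.MP_d8ef8f_an.Rf.Stm

/-!
# G1: bounded open connected subsets of the line
-/

set_option autoImplicit false

namespace Pool.Agent.Lib.MP_d8ef8f_an.Rf

open Set Filter Topology MeasureTheory
open Pool.Agent.Lib.MP_d8ef8f_an.Gd Pool.Agent.Lib.MP_d8ef8f_an.Ff

private theorem g1_io_zero (x : ℝ) : io x 0 = x := rfl

private theorem g1_io_of (x : Sp 1) : io (x 0) = x := by
  ext i
  have : i = 0 := Subsingleton.elim _ _
  subst this
  rfl

private theorem g1_cont_io : Continuous io :=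
  (PiLp.continuous_toLp 2 _).comp (continuous_pi fun _ => continuous_id)

private theorem g1_cont_zero : Continuous (fun x : Sp 1 => x 0) := by fun_prop

/-- the homeomorphism `io` -/
private noncomputable def g1_h : ℝ ≃ₜ Sp 1 where
  toFun := io
  invFun := fun x => x 0
  left_inv := g1_io_zero
  right_inv := g1_io_of
  continuous_toFun := g1_cont_io
  continuous_invFun := g1_cont_zero

/-- **G1** -/
theorem p_G1 : StmG1 := by
  intro Ω hO hne hc hb
  have h1 : IsOpen (io ⁻¹' Ω) := hO.preimage g1_cont_io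
  have h2 : (fun x : Sp 1 => x 0) '' Ω = io ⁻¹' Ω := by
    ext t
    constructor
    · rintro ⟨x, hx, rfl⟩
      show io (x 0) ∈ Ω
      rw [g1_io_of]; exact hx
    · intro ht
      exact ⟨io t, ht, rfl⟩
  have h3 : IsPreconnected (io ⁻¹' Ω) := by
    rw [← h2]
    exact hc.image _ g1_cont_zero.continuousOn
  have h4 : (io ⁻¹' Ω).Nonempty := by
    rw [← h2]
    exact hne.image _
  obtain ⟨R, hR⟩ := hb.exists_norm_le
  have h5 : ∀ t ∈ io ⁻¹' Ω, |t| ≤ R := by
    intro t ht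
    have h6 : ‖io t 0‖ ≤ ‖io t‖ := PiLp.norm_apply_le (io t) 0
    have h7 := hR _ ht
    rw [g1_io_zero, Real.norm_eq_abs] at h6
    exact h6.trans h7
  have hbb : BddBelow (io ⁻¹' Ω) := ⟨-R, fun t ht => (abs_le.1 (h5 t ht)).1⟩
  have hba : BddAbove (io ⁻¹' Ω) := ⟨R, fun t ht => (abs_le.1 (h5 t ht)).2⟩
  set a := sInf (io ⁻¹' Ω) with ha
  set b := sSup (io ⁻¹' Ω) with hb'
  have h8 : Ioo a b ⊆ io ⁻¹' Ω := IsConnected.Ioo_csInf_csSup_subset ⟨h4, h3⟩ hbb hba
  have h9 : io ⁻¹' Ω ⊆ Ioo a b := by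
    intro t ht
    obtain ⟨e, he, hball⟩ := Metric.isOpen_iff.1 h1 t ht
    have e1 : t - e / 2 ∈ io ⁻¹' Ω := hball (by
      rw [Metric.mem_ball, Real.dist_eq]
      rw [show t - e / 2 - t = - (e / 2) by ring, abs_neg, abs_of_pos (by linarith)]
      linarith)
    have e2 : t + e / 2 ∈ io ⁻¹' Ω := hball (by
      rw [Metric.mem_ball, Real.dist_eq]
      rw [show t + e / 2 - t = e / 2 by ring, abs_of_pos (by linarith)]
      linarith)
    have e3 := csInf_le hbb e1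
    have e4 := le_csSup hba e2
    exact ⟨by linarith, by linarith⟩
  have h10 : io ⁻¹' Ω = Ioo a b := Subset.antisymm h9 h8
  obtain ⟨t₀, ht₀⟩ := h4
  have hab : a < b := (h9 ht₀).1.trans (h9 ht₀).2
  refine ⟨a, b, hab, ?_, ?_⟩
  · ext x
    have h11 : x ∈ Ω ↔ x 0 ∈ io ⁻¹' Ω := by
      show x ∈ Ω ↔ io (x 0) ∈ Ω
      rw [g1_io_of]
    rw [h11, h10]
    rfl
  · intro x
    have h12 : io x ∈ closure Ω ↔ x ∈ closure (io ⁻¹' Ω) := by
      have h13 := g1_h.preimage_closure Ω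
      have h14 : x ∈ g1_h ⁻¹' (closure Ω) ↔ x ∈ closure (g1_h ⁻¹' Ω) := by rw [h13]
      exact h14
    rw [h12, h10, closure_Ioo hab.ne]

end Pool.Agent.Lib.MP_d8ef8f_an.Rf
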