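import Pool.Agent.Lib.MP_d8ef8f_an.Rf.Stm

/-!
# G2: the Neumann problem on an interval in classical form
-/

set_option autoImplicit false

namespace Pool.Agent.Lib.MP_d8ef8f_an.Rf

open Set Filter Topology MeasureTheory
open Pool.Agent.Lib.MP_d8ef8f_an.Gd Pool.Agent.Lib.MP_d8ef8f_an.Ff

private lemma G2_mp : MeasurePreserving io (volume : Measure ℝ) (volume : Measure (Sp 1)) :=
  (EuclideanSpace.volume_preserving_symm_measurableEquiv_toLp (Fin 1)).symm.comp
    (volume_preserving_funUnique (Fin 1) ℝ).symm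

private lemma G2_emb : MeasurableEmbedding io :=
  ((MeasurableEquiv.funUnique (Fin 1) ℝ).symm.trans
    (MeasurableEquiv.toLp 2 (Fin 1 → ℝ))).measurableEmbedding

private lemma G2_int (Ω : Set (Sp 1)) (a b : ℝ) (hΩ : Ω = {x | a < x 0 ∧ x 0 < b})
    (F : Sp 1 → ℝ) : ∫ x in Ω, F x = ∫ t in Ioo a b, F (io t) := by
  have h1 : io ⁻¹' Ω = Ioo a b := by
    subst hΩ
    ext t
    simp [io]
  rw [← h1]
  exact (G2_mp.setIntegral_preimage_emb G2_emb F Ω).symm

private lemma G2_inner (x y : Sp 1) : inner ℝ x y = x 0 * y 0 := by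
  rw [PiLp.inner_apply]
  simp [mul_comm]

private lemma G2_io_cont : Continuous io := by
  unfold io
  exact (PiLp.continuous_toLp 2 _).comp (continuous_pi fun _ => continuous_id)

private lemma G2_io_deriv (x : ℝ) : HasDerivAt io (io 1) x := by
  have h1 : io = fun t : ℝ => t • io 1 := by
    funext t
    ext i
    simp [io]
  have h2 : HasDerivAt (fun t : ℝ => t • io 1) ((1 : ℝ) • io 1) x :=
    (hasDerivAt_id x).smul_const (io 1)
  rw [one_smul] at h2
  rw [h1] at h2 ⊢
  simpa using h2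

private lemma G2_c1 (Ω : Set (Sp 1)) (Ψ w : ℝ → ℝ) (hw : Continuous w)
    (hΨ : ∀ t, HasDerivAt Ψ (w t) t) :
    C1 Ω (fun x => Ψ (x 0)) (fun x => io (w (x 0))) := by
  have hc : Continuous (fun x : Sp 1 => x 0) := by fun_prop
  have hΨc : Continuous Ψ := continuous_iff_continuousAt.2 fun t => (hΨ t).continuousAt
  refine ⟨(hΨc.comp hc).continuousOn, (G2_io_cont.comp (hw.comp hc)).continuousOn, ?_⟩
  intro x _
  rw [hasGradientAt_iff_hasFDerivAt]
  have h1 : HasFDerivAt (fun x : Sp 1 => x 0) (EuclideanSpace.proj (0 : Fin 1) : Sp 1 →L[ℝ] ℝ) x :=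
    (EuclideanSpace.proj (0 : Fin 1) : Sp 1 →L[ℝ] ℝ).hasFDerivAt
  have h2 := (hΨ (x 0)).comp_hasFDerivAt x h1
  refine h2.congr_fderiv ?_
  ext v
  simp [InnerProductSpace.toDual_apply_apply, G2_inner, io]

theorem p_G2 : StmG2 := by
  intro Ω a b hab hΩ hcl φ Dφ g hN
  have hio : ∀ t ∈ Icc a b, io t ∈ closure Ω := fun t ht => (hcl t).2 ht
  have hmaps : MapsTo io (Icc a b) (closure Ω) := hio
  have hvc : ContinuousOn (fun t => Dφ (io t) 0) (Icc a b) := by
    have h1 : ContinuousOn (fun t => Dφ (io t)) (Icc a b) :=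
      hN.c1.contD.comp G2_io_cont.continuousOn hmaps
    have h2 : Continuous (fun x : Sp 1 => x 0) := by fun_prop
    exact h2.comp_continuousOn h1
  have hgc : ContinuousOn (fun t => g (io t)) (Icc a b) :=
    hN.cont.comp G2_io_cont.continuousOn hmaps
  set v : ℝ → ℝ := IccExtend hab.le ((Icc a b).domRestrict (fun t => Dφ (io t) 0)) with hv
  set gE : ℝ → ℝ := IccExtend hab.le ((Icc a b).domRestrict (fun t => g (io t))) with hgE
  have hvC : Continuous v := (continuousOn_iff_continuous_domRestrict.1 hvc).Icc_extend'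
  have hgC : Continuous gE := (continuousOn_iff_continuous_domRestrict.1 hgc).Icc_extend'
  have hve : ∀ t ∈ Icc a b, v t = Dφ (io t) 0 := fun t ht => by
    rw [hv, IccExtend_of_mem _ _ ht]; rfl
  have hge : ∀ t ∈ Icc a b, gE t = g (io t) := fun t ht => by
    rw [hgE, IccExtend_of_mem _ _ ht]; rfl
  set G : ℝ → ℝ := fun x => ∫ y in a..x, gE y with hG
  have hGd : ∀ t, HasDerivAt G (gE t) t := fun t =>
    intervalIntegral.integral_hasDerivAt_right (hgC.intervalIntegrable _ _)
      (hgC.stronglyMeasurableAtFilter _ _) hgC.continuousAt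
  have hGc : Continuous G := continuous_iff_continuousAt.2 fun t => (hGd t).continuousAt
  have hGa : G a = 0 := intervalIntegral.integral_same
  -- transfer of the integrals
  have htr : ∀ F : Sp 1 → ℝ, ∫ x in Ω, F x = ∫ t in a..b, F (io t) := fun F => by
    rw [G2_int Ω a b hΩ F, intervalIntegral.integral_of_le hab.le, integral_Ioc_eq_integral_Ioo]
  have hGb : G b = 0 := by
    have h1 := hN.green (fun _ => 1) (fun _ => 0)
      ⟨continuousOn_const, continuousOn_const, fun x _ => hasGradientAt_const x 1⟩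
    rw [htr, htr] at h1
    simp only [mul_one, inner_zero_right, intervalIntegral.integral_zero, neg_zero] at h1
    rw [hG]
    rw [← h1]
    refine intervalIntegral.integral_congr fun t ht => ?_
    rw [uIcc_of_le hab.le] at ht
    exact hge t ht
  set w : ℝ → ℝ := fun t => v t - G t with hw
  have hwc : Continuous w := hvC.sub hGc
  set Ψ : ℝ → ℝ := fun x => ∫ y in a..x, w y with hΨ
  have hΨd : ∀ t, HasDerivAt Ψ (w t) t := fun t =>
    intervalIntegral.integral_hasDerivAt_right (hwc.intervalIntegrable _ _)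
      (hwc.stronglyMeasurableAtFilter _ _) hwc.continuousAt
  have hgr := hN.green _ _ (G2_c1 Ω Ψ w hwc hΨd)
  rw [htr, htr] at hgr
  have h1 : (∫ t in a..b, g (io t) * Ψ ((io t) 0)) = ∫ t in a..b, gE t * Ψ t := by
    refine intervalIntegral.integral_congr fun t ht => ?_
    rw [uIcc_of_le hab.le] at ht
    simp only [hge t ht]
    rfl
  have h2 : (∫ t in a..b, inner ℝ (Dφ (io t)) (io (w ((io t) 0)))) = ∫ t in a..b, v t * w t := by
    refine intervalIntegral.integral_congr fun t ht => ?_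
    rw [uIcc_of_le hab.le] at ht
    simp only [G2_inner, hve t ht]
    rfl
  rw [h1, h2] at hgr
  have h3 : (∫ t in a..b, G t * w t) = G b * Ψ b - G a * Ψ a - ∫ t in a..b, gE t * Ψ t :=
    intervalIntegral.integral_mul_deriv_eq_deriv_mul (fun x _ => hGd x) (fun x _ => hΨd x)
      (hgC.intervalIntegrable _ _) (hwc.intervalIntegrable _ _)
  have h4 : ∫ t in a..b, w t ^ 2 = 0 := by
    have h7 : (∫ t in a..b, w t ^ 2) = (∫ t in a..b, v t * w t) - ∫ t in a..b, G t * w t := by
      rw [← intervalIntegral.integral_sub (f := fun t => v t * w t) (g := fun t => G t * w t)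
        ((hvC.mul hwc).intervalIntegrable _ _) ((hGc.mul hwc).intervalIntegrable _ _)]
      refine intervalIntegral.integral_congr fun t _ => ?_
      simp only [hw]
      ring
    rw [h7, h3, hGb, hGa]
    linarith
  have h5 : ∀ t ∈ Icc a b, w t = 0 := by
    intro t ht
    by_contra hne
    have h8 : (0 : ℝ) < w t ^ 2 := by positivity
    have h9 : 0 < ∫ t in a..b, w t ^ 2 := intervalIntegral.integral_pos hab
      (f := fun t => w t ^ 2) (hwc.pow 2).continuousOn (fun x _ => sq_nonneg (w x)) ⟨t, ht, h8⟩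
    linarith
  have h6 : ∀ t ∈ Icc a b, Dφ (io t) 0 = G t := fun t ht => by
    have := h5 t ht
    rw [hw] at this
    simp only at this
    rw [hve t ht] at this
    linarith
  refine ⟨?_, ?_, ?_, ?_⟩
  · intro x hx
    have hxΩ : io x ∈ Ω := by
      rw [hΩ]
      exact ⟨hx.1, hx.2⟩
    have h7 := (hasGradientAt_iff_hasFDerivAt.1 (hN.c1.grad _ hxΩ)).comp_hasDerivAt x
      (G2_io_deriv x)
    have h8 : (InnerProductSpace.toDual ℝ (Sp 1) (Dφ (io x))) (io 1) = Dφ (io x) 0 := by
      rw [InnerProductSpace.toDual_apply_apply, G2_inner]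
      simp [io]
    rw [← h8]
    exact h7
  · intro x hx
    have h7 : (fun y => Dφ (io y) 0) =ᶠ[𝓝 x] G := by
      filter_upwards [Icc_mem_nhds hx.1 hx.2] with y hy
      exact h6 y hy
    rw [← hge x ⟨hx.1.le, hx.2.le⟩]
    exact (hGd x).congr_of_eventuallyEq h7
  · rw [h6 a ⟨le_rfl, hab.le⟩, hGa]
  · rw [h6 b ⟨hab.le, le_rfl⟩, hGb]

end Pool.Agent.Lib.MP_d8ef8f_an.Rf
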