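import Pool.Agent.Lib.MP_d8ef8f_an.Rf.Stm

/-!
# The gradient bound for the ordinary differential equation
-/

set_option autoImplicit false

namespace Pool.Agent.Lib.MP_d8ef8f_an.Rf

open Set Filter Topology MeasureTheory
open Pool.Agent.Lib.MP_d8ef8f_an.Gd Pool.Agent.Lib.MP_d8ef8f_an.Ff

theorem p_G3 : StmG3 := by
  intro a b d hab hd v v' g m hv hv' hdv hdv' ha hb hpos hm heq x hx
  set F : ℝ → ℝ := fun y => 2 / 3 * v y ^ 3 - d * v' y ^ 2 with hF
  have hFc : ContinuousOn F (Icc a b) :=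
    ((hv.pow 3).const_mul _).sub ((hv'.pow 2).const_mul _)
  have hFd : ∀ y ∈ Ioo a b, HasDerivAt F (2 * v' y * (m y * v y)) y := by
    intro y hy
    have h1 : HasDerivAt F (2 / 3 * (3 * v y ^ 2 * v' y) - d * (2 * v' y * g y)) y := by
      have e1 := ((hdv y hy).pow 3).const_mul (2 / 3)
      have e2 := ((hdv' y hy).pow 2).const_mul d
      have e3 : HasDerivAt F (2 / 3 * (((3 : ℕ) : ℝ) * v y ^ (3 - 1) * v' y) -
          d * (((2 : ℕ) : ℝ) * v' y ^ (2 - 1) * g y)) y := e1.sub e2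
      refine e3.congr_deriv ?_
      norm_num
    refine h1.congr_deriv ?_
    have h2 := heq y (Ioo_subset_Icc_self hy)
    have h3 : d * g y = v y ^ 2 - m y * v y := by linear_combination h2
    linear_combination (-2) * v' y * h3
  have hend : ∀ y ∈ Icc a b, v' y = 0 → 0 < F y := by
    intro y hy h0
    have := hpos y hy
    simp only [hF, h0]
    have h3 : 0 < v y ^ 3 := by positivity
    nlinarith
  suffices h : 0 < F x by
    simp only [hF] at h
    linarith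
  rcases lt_trichotomy (v' x) 0 with hx0 | hx0 | hx0
  · -- `v' x < 0`
    set S : Set ℝ := {y | y ∈ Icc x b ∧ 0 ≤ v' y} with hS
    have hSc : IsCompact S := by
      have h1 : ContinuousOn v' (Icc x b) := hv'.mono (Icc_subset_Icc_left hx.1)
      have h2 : IsClosed S := by
        have := h1.preimage_isClosed_of_isClosed isClosed_Icc (isClosed_Ici (a := (0:ℝ)))
        exact this
      exact isCompact_Icc.of_isClosed_subset h2 fun y hy => hy.1
    have hSne : S.Nonempty := ⟨b, ⟨hx.2, le_rfl⟩, hb.ge⟩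
    obtain ⟨x₀, hx₀, hmin⟩ := hSc.exists_isLeast hSne
    have hlt : x < x₀ := lt_of_le_of_ne hx₀.1.1 fun h => absurd hx₀.2 (not_le.2 (h ▸ hx0))
    have hneg : ∀ y ∈ Ico x x₀, v' y < 0 := by
      intro y hy
      by_contra h
      exact absurd (hmin ⟨⟨hy.1, hy.2.le.trans hx₀.1.2⟩, not_lt.1 h⟩) (not_le.2 hy.2)
    have hsub : Icc x x₀ ⊆ Icc a b := Icc_subset_Icc hx.1 hx₀.1.2
    have hx₀' : x₀ ∈ Icc a b := hsub ⟨hlt.le, le_rfl⟩
    have h0 : v' x₀ = 0 := by
      refine le_antisymm ?_ hx₀.2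
      have h1 : Tendsto v' (𝓝[Ico x x₀] x₀) (𝓝 (v' x₀)) :=
        (hv' x₀ hx₀').mono_left (nhdsWithin_mono _ (Ico_subset_Icc_self.trans hsub))
      have h2 : (𝓝[Ico x x₀] x₀).NeBot := by
        rw [nhdsWithin_Ico_eq_nhdsLT hlt]
        infer_instance
      exact le_of_tendsto h1 (eventually_mem_nhdsWithin.mono fun y hy => (hneg y hy).le)
    have hanti : AntitoneOn F (Icc x x₀) := by
      refine antitoneOn_of_deriv_nonpos (convex_Icc _ _) (hFc.mono hsub) ?_ ?_
      · intro y hy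
        rw [interior_Icc] at hy
        exact (hFd y ⟨lt_of_le_of_lt hx.1 hy.1, lt_of_lt_of_le hy.2 hx₀.1.2⟩).differentiableAt.differentiableWithinAt
      · intro y hy
        rw [interior_Icc] at hy
        rw [(hFd y ⟨lt_of_le_of_lt hx.1 hy.1, lt_of_lt_of_le hy.2 hx₀.1.2⟩).deriv]
        have h1 := hneg y ⟨hy.1.le, hy.2⟩
        have hyI : y ∈ Icc a b := hsub ⟨hy.1.le, hy.2.le⟩
        have h2 := mul_nonneg (hm y hyI) (hpos y hyI).le
        nlinarith
    exact lt_of_lt_of_le (hend x₀ hx₀' h0) (hanti ⟨le_rfl, hlt.le⟩ ⟨hlt.le, le_rfl⟩ hlt.le)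
  · exact hend x hx hx0
  · -- `0 < v' x`
    set S : Set ℝ := {y | y ∈ Icc a x ∧ v' y ≤ 0} with hS
    have hSc : IsCompact S := by
      have h1 : ContinuousOn v' (Icc a x) := hv'.mono (Icc_subset_Icc_right hx.2)
      have h2 : IsClosed S := by
        have := h1.preimage_isClosed_of_isClosed isClosed_Icc (isClosed_Iic (a := (0:ℝ)))
        exact this
      exact isCompact_Icc.of_isClosed_subset h2 fun y hy => hy.1
    have hSne : S.Nonempty := ⟨a, ⟨le_rfl, hx.1⟩, ha.le⟩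
    obtain ⟨x₀, hx₀, hmax⟩ := hSc.exists_isGreatest hSne
    have hlt : x₀ < x := lt_of_le_of_ne hx₀.1.2 fun h => absurd hx₀.2 (not_le.2 (h ▸ hx0))
    have hposi : ∀ y ∈ Ioc x₀ x, 0 < v' y := by
      intro y hy
      by_contra h
      exact absurd (hmax ⟨⟨hx₀.1.1.trans hy.1.le, hy.2⟩, not_lt.1 h⟩) (not_le.2 hy.1)
    have hsub : Icc x₀ x ⊆ Icc a b := Icc_subset_Icc hx₀.1.1 hx.2
    have hx₀' : x₀ ∈ Icc a b := hsub ⟨le_rfl, hlt.le⟩
    have h0 : v' x₀ = 0 := by
      refine le_antisymm hx₀.2 ?_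
      have h1 : Tendsto v' (𝓝[Ioc x₀ x] x₀) (𝓝 (v' x₀)) :=
        (hv' x₀ hx₀').mono_left (nhdsWithin_mono _ (Ioc_subset_Icc_self.trans hsub))
      have h2 : (𝓝[Ioc x₀ x] x₀).NeBot := by
        rw [nhdsWithin_Ioc_eq_nhdsGT hlt]
        infer_instance
      exact ge_of_tendsto h1 (eventually_mem_nhdsWithin.mono fun y hy => (hposi y hy).le)
    have hmono : MonotoneOn F (Icc x₀ x) := by
      refine monotoneOn_of_deriv_nonneg (convex_Icc _ _) (hFc.mono hsub) ?_ ?_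
      · intro y hy
        rw [interior_Icc] at hy
        exact (hFd y ⟨lt_of_le_of_lt hx₀.1.1 hy.1, lt_of_lt_of_le hy.2 hx.2⟩).differentiableAt.differentiableWithinAt
      · intro y hy
        rw [interior_Icc] at hy
        rw [(hFd y ⟨lt_of_le_of_lt hx₀.1.1 hy.1, lt_of_lt_of_le hy.2 hx.2⟩).deriv]
        have h1 := hposi y ⟨hy.1, hy.2.le⟩
        have hyI : y ∈ Icc a b := hsub ⟨hy.1.le, hy.2.le⟩
        have h2 := mul_nonneg (hm y hyI) (hpos y hyI).le
        nlinarith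
    exact lt_of_lt_of_le (hend x₀ hx₀' h0) (hmono ⟨le_rfl, hlt.le⟩ ⟨hlt.le, le_rfl⟩ hlt.le)

end Pool.Agent.Lib.MP_d8ef8f_an.Rf
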