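import Pool.Agent.Lib.MP_d8ef8f_an.Rf.Stm

set_option autoImplicit false

namespace Pool.Agent.Lib.MP_d8ef8f_an.Rf

open Set Filter Topology MeasureTheory
open Pool.Agent.Lib.MP_d8ef8f_an.Gd Pool.Agent.Lib.MP_d8ef8f_an.Ff

private lemma cont_io : Continuous io := by
  unfold io
  exact (PiLp.continuous_toLp 2 (fun _ : Fin 1 => ℝ)).comp (continuous_pi (fun _ => continuous_id))

private lemma io_zero (x : Sp 1) : io (x 0) = x := by
  ext i
  fin_cases i
  rfl

private lemma norm_sq_one (y : Sp 1) : ‖y‖ ^ 2 = (y 0) ^ 2 := by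
  rw [EuclideanSpace.norm_sq_eq]
  simp

theorem p_Gb (g1 : StmG1) (g2 : StmG2) (g3 : StmG3) : StmGb := by
  intro Ω hO hne hpc hbd d hd m hm θ Dθ lθ hst
  obtain ⟨a, b, hab, hΩ, hcl⟩ := g1 Ω hO hne hpc hbd
  obtain ⟨h1, h2, h3, h4⟩ := g2 Ω a b hab hΩ hcl θ Dθ lθ hst.lap
  have hmaps : MapsTo io (Icc a b) (closure Ω) := fun x hx => (hcl x).2 hx
  have cθ : ContinuousOn (fun x => θ (io x)) (Icc a b) :=
    hst.lap.c1.cont.comp cont_io.continuousOn hmaps
  have cD : ContinuousOn (fun x => Dθ (io x)) (Icc a b) :=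
    hst.lap.c1.contD.comp cont_io.continuousOn hmaps
  have cD0 : ContinuousOn (fun x => Dθ (io x) 0) (Icc a b) := by
    have h : Continuous (fun y : Sp 1 => y 0) := by fun_prop
    exact h.comp_continuousOn cD
  have key := g3 a b d hab hd (fun x => θ (io x)) (fun x => Dθ (io x) 0) (fun x => lθ (io x))
    (fun x => m (io x)) cθ cD0 h1 h2 h3 h4 (fun x hx => hst.pos _ (hmaps hx))
    (fun x hx => hm _ (hmaps hx)) (fun x hx => hst.eq _ (hmaps hx))
  have key2 : ∀ x ∈ closure Ω, d * ‖Dθ x‖ ^ 2 < 2 / 3 * θ x ^ 3 := by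
    intro x hx
    have hx' : x 0 ∈ Icc a b := by
      rw [← hcl, io_zero]; exact hx
    have h := key (x 0) hx'
    simp only [io_zero] at h
    rw [norm_sq_one]
    exact h
  have hcpt : IsCompact (closure Ω) := hbd.isCompact_closure
  have hnec : (closure Ω).Nonempty := hne.closure
  have hpos : ∀ x ∈ closure Ω, 0 < 2 / 3 * θ x ^ 3 := by
    intro x hx
    have := hst.pos x hx
    positivity
  have cR : ContinuousOn (fun x => d * ‖Dθ x‖ ^ 2 / (2 / 3 * θ x ^ 3)) (closure Ω) := by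
    apply ContinuousOn.div
    · exact continuousOn_const.mul ((hst.lap.c1.contD.norm).pow 2)
    · exact continuousOn_const.mul (hst.lap.c1.cont.pow 3)
    · intro x hx
      exact (hpos x hx).ne'
  obtain ⟨x0, hx0, hmax⟩ := hcpt.exists_isMaxOn hnec cR
  set R0 : ℝ := d * ‖Dθ x0‖ ^ 2 / (2 / 3 * θ x0 ^ 3) with hR0
  have hR0a : 0 ≤ R0 := by
    apply div_nonneg
    · positivity
    · exact (hpos x0 hx0).le
  have hR0b : R0 < 1 := by
    rw [hR0, div_lt_one (hpos x0 hx0)]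
    exact key2 x0 hx0
  refine ⟨(1 - R0) / 2, by linarith, by linarith, ?_⟩
  intro x hx
  have h5 : d * ‖Dθ x‖ ^ 2 / (2 / 3 * θ x ^ 3) ≤ R0 := hmax hx
  rw [div_le_iff₀ (hpos x hx)] at h5
  have h6 : R0 * (2 / 3 * θ x ^ 3) ≤ (1 - (1 - R0) / 2) * (2 / 3 * θ x ^ 3) := by
    apply mul_le_mul_of_nonneg_right _ (hpos x hx).le
    linarith
  linarith

end Pool.Agent.Lib.MP_d8ef8f_an.Rf
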