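import Pool.Agent.Lib.MP_d8ef8f_an.Rf.Stm

/-!
# Piece Q: the family for three species
-/

set_option autoImplicit false

namespace Pool.Agent.Lib.MP_d8ef8f_an.Rf

open Set Filter Topology MeasureTheory
open Pool.Agent.Lib.MP_d8ef8f_an.Gd Pool.Agent.Lib.MP_d8ef8f_an.Ff

/-- the weights -/
private noncomputable def wQ : Fin 4 → ℝ := ![19 / 37, 4 / 37, 8 / 37, 6 / 37]

/-- the coefficients -/
private noncomputable def cQ {N : ℕ} (k j1 j2 : Fin N) (i : Fin 4) (j : Fin N) : ℝ :=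
  if j = k then 1 else if j = j1 then (![0, 23 / 4, 1, 1] : Fin 4 → ℝ) i
    else if j = j2 then (![0, 0, 1, 29 / 6] : Fin 4 → ℝ) i else 0

private theorem sum3 {N : ℕ} (k j1 j2 : Fin N) (h1 : k ≠ j1) (h2 : k ≠ j2) (h3 : j1 ≠ j2)
    (F : Fin N → ℝ) (hF : ∀ j, j ≠ k → j ≠ j1 → j ≠ j2 → F j = 0) :
    ∑ j, F j = F k + F j1 + F j2 := by
  have h : ∑ j ∈ ({k, j1, j2} : Finset (Fin N)), F j = ∑ j, F j := by
    refine Finset.sum_subset (Finset.subset_univ _) ?_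
    intro j _ hj
    simp only [Finset.mem_insert, Finset.mem_singleton, not_or] at hj
    exact hF j hj.1 hj.2.1 hj.2.2
  rw [← h, Finset.sum_insert, Finset.sum_insert, Finset.sum_singleton, add_assoc]
  · simpa using h3
  · simp only [Finset.mem_insert, Finset.mem_singleton, not_or]
    exact ⟨h1, h2⟩

private theorem filt2 {N : ℕ} (k j1 j2 : Fin N) (h1 : k < j1) (h2 : k < j2)
    (h : ∀ j, k < j → j = j1 ∨ j = j2) :
    Finset.univ.filter (fun j => k < j) = ({j1, j2} : Finset (Fin N)) := by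
  ext j
  simp only [Finset.mem_filter, Finset.mem_univ, true_and, Finset.mem_insert,
    Finset.mem_singleton]
  constructor
  · exact h j
  · rintro (rfl | rfl)
    · exact h1
    · exact h2

private theorem fsum2 {N : ℕ} (k j1 j2 : Fin N) (h1 : k < j1) (h2 : k < j2) (h3 : j1 ≠ j2)
    (h : ∀ j, k < j → j = j1 ∨ j = j2) (F : Fin N → ℝ) :
    ∑ j ∈ Finset.univ.filter (fun j => k < j), F j = F j1 + F j2 := by
  rw [filt2 k j1 j2 h1 h2 h, Finset.sum_pair h3]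

private theorem cQk {N : ℕ} (k j1 j2 : Fin N) (i : Fin 4) : cQ k j1 j2 i k = 1 := by
  simp [cQ]

private theorem cQ1 {N : ℕ} (k j1 j2 : Fin N) (h1 : k ≠ j1) (i : Fin 4) :
    cQ k j1 j2 i j1 = (![0, 23 / 4, 1, 1] : Fin 4 → ℝ) i := by
  rw [cQ, if_neg h1.symm, if_pos rfl]

private theorem cQ2 {N : ℕ} (k j1 j2 : Fin N) (h2 : k ≠ j2) (h3 : j1 ≠ j2) (i : Fin 4) :
    cQ k j1 j2 i j2 = (![0, 0, 1, 29 / 6] : Fin 4 → ℝ) i := by
  rw [cQ, if_neg h2.symm, if_neg h3.symm, if_pos rfl]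

private theorem cQ0 {N : ℕ} (k j1 j2 : Fin N) (i : Fin 4) (j : Fin N) (h0 : j ≠ k) (h1 : j ≠ j1)
    (h2 : j ≠ j2) : cQ k j1 j2 i j = 0 := by
  rw [cQ, if_neg h0, if_neg h1, if_neg h2]

private theorem fam {N : ℕ} (k j1 j2 : Fin N) (h1 : k < j1) (h2 : k < j2) (h3 : j1 ≠ j2)
    (h : ∀ j, k < j → j = j1 ∨ j = j2) : Fam k wQ (cQ k j1 j2) := by
  refine ⟨?_, ?_, ?_, ?_, ?_, ?_, ?_, ?_⟩
  · intro i
    fin_cases i <;> norm_num [wQ]
  · simp only [wQ, Fin.sum_univ_four, Matrix.cons_val]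
    norm_num
  · intro i j
    rcases eq_or_ne j k with h0 | h0
    · rw [h0, cQk]
      norm_num
    rcases eq_or_ne j j1 with h4 | h4
    · rw [h4, cQ1 k j1 j2 h1.ne]
      fin_cases i <;> simp <;> norm_num
    rcases eq_or_ne j j2 with h5 | h5
    · rw [h5, cQ2 k j1 j2 h2.ne h3]
      fin_cases i <;> simp <;> norm_num
    rw [cQ0 k j1 j2 i j h0 h4 h5]
  · intro i
    exact cQk k j1 j2 i
  · intro i j hj
    refine cQ0 k j1 j2 i j hj.ne ?_ ?_
    · rintro rfl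
      exact lt_asymm hj h1
    · rintro rfl
      exact lt_asymm hj h2
  · intro j hj
    rcases h j hj with rfl | rfl
    · simp only [cQ1 k _ j2 h1.ne, wQ, Fin.sum_univ_four, Matrix.cons_val]
      norm_num
    · simp only [cQ2 k j1 _ h2.ne h3, wQ, Fin.sum_univ_four, Matrix.cons_val]
      norm_num
  · refine ⟨0, by simp [wQ], ?_⟩
    intro j hj
    rcases eq_or_ne j j1 with h4 | h4
    · rw [h4, cQ1 k j1 j2 h1.ne]
      simp
    rcases eq_or_ne j j2 with h5 | h5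
    · rw [h5, cQ2 k j1 j2 h2.ne h3]
      simp
    exact cQ0 k j1 j2 0 j hj h4 h5
  · refine ⟨2, by simp [wQ], ?_⟩
    intro j hj
    rcases h j hj with rfl | rfl
    · rw [cQ1 k _ j2 h1.ne]
      simp
    · rw [cQ2 k j1 _ h2.ne h3]
      simp

private theorem dsum {N : ℕ} (k j1 j2 : Fin N) (h1 : k ≠ j1) (h2 : k ≠ j2) (h3 : j1 ≠ j2)
    (i : Fin 4) (a : Fin N → ℝ) :
    ∑ j, a j * cQ k j1 j2 i j = a k + a j1 * (![0, 23 / 4, 1, 1] : Fin 4 → ℝ) i
      + a j2 * (![0, 0, 1, 29 / 6] : Fin 4 → ℝ) i := by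
  rw [sum3 k j1 j2 h1 h2 h3 (fun j => a j * cQ k j1 j2 i j) (fun j a0 a1 a2 => by
    rw [cQ0 k j1 j2 i j a0 a1 a2, mul_zero])]
  simp only [cQk, cQ1 k j1 j2 h1, cQ2 k j1 j2 h2 h3, mul_one]

theorem p_Q (f3 : StmF3) (al : StmAl) : StmQ := by
  intro N d k j1 j2 hd h1 h2 h3 h hd1 hd2 hd3
  have hF := fam k j1 j2 h1 h2 h3 h
  refine ⟨wQ, cQ k j1 j2, hF, ?_⟩
  intro L
  have hr2 : 1 < d j1 / d k := by rwa [one_lt_div hd]
  have hr3 : d j1 / d k ≤ d j2 / d k := by gcongr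
  have hr4 : d j2 / d k ≤ 4 := by rwa [div_le_iff₀ hd]
  obtain ⟨c, hc, hal⟩ := al (d j1 / d k) (d j2 / d k) L hr2 hr3 hr4
  refine ⟨c * d k, mul_pos hc hd, ?_⟩
  intro s hs z b
  obtain ⟨hs1, hs0, hsL⟩ := hs
  have hlen : ∀ x : Fin N → ℝ, len k x = x k + x j1 + x j2 := by
    intro x
    rw [len, Sab, fsum2 k j1 j2 h1 h2 h3 h]
    ring
  have hsab : Sab k s = s j1 + s j2 := by
    rw [Sab, fsum2 k j1 j2 h1 h2 h3 h]
  have hY : Yl d k s z b = (d j1 - d k) * (z j1 + s j1 * b) + (d j2 - d k) * (z j2 + s j2 * b) := by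
    rw [Yl, fsum2 k j1 j2 h1 h2 h3 h]
  have hell : ∀ (i : Fin 4) (x : Fin N → ℝ), ell (cQ k j1 j2) i x
      = x k + x j1 * (![0, 23 / 4, 1, 1] : Fin 4 → ℝ) i
      + x j2 * (![0, 0, 1, 29 / 6] : Fin 4 → ℝ) i := by
    intro i x
    rw [ell, ← dsum k j1 j2 h1.ne h2.ne h3 i x]
    exact Finset.sum_congr rfl (fun j _ => mul_comm _ _)
  have hM : ∀ i : Fin 4, (∑ j, d j * cQ k j1 j2 i j * (z j + s j * b))
      = d k * (z k + s k * b) + d j1 * (z j1 + s j1 * b) * (![0, 23 / 4, 1, 1] : Fin 4 → ℝ) i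
      + d j2 * (z j2 + s j2 * b) * (![0, 0, 1, 29 / 6] : Fin 4 → ℝ) i := by
    intro i
    rw [← dsum k j1 j2 h1.ne h2.ne h3 i (fun j => d j * (z j + s j * b))]
    exact Finset.sum_congr rfl (fun j _ => by ring)
  have hA := hal (s k) (s j1) (s j2) (z k) (z j1) (z j2) b hs1 (hs0 j1) (hs0 j2)
    (by rw [← hlen]; exact hsL)
  have h3' := f3 k wQ (cQ k j1 j2) hF d s z b hs1 hs0
  have ht : 0 < s k + s j1 + s j2 := by
    have := hs0 j1
    have := hs0 j2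
    positivity
  rw [h3', fsum2 k j1 j2 h1 h2 h3 h, hsab, hlen, hlen, hY]
  simp only [hell, hM, wQ, Fin.sum_univ_four, Matrix.cons_val]
  have hA' := mul_le_mul_of_nonneg_left hA hd.le
  have e1 : d k * (c * ((1 - 1 / s k) ^ 2 * z k ^ 2 + (z j1 ^ 2 + z j2 ^ 2)
        + b ^ 2 * (s j1 + s j2) ^ 2)
        + 1 / 100 * ((z k + z j1 + z j2) / (s k + s j1 + s j2)) ^ 2
        + 1 / 6 * (((d j1 / d k - 1) * (z j1 + s j1 * b) + (d j2 / d k - 1) * (z j2 + s j2 * b))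
          / (s k + s j1 + s j2)) ^ 2)
      = c * d k * ((1 - 1 / s k) ^ 2 * z k ^ 2 + (z j1 ^ 2 + z j2 ^ 2)
        + b ^ 2 * (s j1 + s j2) ^ 2)
        + d k / 100 * ((z k + z j1 + z j2) / (s k + s j1 + s j2)) ^ 2
        + 1 / (6 * d k) * (((d j1 - d k) * (z j1 + s j1 * b) + (d j2 - d k) * (z j2 + s j2 * b))
          / (s k + s j1 + s j2)) ^ 2 := by
    field_simp
  rw [e1] at hA'
  refine hA'.trans (le_of_eq ?_)
  rw [Pq]
  have n1 : 0 < s k + 23 / 4 * s j1 := by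
    have := hs0 j1
    positivity
  have n2 : 0 < s k + s j1 + 29 / 6 * s j2 := by
    have := hs0 j1
    have := hs0 j2
    positivity
  have u1 : d k * (d j1 / d k) = d j1 := mul_div_cancel₀ _ hd.ne'
  have u2 : d k * (d j2 / d k) = d j2 := mul_div_cancel₀ _ hd.ne'
  have q1 : s k + s j1 * (23 / 4) = s k + 23 / 4 * s j1 := by ring
  have q2 : s k + s j1 + s j2 * (29 / 6) = s k + s j1 + 29 / 6 * s j2 := by ring
  simp only [mul_zero, add_zero, mul_one]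
  rw [q1, q2]
  generalize hr : d j1 / d k = r at *
  generalize hq : d j2 / d k = q at *
  rw [← u1, ← u2]
  generalize s k + 23 / 4 * s j1 = p1 at *
  generalize s k + s j1 + 29 / 6 * s j2 = p2 at *
  generalize s k + s j1 + s j2 = t at *
  field_simp
  ring

end Pool.Agent.Lib.MP_d8ef8f_an.Rf
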