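import Pool.Agent.Lib.MP_d8ef8f_an.Rf.Stm
import Pool.Agent.Lib.MP_d8ef8f_an.Gd.A1
import Pool.Agent.Lib.MP_d8ef8f_an.Gd.A2

/-!
# W1: bounds of the steady state
-/

set_option autoImplicit false

namespace Pool.Agent.Lib.MP_d8ef8f_an.Rf

open Set Filter Topology MeasureTheory
open Pool.Agent.Lib.MP_d8ef8f_an.Gd Pool.Agent.Lib.MP_d8ef8f_an.Ff

/-- derivative of the square of the positive part -/
private theorem w1_sq (z : ℝ) : HasDerivAt (fun z : ℝ => max z 0 ^ 2) (2 * max z 0) z := by
  rcases lt_trichotomy z 0 with h | h | h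
  · have h1 : (fun z : ℝ => max z 0 ^ 2) =ᶠ[𝓝 z] fun _ => 0 := by
      filter_upwards [Iio_mem_nhds h] with y hy
      rw [max_eq_right (le_of_lt hy)]; norm_num
    have h2 : HasDerivAt (fun _ : ℝ => (0 : ℝ)) 0 z := hasDerivAt_const z 0
    have h3 := h2.congr_of_eventuallyEq h1
    rw [max_eq_right h.le]; simpa using h3
  · subst h
    have h1 : HasDerivWithinAt (fun z : ℝ => max z 0 ^ 2) 0 (Iic 0) 0 := by
      refine (hasDerivWithinAt_const (0 : ℝ) (Iic 0) (0 : ℝ)).congr (fun y hy => ?_) (by simp)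
      rw [max_eq_right hy]; norm_num
    have h2 : HasDerivWithinAt (fun z : ℝ => max z 0 ^ 2) 0 (Ici 0) 0 := by
      have h3 : HasDerivAt (fun z : ℝ => z ^ 2) 0 0 := by simpa using hasDerivAt_pow 2 (0 : ℝ)
      refine h3.hasDerivWithinAt.congr (fun y hy => ?_) (by simp)
      rw [max_eq_left hy]
    have h4 := h1.union h2
    rw [Set.Iic_union_Ici] at h4
    simpa using h4
  · have h1 : (fun z : ℝ => max z 0 ^ 2) =ᶠ[𝓝 z] fun z => z ^ 2 := by
      filter_upwards [Ioi_mem_nhds h] with y hy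
      rw [max_eq_left (le_of_lt hy)]
    have h2 : HasDerivAt (fun z : ℝ => z ^ 2) (2 * z) z := by simpa using hasDerivAt_pow 2 z
    have h3 := h2.congr_of_eventuallyEq h1
    rw [max_eq_left h.le]; exact h3

/-- composition with a function of one variable -/
private theorem w1_comp {n : ℕ} {Ω : Set (Sp n)} (hΩ : IsOpen Ω) {φ : Sp n → ℝ}
    {Dφ : Sp n → Sp n} (h : C1 Ω φ Dφ) {G G' : ℝ → ℝ}
    (hG : ∀ x ∈ closure Ω, HasDerivAt G (G' (φ x)) (φ x))
    (hc : ContinuousOn (fun x => G' (φ x)) (closure Ω)) :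
    C1 Ω (fun x => G (φ x)) (fun x => G' (φ x) • Dφ x) := by
  have h1 := p_A1 (ι := Unit) Ω hΩ (fun _ => φ) (fun _ => Dφ) (fun _ => h)
    (fun p => G (p ())) (fun _ p => G' (p ())) (by
      intro x hx
      have h2 := (hG x hx).comp_hasFDerivAt (f := fun p : Unit → ℝ => p ()) (fun _ => φ x)
        (hasFDerivAt_apply (𝕜 := ℝ) (F' := fun _ : Unit => ℝ) () _)
      refine (h2.congr_of_eventuallyEq (Eventually.of_forall fun p => rfl)).congr_fderiv ?_
      ext v
      simp) (fun _ => hc)
  simpa using h1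

/-- the test with a monotone function of the solution -/
private theorem w1_core {n : ℕ} {Ω : Set (Sp n)} (hΩ : IsOpen Ω) (hb : Bornology.IsBounded Ω)
    {φ g : Sp n → ℝ} {Dφ : Sp n → Sp n} (h : NeuLap Ω φ Dφ g) {G G' : ℝ → ℝ}
    (hG : ∀ t, HasDerivAt G (G' t) t) (hc : Continuous G') (h0 : ∀ t, 0 ≤ G' t)
    (hs : ∀ x ∈ closure Ω, 0 ≤ g x * G (φ x)) : ∀ x ∈ Ω, g x * G (φ x) = 0 := by
  have hGc : Continuous G := continuous_iff_continuousAt.2 fun t => (hG t).continuousAt
  have h1 := w1_comp hΩ h.c1 (G := G) (G' := G') (fun x _ => hG (φ x))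
    (hc.comp_continuousOn h.c1.cont)
  have h2 := h.green _ _ h1
  have h3 : ∫ x in Ω, g x * G (φ x) ≤ 0 := by
    rw [h2]
    have h4 : 0 ≤ ∫ x in Ω, inner ℝ (Dφ x) (G' (φ x) • Dφ x) := by
      refine setIntegral_nonneg hΩ.measurableSet fun x _ => ?_
      rw [inner_smul_right, real_inner_self_eq_norm_sq]
      exact mul_nonneg (h0 _) (sq_nonneg _)
    linarith
  have hcont : ContinuousOn (fun x => g x * G (φ x)) (closure Ω) :=
    h.cont.mul (hGc.comp_continuousOn h.c1.cont)
  have hint : IntegrableOn (fun x => g x * G (φ x)) Ω := p_A2 Ω hb _ hcont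
  have hnn : 0 ≤ᵐ[volume.restrict Ω] fun x => g x * G (φ x) := by
    filter_upwards [ae_restrict_mem hΩ.measurableSet] with x hx
    exact hs x (subset_closure hx)
  have h5 : ∫ x in Ω, g x * G (φ x) = 0 :=
    le_antisymm h3 (integral_nonneg_of_ae hnn)
  have h6 := (setIntegral_eq_zero_iff_of_nonneg_ae hnn hint).1 h5
  have h7 := Measure.eqOn_open_of_ae_eq h6 hΩ (hcont.mono subset_closure) continuousOn_const
  intro x hx
  exact h7 hx

/-- **W1** -/
theorem p_W1 : StmW1 := by
  intro n Ω hΩ hb d hd m _ m₁ m₂ hm₁ hm θ Dθ lθ hst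
  have hcθ := hst.lap.c1.cont
  have heq : ∀ x ∈ closure Ω, lθ x = θ x * (θ x - m x) / d := by
    intro x hx
    have h1 := hst.eq x hx
    rw [eq_div_iff hd.ne']
    linarith
  -- upper bound
  have hU : ∀ x ∈ Ω, θ x ≤ m₂ := by
    have h1 := w1_core hΩ hb hst.lap (G := fun t => max (t - m₂) 0 ^ 2)
      (G' := fun t => 2 * max (t - m₂) 0) (fun t => by
        have h2 := (w1_sq (t - m₂)).comp t ((hasDerivAt_id t).sub_const m₂)
        rw [mul_one] at h2
        exact h2) (by fun_prop) (fun t => by positivity) (by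
        intro x hx
        have h3 := (hm x hx).2
        have h4 := hst.pos x hx
        rcases le_or_gt (θ x) m₂ with h | h
        · rw [max_eq_right (by linarith : θ x - m₂ ≤ 0)]
          simp
        · rw [heq x hx]
          have h5 : 0 ≤ θ x - m x := by linarith
          positivity)
    intro x hx
    by_contra h
    have h := not_le.1 h
    have hx' := subset_closure hx
    have h2 := h1 x hx
    have h3 := (hm x hx').2
    have h4 := hst.pos x hx'
    have h2' : lθ x * max (θ x - m₂) 0 ^ 2 = 0 := h2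
    rw [heq x hx', max_eq_left (by linarith : 0 ≤ θ x - m₂)] at h2'
    have h5 : 0 < θ x - m x := by linarith
    have h6 : 0 < θ x - m₂ := by linarith
    have h7 : 0 < θ x * (θ x - m x) / d * (θ x - m₂) ^ 2 := by positivity
    exact h7.ne' h2'
  -- lower bound
  have hL : ∀ x ∈ Ω, m₁ ≤ θ x := by
    have h1 := w1_core hΩ hb hst.lap (G := fun t => -(max (m₁ - t) 0 ^ 2))
      (G' := fun t => 2 * max (m₁ - t) 0) (fun t => by
        have h2 := ((w1_sq (m₁ - t)).comp t ((hasDerivAt_id t).const_sub m₁)).neg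
        have h3 : -(2 * max (m₁ - t) 0 * -1) = 2 * max (m₁ - t) 0 := by ring
        rw [h3] at h2
        exact h2) (by fun_prop) (fun t => by positivity) (by
        intro x hx
        have h3 := (hm x hx).1
        have h4 := hst.pos x hx
        rcases le_or_gt m₁ (θ x) with h | h
        · rw [max_eq_right (by linarith : m₁ - θ x ≤ 0)]
          simp
        · rw [heq x hx]
          have h5 : 0 ≤ m x - θ x := by linarith
          have h6 : θ x * (θ x - m x) / d * -(max (m₁ - θ x) 0 ^ 2) =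
              θ x * (m x - θ x) / d * (max (m₁ - θ x) 0 ^ 2) := by ring
          rw [h6]
          positivity)
    intro x hx
    by_contra h
    have h := not_le.1 h
    have hx' := subset_closure hx
    have h2 := h1 x hx
    have h3 := (hm x hx').1
    have h4 := hst.pos x hx'
    have h2' : lθ x * -(max (m₁ - θ x) 0 ^ 2) = 0 := h2
    rw [heq x hx', max_eq_left (by linarith : 0 ≤ m₁ - θ x)] at h2'
    have h5 : 0 < m x - θ x := by linarith
    have h6 : 0 < m₁ - θ x := by linarith
    have h7 : 0 < θ x * (m x - θ x) / d * (m₁ - θ x) ^ 2 := by positivity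
    have h8 : θ x * (θ x - m x) / d * -((m₁ - θ x) ^ 2) =
        θ x * (m x - θ x) / d * (m₁ - θ x) ^ 2 := by ring
    rw [h8] at h2'
    exact h7.ne' h2'
  -- closure
  intro x hx
  have hx1 : x ∈ closure Ω := hx
  obtain ⟨s, hs, hlim⟩ := mem_closure_iff_seq_limit.1 hx1
  have ht : Tendsto (fun i => θ (s i)) atTop (𝓝 (θ x)) := by
    have h1 := hcθ x hx
    refine h1.tendsto.comp ?_
    rw [tendsto_nhdsWithin_iff]
    exact ⟨hlim, Eventually.of_forall fun i => subset_closure (hs i)⟩
  exact ⟨ge_of_tendsto' ht fun i => hL _ (hs i), le_of_tendsto' ht fun i => hU _ (hs i)⟩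

end Pool.Agent.Lib.MP_d8ef8f_an.Rf
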