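import Pool.Agent.Lib.MP_d8ef8f_an.Rf.Stm
import Pool.Agent.Lib.MP_d8ef8f_an.Gd.A2

/-!
# W2: weighted gradient estimate
-/

set_option autoImplicit false

namespace Pool.Agent.Lib.MP_d8ef8f_an.Rf

open Set Filter Topology MeasureTheory
open Pool.Agent.Lib.MP_d8ef8f_an.Gd Pool.Agent.Lib.MP_d8ef8f_an.Ff

/-- the test function `(θ - c) V²` -/
private lemma c1test {n : ℕ} (Ω : Set (Sp n)) (θ V : Sp n → ℝ) (Dθ DV : Sp n → Sp n) (c : ℝ)
    (hθ : C1 Ω θ Dθ) (hV : C1 Ω V DV) :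
    C1 Ω (fun x => (θ x - c) * V x ^ 2)
      (fun x => V x ^ 2 • Dθ x + (2 * (θ x - c) * V x) • DV x) := by
  refine ⟨?_, ?_, ?_⟩
  · exact (hθ.cont.sub continuousOn_const).mul (hV.cont.pow 2)
  · exact ((hV.cont.pow 2).smul hθ.contD).add
      (((continuousOn_const.mul (hθ.cont.sub continuousOn_const)).mul hV.cont).smul hV.contD)
  · intro x hx
    have h1 := (hθ.grad x hx).hasFDerivAt
    have h2 := (hV.grad x hx).hasFDerivAt
    rw [hasGradientAt_iff_hasFDerivAt]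
    have h3 := (h1.sub_const c).mul (h2.pow 2)
    refine h3.congr_fderiv ?_
    ext v
    simp only [add_apply, smul_apply,
      InnerProductSpace.toDual_apply_apply, smul_eq_mul, map_add, map_smul, nsmul_eq_mul]
    simp
    ring

private lemma pw (ω t mm th c N NV W V I : ℝ) (hω : 0 ≤ ω) (hth : 0 ≤ th)
    (h1 : |mm - c| ≤ ω) (h2 : |th - c| ≤ ω)
    (hI : |I| ≤ N * NV) (ht : 0 ≤ t) (hW : W = V ^ 2) :
    th * (mm - th) * ((th - c) * W) - t * (2 * (th - c) * V * I) ≤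
      t / 2 * (N ^ 2 * W) + 2 * ω ^ 2 * t * NV ^ 2 + ω ^ 2 / 4 * (th * W) := by
  subst hW
  have h3 : (mm - th) * (th - c) ≤ ω ^ 2 / 4 := by
    have := abs_le.1 h1
    nlinarith [sq_nonneg (2 * (th - c) - (mm - c)), mul_nonneg (sub_nonneg.2 this.2)
      (by linarith : 0 ≤ ω + (mm - c))]
  have h4 : th * (mm - th) * ((th - c) * V ^ 2) ≤ ω ^ 2 / 4 * (th * V ^ 2) := by
    have h5 : 0 ≤ th * V ^ 2 := mul_nonneg hth (sq_nonneg _)
    calc th * (mm - th) * ((th - c) * V ^ 2) = (mm - th) * (th - c) * (th * V ^ 2) := by ring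
      _ ≤ _ := mul_le_mul_of_nonneg_right h3 h5
  have h6 : -(2 * (th - c) * V * I) ≤ N ^ 2 * V ^ 2 / 2 + 2 * ω ^ 2 * NV ^ 2 := by
    have h7 : |(th - c) * V * I| ≤ ω * |V| * (N * NV) := by
      rw [abs_mul, abs_mul]
      exact mul_le_mul (mul_le_mul_of_nonneg_right h2 (abs_nonneg _)) hI (abs_nonneg _)
        (mul_nonneg hω (abs_nonneg _))
    have h8 : -((th - c) * V * I) ≤ ω * |V| * (N * NV) := (neg_le_abs _).trans h7
    have h9 : 2 * (ω * |V| * (N * NV)) ≤ N ^ 2 * V ^ 2 / 2 + 2 * ω ^ 2 * NV ^ 2 := by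
      have h10 : |V| ^ 2 = V ^ 2 := sq_abs V
      nlinarith [sq_nonneg (N * |V| - 2 * ω * NV), h10]
    nlinarith [h8, h9]
  have h11 := mul_le_mul_of_nonneg_left h6 ht
  nlinarith [h4, h11]

theorem p_W2 : StmW2 := by
  intro n Ω hΩ hb d hd m hm θ Dθ lθ hst c ω hω hbd V DV hV
  have hθ := hst.lap.c1
  have hg := hst.lap.green _ _ (c1test Ω θ V Dθ DV c hθ hV)
  have hcl : ContinuousOn lθ (closure Ω) := hst.lap.cont
  -- integrability
  have i1 : IntegrableOn (fun x => ‖Dθ x‖ ^ 2 * V x ^ 2) Ω :=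
    p_A2 Ω hb _ ((hθ.contD.norm.pow 2).mul (hV.cont.pow 2))
  have i2 : IntegrableOn (fun x => ‖DV x‖ ^ 2) Ω := p_A2 Ω hb _ (hV.contD.norm.pow 2)
  have i3 : IntegrableOn (fun x => θ x * V x ^ 2) Ω :=
    p_A2 Ω hb _ (hθ.cont.mul (hV.cont.pow 2))
  have i4 : IntegrableOn (fun x => θ x * (m x - θ x) * ((θ x - c) * V x ^ 2)) Ω :=
    p_A2 Ω hb _ ((hθ.cont.mul (hm.sub hθ.cont)).mul
      ((hθ.cont.sub continuousOn_const).mul (hV.cont.pow 2)))
  have i5 : IntegrableOn (fun x => 2 * (θ x - c) * V x * inner ℝ (Dθ x) (DV x)) Ω :=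
    p_A2 Ω hb _ (((continuousOn_const.mul (hθ.cont.sub continuousOn_const)).mul hV.cont).mul
      (hθ.contD.inner hV.contD))
  -- the right side of Green
  have e1 : ∫ x in Ω, inner ℝ (Dθ x) (V x ^ 2 • Dθ x + (2 * (θ x - c) * V x) • DV x)
      = (∫ x in Ω, ‖Dθ x‖ ^ 2 * V x ^ 2)
        + ∫ x in Ω, 2 * (θ x - c) * V x * inner ℝ (Dθ x) (DV x) := by
    rw [← integral_add i1 i5]
    refine integral_congr_ae (Eventually.of_forall fun x => ?_)
    simp only [inner_add_right, inner_smul_right, real_inner_self_eq_norm_sq]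
    ring
  have e2 : d * (∫ x in Ω, lθ x * ((θ x - c) * V x ^ 2))
      = - ∫ x in Ω, θ x * (m x - θ x) * ((θ x - c) * V x ^ 2) := by
    rw [← integral_const_mul, ← integral_neg]
    refine setIntegral_congr_fun hΩ.measurableSet fun x hx => ?_
    have := hst.eq x (subset_closure hx)
    have h1 : d * lθ x = - (θ x * (m x - θ x)) := by linarith
    calc d * (lθ x * ((θ x - c) * V x ^ 2)) = (d * lθ x) * ((θ x - c) * V x ^ 2) := by ring
      _ = _ := by rw [h1]; ring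
  rw [e1] at hg
  -- pointwise bound
  have e3 : (∫ x in Ω, (θ x * (m x - θ x) * ((θ x - c) * V x ^ 2)
      - d * (2 * (θ x - c) * V x * inner ℝ (Dθ x) (DV x)))) ≤
      ∫ x in Ω, (d / 2 * (‖Dθ x‖ ^ 2 * V x ^ 2) + 2 * ω ^ 2 * d * ‖DV x‖ ^ 2
        + ω ^ 2 / 4 * (θ x * V x ^ 2)) := by
    refine setIntegral_mono_on (i4.sub (i5.const_mul d))
      (((i1.const_mul _).add (i2.const_mul _)).add (i3.const_mul _)) hΩ.measurableSet ?_
    intro x hx
    have hx' := subset_closure hx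
    exact pw ω d (m x) (θ x) c ‖Dθ x‖ ‖DV x‖ _ (V x) _ hω (hst.pos x hx').le
      (hbd x hx').1 (hbd x hx').2 (abs_real_inner_le_norm _ _)
      hd.le rfl
  have e4 : (∫ x in Ω, (θ x * (m x - θ x) * ((θ x - c) * V x ^ 2)
      - d * (2 * (θ x - c) * V x * inner ℝ (Dθ x) (DV x))))
      = (∫ x in Ω, θ x * (m x - θ x) * ((θ x - c) * V x ^ 2))
        - d * ∫ x in Ω, 2 * (θ x - c) * V x * inner ℝ (Dθ x) (DV x) := by
    rw [integral_sub i4 (i5.const_mul d), integral_const_mul]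
  have e5 : (∫ x in Ω, (d / 2 * (‖Dθ x‖ ^ 2 * V x ^ 2) + 2 * ω ^ 2 * d * ‖DV x‖ ^ 2
        + ω ^ 2 / 4 * (θ x * V x ^ 2)))
      = d / 2 * (∫ x in Ω, ‖Dθ x‖ ^ 2 * V x ^ 2) + 2 * ω ^ 2 * d * (∫ x in Ω, ‖DV x‖ ^ 2)
        + ω ^ 2 / 4 * ∫ x in Ω, θ x * V x ^ 2 := by
    have j1 : IntegrableOn (fun x => d / 2 * (‖Dθ x‖ ^ 2 * V x ^ 2)
        + 2 * ω ^ 2 * d * ‖DV x‖ ^ 2) Ω := (i1.const_mul _).add (i2.const_mul _)
    rw [integral_add j1 (i3.const_mul _),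
      integral_add (i1.const_mul _) (i2.const_mul _), integral_const_mul, integral_const_mul,
      integral_const_mul]
  rw [e4, e5] at e3
  rw [hg] at e2
  nlinarith [e2, e3]

end Pool.Agent.Lib.MP_d8ef8f_an.Rf
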