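import Pool.Agent.Lib.MP_d8ef8f_an.Rf.Stv

/-!
# Piece E1e: the error term (approximate densities)
-/

set_option autoImplicit false

namespace Pool.Agent.Lib.MP_d8ef8f_an.Rf

open Set Filter Topology MeasureTheory
open Pool.Agent.Lib.MP_d8ef8f_an.Gd Pool.Agent.Lib.MP_d8ef8f_an.Ff

private theorem E1_scalar (ε p : ℝ) (hε : 0 < ε) (hε1 : ε < 1) (hp : ε ≤ p) :
    ε / p ≤ (1 + max 0 (- Real.log p)) / (- Real.log ε) := by
  have hE : 0 < - Real.log ε := by
    have := Real.log_neg hε hε1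
    linarith
  have hp0 : 0 < p := lt_of_lt_of_le hε hp
  have hr0 : 0 < ε / p := div_pos hε hp0
  have hr1 : ε / p ≤ 1 := (div_le_one hp0).2 hp
  have hlog : Real.log (ε / p) = Real.log ε - Real.log p :=
    Real.log_div hε.ne' hp0.ne'
  have h1 : - Real.log (ε / p) ≤ (ε / p)⁻¹ - 1 := by
    have := Real.log_le_sub_one_of_pos (inv_pos.2 hr0)
    rw [Real.log_inv] at this
    exact this
  have h2 : (ε / p) * (- Real.log (ε / p)) ≤ 1 - ε / p := by
    have := mul_le_mul_of_nonneg_left h1 hr0.le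
    have h3 : (ε / p) * ((ε / p)⁻¹ - 1) = 1 - ε / p := by
      rw [mul_sub, mul_inv_cancel₀ hr0.ne', mul_one]
    linarith
  have h4 : (ε / p) * (- Real.log p) ≤ (ε / p) * max 0 (- Real.log p) :=
    mul_le_mul_of_nonneg_left (le_max_right _ _) hr0.le
  have h5 : (ε / p) * max 0 (- Real.log p) ≤ max 0 (- Real.log p) :=
    mul_le_of_le_one_left (le_max_left _ _) hr1
  rw [le_div_iff₀ hE]
  have h6 : (ε / p) * (- Real.log ε) =
      (ε / p) * (- Real.log (ε / p)) + (ε / p) * (- Real.log p) := by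
    rw [hlog]; ring
  rw [h6]
  linarith

theorem p_E1v (a2 : StmA2) : StmE1v := by
  intro n N Ω d m k θ Dθ lθ P hB M
  have hθc : ContinuousOn θ (closure Ω) := hB.st.lap.c1.cont
  have hcomp : IsCompact (closure Ω) := hB.bdd.isCompact_closure
  have hne : (closure Ω).Nonempty := hB.nonempty.closure
  obtain ⟨x₀, hx₀, hmin⟩ := hcomp.exists_isMinOn hne hθc
  have hmin' : ∀ x ∈ closure Ω, θ x₀ ≤ θ x := fun x hx => hmin hx
  have hθ0 : 0 < θ x₀ := hB.st.pos x₀ hx₀
  refine ⟨N * (max M 0 / θ x₀) + 1, ?_⟩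
  intro L hL c C hc hC M' η hη
  -- the constant
  have hK : ∃ K : ℝ, K = (1 + C) * volume.real Ω +
      C / θ x₀ ^ 2 * (M' - (-C) * ∫ x in Ω, θ x ^ 2) := ⟨_, rfl⟩
  obtain ⟨K, hK⟩ := hK
  have hexp : 0 < |K| / η + 1 := by positivity
  refine ⟨Real.exp (-(|K| / η + 1)), Real.exp_pos _, ?_, ?_⟩
  · rw [Real.exp_le_one_iff]; linarith
  intro e he he1 f g h hD hb ε hε hε0 u huc hu hPhi
  have hε1 : ε < 1 := lt_of_le_of_lt hε0 (by rw [Real.exp_lt_one_iff]; linarith)
  have hE : |K| / η + 1 ≤ - Real.log ε := by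
    have := Real.log_le_log hε hε0
    rw [Real.log_exp] at this
    linarith
  have hE0 : 0 < - Real.log ε := lt_of_lt_of_le hexp hE
  -- admissibility
  have hθx : ∀ x ∈ closure Ω, 0 < θ x := hB.st.pos
  have hs0 : ∀ x ∈ closure Ω, ∀ j, 0 ≤ sh k ε θ (fun j => u j) x j := by
    intro x hx j
    unfold sh
    have h1 : 0 ≤ u j x / θ x := div_nonneg (hu j x hx).1 (hθx x hx).le
    split_ifs
    · linarith
    · linarith
  have hsk : ∀ x, sh k ε θ (fun j => u j) x k = u k x / θ x + ε := by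
    intro x
    unfold sh
    simp
  have hskε : ∀ x ∈ closure Ω, ε ≤ sh k ε θ (fun j => u j) x k := by
    intro x hx
    rw [hsk]
    have h1 : 0 ≤ u k x / θ x := div_nonneg (hu k x hx).1 (hθx x hx).le
    linarith
  have hAdm : ∀ x ∈ closure Ω, Adm k L (sh k ε θ (fun j => u j) x) := by
    intro x hx
    refine ⟨lt_of_lt_of_le hε (hskε x hx), hs0 x hx, le_trans ?_ hL⟩
    have hub : ∀ j, u j x / θ x ≤ max M 0 / θ x₀ := by
      intro j
      apply div_le_div₀ (le_max_right _ _) _ hθ0 (hmin' x hx)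
      exact le_trans (hu j x hx).2 (le_max_left _ _)
    have h1 : len k (sh k ε θ (fun j => u j) x) =
        ∑ j ∈ insert k (Finset.univ.filter (fun j => k < j)), sh k ε θ (fun j => u j) x j := by
      rw [Finset.sum_insert (by simp)]
      rfl
    have h2 : ∑ j ∈ insert k (Finset.univ.filter (fun j => k < j)), sh k ε θ (fun j => u j) x j ≤
        ∑ j, sh k ε θ (fun j => u j) x j :=
      Finset.sum_le_sum_of_subset_of_nonneg (Finset.subset_univ _)
        (fun j _ _ => hs0 x hx j)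
    have h3 : ∑ j, sh k ε θ (fun j => u j) x j = (∑ j, u j x / θ x) + ε := by
      unfold sh
      rw [Finset.sum_add_distrib]
      simp
    have h4 : (∑ j, u j x / θ x) ≤ ∑ j : Fin N, max M 0 / θ x₀ :=
      Finset.sum_le_sum (fun j _ => hub j)
    rw [Finset.sum_const, Finset.card_univ, Fintype.card_fin, nsmul_eq_mul] at h4
    rw [h1]
    linarith
  -- pointwise bound
  have hpt : ∀ x ∈ closure Ω, ε / (u k x / θ x + ε) ≤
      (1 / (- Real.log ε)) * ((1 + C) + C / θ x₀ ^ 2 *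
        (θ x ^ 2 * f (sh k ε θ (fun j => u j) x) - (-C) * θ x ^ 2)) := by
    intro x hx
    have h5 := hb.fl _ (hAdm x hx)
    have h6 := hb.lg _ (hAdm x hx)
    have hA : 0 ≤ f (sh k ε θ (fun j => u j) x) - (-C) := by
      have hSab : 0 ≤ Sab k (sh k ε θ (fun j => u j) x) ^ 2 := sq_nonneg _
      have : 0 ≤ c * (|sh k ε θ (fun j => u j) x k - 1| ^ 3 +
          Sab k (sh k ε θ (fun j => u j) x) ^ 2) := by positivity
      have : C * e ≤ C := mul_le_of_le_one_right hC.le he1
      linarith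
    have h7 : max 0 (- Real.log (sh k ε θ (fun j => u j) x k)) ≤
        C * (1 + (f (sh k ε θ (fun j => u j) x) - (-C))) := by
      apply max_le
      · positivity
      · have : 0 ≤ C * C := by positivity
        linarith
    have h8 := E1_scalar ε _ hε hε1 (hskε x hx)
    rw [← hsk x]
    refine le_trans h8 ?_
    rw [div_eq_mul_inv, mul_comm, ← one_div]
    apply mul_le_mul_of_nonneg_left _ (by positivity)
    have h9 : 1 ≤ θ x ^ 2 / θ x₀ ^ 2 := by
      rw [one_le_div (by positivity)]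
      exact pow_le_pow_left₀ hθ0.le (hmin' x hx) 2
    have h10 : C * (f (sh k ε θ (fun j => u j) x) - (-C)) ≤
        (C * (f (sh k ε θ (fun j => u j) x) - (-C))) * (θ x ^ 2 / θ x₀ ^ 2) :=
      le_mul_of_one_le_right (by positivity) h9
    have h11 : (C * (f (sh k ε θ (fun j => u j) x) - (-C))) * (θ x ^ 2 / θ x₀ ^ 2) =
        C / θ x₀ ^ 2 *
        (θ x ^ 2 * f (sh k ε θ (fun j => u j) x) - (-C) * θ x ^ 2) := by
      ring
    linarith
  -- continuity
  have hsc : ContinuousOn (fun x => sh k ε θ (fun j => u j) x) (closure Ω) := by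
    rw [continuousOn_pi]
    intro j
    unfold sh
    exact ((huc j).div hθc (fun x hx => (hθx x hx).ne')).add continuousOn_const
  have hfc : ContinuousOn (fun x => f (sh k ε θ (fun j => u j) x)) (closure Ω) := by
    intro x hx
    have h1 : ContinuousAt f (sh k ε θ (fun j => u j) x) :=
      (hD.df _ (lt_of_lt_of_le hε (hskε x hx)) (hs0 x hx)).continuousAt
    exact ContinuousAt.comp_continuousWithinAt h1 (hsc x hx)
  have hI1 : IntegrableOn (fun x => ε / (u k x / θ x + ε)) Ω := by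
    apply a2 Ω hB.bdd
    apply continuousOn_const.div
    · exact ((huc k).div hθc (fun x hx => (hθx x hx).ne')).add continuousOn_const
    · intro x hx
      have := hskε x hx
      rw [hsk] at this
      linarith
  have hI2 : IntegrableOn (fun x => θ x ^ 2 * f (sh k ε θ (fun j => u j) x)) Ω :=
    a2 Ω hB.bdd _ ((hθc.pow 2).mul hfc)
  have hI3 : IntegrableOn (fun x => (-C) * θ x ^ 2) Ω :=
    a2 Ω hB.bdd _ (continuousOn_const.mul (hθc.pow 2))
  have hI4 : IntegrableOn (fun _ : Sp n => (1 + C : ℝ)) Ω :=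
    a2 Ω hB.bdd _ continuousOn_const
  have hI5 : IntegrableOn (fun x => C / θ x₀ ^ 2 *
        (θ x ^ 2 * f (sh k ε θ (fun j => u j) x) - (-C) * θ x ^ 2)) Ω :=
    (hI2.sub hI3).const_mul _
  have hint : ∫ x in Ω, ε / (u k x / θ x + ε) ≤
      ∫ x in Ω, (1 / (- Real.log ε)) * ((1 + C) + C / θ x₀ ^ 2 *
        (θ x ^ 2 * f (sh k ε θ (fun j => u j) x) - (-C) * θ x ^ 2)) := by
    apply setIntegral_mono_on hI1 ((hI4.add hI5).const_mul _) hB.isOpen.measurableSet
    intro x hx
    exact hpt x (subset_closure hx)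
  have hval : ∫ x in Ω, (1 / (- Real.log ε)) * ((1 + C) + C / θ x₀ ^ 2 *
        (θ x ^ 2 * f (sh k ε θ (fun j => u j) x) - (-C) * θ x ^ 2)) =
      (1 / (- Real.log ε)) * ((1 + C) * volume.real Ω + C / θ x₀ ^ 2 *
        (Phi Ω k f θ ε (fun j => u j) - (-C) * ∫ x in Ω, θ x ^ 2)) := by
    rw [integral_const_mul, integral_add hI4 hI5, integral_const_mul, integral_sub hI2 hI3,
      integral_const_mul, setIntegral_const, smul_eq_mul, mul_comm (volume.real Ω)]
    rfl
  rw [hval] at hint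
  refine le_trans hint ?_
  have hfin : (1 + C) * volume.real Ω + C / θ x₀ ^ 2 *
        (Phi Ω k f θ ε (fun j => u j) - (-C) * ∫ x in Ω, θ x ^ 2) ≤ K := by
    rw [hK]
    have : C / θ x₀ ^ 2 * (Phi Ω k f θ ε (fun j => u j) - (-C) * ∫ x in Ω, θ x ^ 2) ≤
        C / θ x₀ ^ 2 * (M' - (-C) * ∫ x in Ω, θ x ^ 2) := by
      apply mul_le_mul_of_nonneg_left _ (by positivity)
      have : Phi Ω k f θ ε (fun j => u j) ≤ M' := hPhi
      linarith
    linarith
  have h12 : (1 / (- Real.log ε)) * ((1 + C) * volume.real Ω + C / θ x₀ ^ 2 *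
        (Phi Ω k f θ ε (fun j => u j) - (-C) * ∫ x in Ω, θ x ^ 2)) ≤
      (1 / (- Real.log ε)) * K := mul_le_mul_of_nonneg_left hfin (by positivity)
  refine le_trans h12 ?_
  rw [one_div, inv_mul_le_iff₀ hE0]
  have h13 : (|K| / η + 1) * η ≤ (- Real.log ε) * η := mul_le_mul_of_nonneg_right hE hη.le
  have h14 : (|K| / η + 1) * η = |K| + η := by
    field_simp
  have h15 := le_abs_self K
  linarith

end Pool.Agent.Lib.MP_d8ef8f_an.Rf
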