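import Pool.Agent.Lib.MP_d8ef8f_an.Rf.F1
import Pool.Agent.Lib.MP_d8ef8f_an.Rf.F2
import Pool.Agent.Lib.MP_d8ef8f_an.Rf.F3
import Pool.Agent.Lib.MP_d8ef8f_an.Rf.CP1
import Pool.Agent.Lib.MP_d8ef8f_an.Rf.CP2
import Pool.Agent.Lib.MP_d8ef8f_an.Rf.Al
import Pool.Agent.Lib.MP_d8ef8f_an.Rf.Q
import Pool.Agent.Lib.MP_d8ef8f_an.Rf.B
import Pool.Agent.Lib.MP_d8ef8f_an.Rf.G1
import Pool.Agent.Lib.MP_d8ef8f_an.Rf.G2
import Pool.Agent.Lib.MP_d8ef8f_an.Rf.G3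
import Pool.Agent.Lib.MP_d8ef8f_an.Rf.Gb
import Pool.Agent.Lib.MP_d8ef8f_an.Rf.W1
import Pool.Agent.Lib.MP_d8ef8f_an.Rf.W2
import Pool.Agent.Lib.MP_d8ef8f_an.Rf.Bw
import Pool.Agent.Lib.MP_d8ef8f_an.Rf.Zr
import Pool.Agent.Lib.MP_d8ef8f_an.Rf.Au
import Pool.Agent.Lib.MP_d8ef8f_an.Rf.Dom
import Pool.Agent.Lib.MP_d8ef8f_an.Uf.Main

/-!
# Three species with rates within a factor four: assembly
-/

set_option autoImplicit false

namespace Pool.Agent.Lib.MP_d8ef8f_an.Rf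

open Set Filter Topology MeasureTheory
open Pool.Agent.Lib.MP_d8ef8f_an.Gd Pool.Agent.Lib.MP_d8ef8f_an.Ff

theorem q_all : StmQ := p_Q p_F3 (p_Al p_P1 p_P2)

theorem gb_all : StmGb := p_Gb p_G1 p_G2 p_G3

theorem bw_all : StmBw := p_Bw p_W1 p_W2

/-- attraction towards `E_k` when exactly two species are above `k` -/
def Good {n : ℕ} (Ω : Set (Sp n)) (m : Sp n → ℝ) : Prop :=
  ∀ {N : ℕ} (d : Fin N → ℝ), (∀ j, 0 < d j) → ∀ (k j1 j2 : Fin N), k < j1 → k < j2 → j1 ≠ j2 →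
    (∀ j, k < j → j = j1 ∨ j = j2) → d k < d j1 → d j1 ≤ d j2 → d j2 ≤ 4 * d k →
    ∀ (θ : Sp n → ℝ), IsSteady Ω (d k) m θ → AttrU Ω d m k θ

private theorem base_of {n N : ℕ} {Ω : Set (Sp n)} (hΩ : Domain Ω) {m : Sp n → ℝ}
    (hm : ContinuousOn m (closure Ω)) (hnc : ∃ x ∈ closure Ω, ∃ y ∈ closure Ω, m x ≠ m y)
    {d : Fin N → ℝ} (hd : ∀ i, 0 < d i) (k : Fin N) {θ : Sp n → ℝ} {Dθ : Sp n → Sp n}
    {lθ : Sp n → ℝ} (hst : Steady Ω (d k) m θ Dθ lθ) : ∃ P, Base Ω d m k θ Dθ lθ P := by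
  obtain ⟨P, hP0, hP⟩ := p_P Ω hΩ
  exact ⟨P,
    { isOpen := hΩ.isOpen, nonempty := hΩ.nonempty, bdd := hΩ.bdd, poinc := hP, hP := hP0,
      hd := hd, hm := hm, st := hst,
      nc := Gd.p_F2 p_A2 Ω hΩ.isOpen hΩ.nonempty hΩ.bdd P hP (d k) (hd k) m hm hnc θ Dθ lθ hst }⟩

/-- **intervals** -/
theorem good_interval {Ω : Set (Sp 1)} (hΩ : Domain Ω) {m : Sp 1 → ℝ}
    (hm : ContinuousOn m (closure Ω)) (hnc : ∃ x ∈ closure Ω, ∃ y ∈ closure Ω, m x ≠ m y)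
    (hm0 : ∀ x ∈ closure Ω, 0 ≤ m x) : Good Ω m := by
  intro N d hd k j1 j2 hk1 hk2 h12 hall hd1 hd2 hd4 θ hθ
  obtain ⟨Dθ, lθ, hst⟩ := hθ
  obtain ⟨P, hB⟩ := base_of hΩ hm hnc hd k hst
  obtain ⟨w, c, hF, hQ⟩ := q_all d k j1 j2 (hd k) hk1 hk2 h12 hall hd1 hd2 hd4
  have hC := p_F1 k w c hF
  obtain ⟨hR, hV⟩ := p_F2 k w c hF
  have hGB : GB Ω (d k) θ Dθ :=
    gb_all Ω hΩ.isOpen hΩ.nonempty hΩ.conn hΩ.bdd (d k) (hd k) m hm0 θ Dθ lθ hst
  intro M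
  exact p_Zr Ω d m k θ Dθ lθ P hB _ _ _ hC hV M (p_B Ω d m k θ Dθ lθ P hB hGB _ _ _ hC hR hQ M)

/-- **weakly heterogeneous resources** -/
theorem good_weak {n : ℕ} {Ω : Set (Sp n)} (hΩ : Domain Ω) {m : Sp n → ℝ}
    (hm : ContinuousOn m (closure Ω)) (hnc : ∃ x ∈ closure Ω, ∃ y ∈ closure Ω, m x ≠ m y)
    {m₁ : ℝ} (h1 : 0 < m₁) (hm1 : ∀ x ∈ closure Ω, m₁ ≤ m x ∧ m x ≤ 101 / 100 * m₁) :
    Good Ω m := by
  intro N d hd k j1 j2 hk1 hk2 h12 hall hd1 hd2 hd4 θ hθ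
  obtain ⟨Dθ, lθ, hst⟩ := hθ
  obtain ⟨P, hB⟩ := base_of hΩ hm hnc hd k hst
  obtain ⟨w, c, hF, hQ⟩ := q_all d k j1 j2 (hd k) hk1 hk2 h12 hall hd1 hd2 hd4
  have hC := p_F1 k w c hF
  obtain ⟨hR, hV⟩ := p_F2 k w c hF
  have hcard : (Finset.univ.filter (fun j => k < j)).card ≤ 2 := by
    refine (Finset.card_le_card (t := {j1, j2}) ?_).trans Finset.card_le_two
    intro j hj
    rcases hall j (Finset.mem_filter.1 hj).2 with h | h <;> simp [h]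
  refine p_Au Ω hΩ.isOpen hΩ.bdd d hd m hm (101 / 100 * m₁) (by positivity)
    (fun x hx => (hm1 x hx).2) k θ ?_
  exact p_Zr Ω d m k θ Dθ lθ P hB _ _ _ hC hV _
    (bw_all Ω d m k θ Dθ lθ P hB m₁ h1 hm1 hcard _ _ _ hC hR hQ)

/-- **near attraction**, two species above `k` with rates at most `4 d k` -/
theorem near_four {n N : ℕ} {Ω : Set (Sp n)} (hb : Bornology.IsBounded Ω) {m : Sp n → ℝ}
    (hG : Good Ω m) {d : Fin N → ℝ} (hd : ∀ j, 0 < d j) (hmono : StrictMono d) (k l : Fin N)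
    (hl : (l : ℕ) = (k : ℕ) + 2) (h4 : d l ≤ 4 * d k) {θ : Sp n → ℝ}
    (hθ : IsSteady Ω (d k) m θ) :
    AttrSU Ω d m k θ (Finset.univ.filter (fun j => j < k) ∪
        Finset.univ.filter (fun j => l < j)) := by
  have hkl : k ≤ l := by
    rw [Fin.le_def]
    omega
  obtain ⟨σ, k', hk', hσ, habove⟩ := exists_perm_near k l hkl
  refine attrSU_of_perm hb σ k' k _ hk' hσ ?_
  have hN : (k : ℕ) + 1 < N := by
    have := l.isLt
    omega
  set i1 : Fin N := ⟨(k : ℕ) + 1, hN⟩ with hi1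
  have hup : ∀ i : Fin N, k < i → i ≤ l → k' < σ.symm i := by
    intro i hi hil
    rcases lt_trichotomy k' (σ.symm i) with h | h | h
    · exact h
    · exfalso
      have : k = i := by rw [← hk', h]; simp
      exact absurd this hi.ne
    · exfalso
      have h1 := (hσ _).1 h
      simp only [Equiv.apply_symm_apply, Finset.mem_union, Finset.mem_filter, Finset.mem_univ,
        true_and] at h1
      rcases h1 with h1 | h1
      · exact absurd h1 (not_lt.2 hi.le)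
      · exact absurd h1 (not_lt.2 hil)
  have hki1 : k < i1 := by
    rw [Fin.lt_def, hi1]
    simp
  have hi1l : i1 < l := by
    rw [Fin.lt_def, hi1]
    simp only
    omega
  have hkl' : k < l := hki1.trans hi1l
  refine hG (fun j => d (σ j)) (fun j => hd (σ j)) k' (σ.symm i1) (σ.symm l) (hup i1 hki1 hi1l.le)
    (hup l hkl' le_rfl) (fun h => hi1l.ne (σ.symm.injective h)) ?_ ?_ ?_ ?_ θ (by rw [hk']; exact hθ)
  · intro j hj
    obtain ⟨h1, h2⟩ := habove j hj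
    have h3 : σ j = i1 ∨ σ j = l := by
      rw [Fin.lt_def] at h1
      rw [Fin.le_def] at h2
      rcases Nat.lt_or_ge ((σ j : Fin N) : ℕ) ((k : ℕ) + 2) with h | h
      · left
        refine Fin.ext ?_
        rw [hi1]
        simp only
        omega
      · right
        refine Fin.ext ?_
        omega
    rcases h3 with h3 | h3
    · left
      rw [← h3]
      simp
    · right
      rw [← h3]
      simp
  · simp only [hk', Equiv.apply_symm_apply]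
    exact hmono hki1
  · simp only [Equiv.apply_symm_apply]
    exact hmono.monotone hi1l.le
  · simp only [hk', Equiv.apply_symm_apply]
    exact h4

end Pool.Agent.Lib.MP_d8ef8f_an.Rf
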