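import Pool.Agent.Lib.MP_d8ef8f_an.Ge.Main
import Pool.Agent.Lib.MP_d8ef8f_an.Uf.Stm

/-!
# Three species with rates within a factor four: statements of the pieces

Base species `k`, species `j1, j2` above `k` with `d k < d j1 ≤ d j2 ≤ 4 d k`. The density is
`f(s) = ∑ w_i Gl (ℓ_i(s))`, `Gl p = p - 1 - log p`, with the four linear forms
`ℓ_0 = s_k`, `ℓ_1 = s_k + (23/4) s_{j1}`, `ℓ_2 = s_k + s_{j1} + s_{j2}`,
`ℓ_3 = s_k + s_{j1} + (29/6) s_{j2}` and weights `19/37, 4/37, 8/37, 6/37`.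
It is a Lyapunov density if `d_k |∇θ|² ≤ (2/3) θ³` (always true on an interval if `m ≥ 0`) or if
`m` is close to a constant.
-/

set_option autoImplicit false

namespace Pool.Agent.Lib.MP_d8ef8f_an.Rf

open Set Filter Topology MeasureTheory
open Pool.Agent.Lib.MP_d8ef8f_an.Gd Pool.Agent.Lib.MP_d8ef8f_an.Ff

/-! ### densities from linear forms -/

/-- linear forms `ℓ_i(s) = ∑_j c_ij s_j` with weights `w_i` -/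
structure Fam {N r : ℕ} (k : Fin N) (w : Fin r → ℝ) (c : Fin r → Fin N → ℝ) : Prop where
  w0 : ∀ i, 0 ≤ w i
  ws : ∑ i, w i = 1
  c0 : ∀ i j, 0 ≤ c i j
  ck : ∀ i, c i k = 1
  lo : ∀ i j, j < k → c i j = 0
  cs : ∀ j, k < j → ∑ i, w i * c i j = 1
  f1 : ∃ i, 0 < w i ∧ ∀ j, j ≠ k → c i j = 0
  f2 : ∃ i, 0 < w i ∧ ∀ j, k < j → c i j = 1

/-- the linear form -/
def ell {N r : ℕ} (c : Fin r → Fin N → ℝ) (i : Fin r) (s : Fin N → ℝ) : ℝ := ∑ j, c i j * s j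

/-- the density -/
noncomputable def ff {N r : ℕ} (w : Fin r → ℝ) (c : Fin r → Fin N → ℝ) (s : Fin N → ℝ) : ℝ :=
  ∑ i, w i * Gl (ell c i s)

/-- its gradient -/
noncomputable def fg {N r : ℕ} (w : Fin r → ℝ) (c : Fin r → Fin N → ℝ) (j : Fin N)
    (s : Fin N → ℝ) : ℝ :=
  ∑ i, w i * (c i j * (1 - 1 / ell c i s))

/-- its Hessian -/
noncomputable def fh {N r : ℕ} (w : Fin r → ℝ) (c : Fin r → Fin N → ℝ) (j l : Fin N)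
    (s : Fin N → ℝ) : ℝ :=
  ∑ i, w i * (c i j * c i l / ell c i s ^ 2)

/-- `Y = ∑_{j > k} (d_j - d_k) (z_j + s_j b)` -/
noncomputable def Yl {N : ℕ} (d : Fin N → ℝ) (k : Fin N) (s z : Fin N → ℝ) (b : ℝ) : ℝ :=
  ∑ j ∈ Finset.univ.filter (fun j => k < j), (d j - d k) * (z j + s j * b)

/-- bounds of the density (as in `DensB`) -/
structure DensV {N : ℕ} (k : Fin N) (L c C e : ℝ) (f : (Fin N → ℝ) → ℝ) : Prop where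
  fl : ∀ s, Adm k L s → c * (|s k - 1| ^ 3 + Sab k s ^ 2) - C * e ≤ f s
  lg : ∀ s, Adm k L s → - Real.log (s k) ≤ C * (1 + f s)
  fu : ∀ s, Adm k L s → f s ≤ C * (Gl (s k) + |s k - 1| + Sab k s + e)

/-- the radial derivative is `len - 1` -/
structure DensR {N : ℕ} (k : Fin N) (g : Fin N → (Fin N → ℝ) → ℝ) : Prop where
  rd : ∀ s, 0 < s k → (∀ j, 0 ≤ s j) → rad g s = len k s - 1
  gk : ∀ s, 0 < s k → (∀ j, 0 ≤ s j) → |g k s| ≤ 1 + 1 / s k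

/-- The pointwise inequality. (`len k z = z k + ∑_{j > k} z j`.) -/
def QL {N : ℕ} (d : Fin N → ℝ) (k : Fin N) (L c : ℝ) (g : Fin N → (Fin N → ℝ) → ℝ)
    (h : Fin N → Fin N → (Fin N → ℝ) → ℝ) : Prop :=
  ∀ s, Adm k L s → ∀ (z : Fin N → ℝ) (b : ℝ),
    c * ((1 - 1 / s k) ^ 2 * z k ^ 2 + (∑ j ∈ Finset.univ.filter (fun j => k < j), z j ^ 2)
      + b ^ 2 * Sab k s ^ 2)
      + d k / 100 * (len k z / len k s) ^ 2 + 1 / (6 * d k) * (Yl d k s z b / len k s) ^ 2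
    ≤ Qf d k g h s z b - (len k s - 1) / len k s * (b * Yl d k s z b)

/-- **F1** `f` is `C²`. Proof: `ell c i s ≥ s k > 0`, derivative of `Gl` is `1 - 1/p`, of
`1 - 1/p` it is `1/p²`; `ell c i` is a linear map. -/
def StmF1 : Prop :=
  ∀ {N r : ℕ} (k : Fin N) (w : Fin r → ℝ) (c : Fin r → Fin N → ℝ), Fam k w c →
    DensC k (ff w c) (fg w c) (fh w c)

/-- **F2** bounds of the density.
Proof. `ell c i s ≥ s k > 0` as `c i k = 1`. `rad = ∑_i w_i ell_i (1 - 1/ell_i) = ∑ w_i (ell_i - 1)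
= len - 1` (`cs`, `ck`, `lo`, `ws`). `|1 - 1/ell_i| ≤ 1 + 1/s_k`. `Gl ≥ 0`. With the form `f1`:
`f ≥ w Gl (s_k)`, so `- log s_k ≤ Gl (s_k) + 1 - s_k ≤ f/w + 1`. On `Adm k L` all `ell_i ≤ B`
(`B = B(L, c) ≥ 1`) and `Gl p ≥ (p-1)²/(2 B²)` for `0 < p ≤ B`; the forms `f1`, `f2` give
`f ≥ c ((s_k - 1)² + (len - 1)²)`, `Sab = len - s_k`, `|s_k - 1|³ ≤ (L+1) (s_k-1)²`.
Upper bound: `- log ell_i ≤ - log s_k` and `ell_i - 1 ≤ s_k - 1 + B' Sab`, so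
`f ≤ Gl (s_k) + B' Sab`. -/
def StmF2 : Prop :=
  ∀ {N r : ℕ} (k : Fin N) (w : Fin r → ℝ) (c : Fin r → Fin N → ℝ), Fam k w c →
    DensR k (fg w c) ∧
    ∀ L : ℝ, ∃ c₀ C₀ : ℝ, 0 < c₀ ∧ 0 < C₀ ∧ ∀ e : ℝ, 0 ≤ e → DensV k L c₀ C₀ e (ff w c)

/-- **F3** the quadratic form in terms of the linear forms. With `e_i = (∑_j c_ij z_j) / ell_i` and
`M_i = (∑_j d_j c_ij (z_j + s_j b)) / ell_i`. Proof: finite sums; for `j > k` use `cs` to write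
`∑_i w_i ∑_j (d_j - d_k) c_ij (z_j + s_j b) = Yl`; `j = k` has coefficient `d_k - d_k = 0`, `j < k`
has `c_ij = 0`. Termwise, with `A = ∑ d_j c_ij z_j / ell`, `B = ∑ (d_j - d_k) c_ij s_j / ell`,
`C = A - d_k e`: the `i`-th part of `Qf` is `A e - b C - b² B + b B e` plus `b` times the `i`-th part
of `Yl`, and `(e - b) M = (e - b) (A + b B + b d_k)`. -/
def StmF3 : Prop :=
  ∀ {N r : ℕ} (k : Fin N) (w : Fin r → ℝ) (c : Fin r → Fin N → ℝ), Fam k w c →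
    ∀ (d s z : Fin N → ℝ) (b : ℝ), 0 < s k → (∀ j, 0 ≤ s j) →
      Qf d k (fg w c) (fh w c) s z b = b * Yl d k s z b
        + (∑ i, w i * ((ell c i z / ell c i s - b) *
            ((∑ j, d j * c i j * (z j + s j * b)) / ell c i s)))
        + d k * b ^ 2

/-! ### the algebraic inequality for three species -/

/-- `d = (1, 4, 4)`, `s = (1, X, (1 + X) Z)`; here `e_0 = T - E - D`, `e_1 = T - E + 19 D/(4+23X)`,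
`e_2 = T`, `e_3 = T + 23 E/(6+29Z)` -/
noncomputable def P1 (X Z D E T b : ℝ) : ℝ :=
  (19 * ((T - E - D) ^ 2 - b ^ 2)
    + 4 * (((T - E + 19 * D / (4 + 23 * X)) - b) *
        (4 * ((T - E + 19 * D / (4 + 23 * X)) + b) - 12 / (4 + 23 * X) * (T - E - D + b)))
    + 8 * ((T - b) * (4 * (T + b) - 3 / ((1 + X) * (1 + Z)) * (T - E - D + b)))
    + 6 * (((T + 23 * E / (6 + 29 * Z)) - b) * (4 * ((T + 23 * E / (6 + 29 * Z)) + b)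
        - 18 / ((1 + X) * (6 + 29 * Z)) * (T - E - D + b)))
    + 111 * (b * ((T + b) - 1 / ((1 + X) * (1 + Z)) * (T - E - D + b))) + 37 * b ^ 2
    - 111 / 2 * ((T + b) - 1 / ((1 + X) * (1 + Z)) * (T - E - D + b)) ^ 2) / 37

/-- `d = (1, 1, 4)` -/
noncomputable def P2 (X Z D E T b : ℝ) : ℝ :=
  (19 * ((T - E - D) ^ 2 - b ^ 2)
    + 4 * ((T - E + 19 * D / (4 + 23 * X)) ^ 2 - b ^ 2)
    + 8 * ((T - b) * (4 * (T + b) - 3 / (1 + Z) * (T - E + b)))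
    + 6 * (((T + 23 * E / (6 + 29 * Z)) - b) * (4 * ((T + 23 * E / (6 + 29 * Z)) + b)
        - 18 / (6 + 29 * Z) * (T - E + b)))
    + 111 * (b * ((T + b) - 1 / (1 + Z) * (T - E + b))) + 37 * b ^ 2
    - 111 / 2 * ((T + b) - 1 / (1 + Z) * (T - E + b)) ^ 2) / 37

/-- **P1** -/
def StmP1 : Prop :=
  ∀ (X Z D E T b : ℝ), 0 ≤ X → 0 ≤ Z →
    (D ^ 2 + E ^ 2) / 1000 + T ^ 2 / 100
      + ((X + Z + X * Z) / ((1 + X) * (1 + Z)) * b) ^ 2 / 1000 ≤ P1 X Z D E T b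

/-- **P2** -/
def StmP2 : Prop :=
  ∀ (X Z D E T b : ℝ), 0 ≤ X → 0 ≤ Z → T ^ 2 / 100 ≤ P2 X Z D E T b

/-- the form for the rates `(1, r2, r3)` -/
noncomputable def Pq (r2 r3 s1 s2 s3 z1 z2 z3 b : ℝ) : ℝ :=
  b * (((r2 - 1) * (z2 + s2 * b) + (r3 - 1) * (z3 + s3 * b)) / (s1 + s2 + s3))
    + 19 / 37 * ((z1 / s1 - b) * ((z1 + s1 * b) / s1))
    + 4 / 37 * (((z1 + 23 / 4 * z2) / (s1 + 23 / 4 * s2) - b) *
        (((z1 + s1 * b) + 23 / 4 * r2 * (z2 + s2 * b)) / (s1 + 23 / 4 * s2)))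
    + 8 / 37 * (((z1 + z2 + z3) / (s1 + s2 + s3) - b) *
        (((z1 + s1 * b) + r2 * (z2 + s2 * b) + r3 * (z3 + s3 * b)) / (s1 + s2 + s3)))
    + 6 / 37 * (((z1 + z2 + 29 / 6 * z3) / (s1 + s2 + 29 / 6 * s3) - b) *
        (((z1 + s1 * b) + r2 * (z2 + s2 * b) + 29 / 6 * r3 * (z3 + s3 * b))
          / (s1 + s2 + 29 / 6 * s3)))
    + b ^ 2

/-- **Al** the algebraic inequality.
Proof. `t = s1 + s2 + s3`, `X = s2/s1`, `Z = s3/(s1+s2)`, `D = (s1 z2 - s2 z1)/(s1 (s1+s2))`,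
`E = ((s1+s2) z3 - s3 (z1+z2))/(t (s1+s2))`, `T = (z1+z2+z3)/t`; then
`z1 = s1 (T - E - D)`, `z2 = s1 D + s2 (T - E)`, `z3 = (s1 + s2) E + s3 T`. The left side minus
`(1/6) (..)²` (call it `G r2 r3`) is affine in `(r2, r3)` minus a square, so with
`l1 = (r2-1)/3`, `l2 = (r3-r2)/3`, `l0 = (4-r3)/3` (sum `1`):
`G r2 r3 ≥ l0 G 1 1 + l1 G 4 4 + l2 G 1 4`; `G 4 4 = P1 X Z D E T b`, `G 1 4 = P2 X Z D E T b`,
`G 1 1 = (19 e_0² + 4 e_1² + 8 T² + 6 e_3²)/37 ≥ T²/100`. So `G ≥ T²/100 + l1 (..)/1000`. On `t ≤ L`: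
`(1 - 1/s1)² z1² = (s1 - 1)² (T-E-D)²`, `z2² ≤ 3 L² (D² + T² + E²)`, `z3² ≤ 2 L² (E² + T²)`,
`(s2+s3) = t (X+Z+XZ)/((1+X)(1+Z))`. -/
def StmAl : Prop :=
  ∀ (r2 r3 L : ℝ), 1 < r2 → r2 ≤ r3 → r3 ≤ 4 → ∃ c : ℝ, 0 < c ∧
    ∀ (s1 s2 s3 z1 z2 z3 b : ℝ), 0 < s1 → 0 ≤ s2 → 0 ≤ s3 → s1 + s2 + s3 ≤ L →
      c * ((1 - 1 / s1) ^ 2 * z1 ^ 2 + (z2 ^ 2 + z3 ^ 2) + b ^ 2 * (s2 + s3) ^ 2)
        + 1 / 100 * ((z1 + z2 + z3) / (s1 + s2 + s3)) ^ 2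
        + 1 / 6 * (((r2 - 1) * (z2 + s2 * b) + (r3 - 1) * (z3 + s3 * b)) / (s1 + s2 + s3)) ^ 2
      ≤ Pq r2 r3 s1 s2 s3 z1 z2 z3 b

/-- **Q** the family for three species.
Proof. `w = ![19/37, 4/37, 8/37, 6/37]`, `c i j = if j = k then 1 else if j = j1 then ![0,23/4,1,1] i
else if j = j2 then ![0,0,1,29/6] i else 0`; `F3` with `Qf - ((len-1)/len) b Y
= d_k Pq (d j1/d k) (d j2/d k) ..` (as `bY - ((t-1)/t) bY = b Y/t`), then `Al` times `d k`. Sums over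
`k < j` and sums `∑ j, c i j * _` reduce to `j1, j2` (and `k`). -/
def StmQ : Prop :=
  ∀ {N : ℕ} (d : Fin N → ℝ) (k j1 j2 : Fin N), 0 < d k → k < j1 → k < j2 → j1 ≠ j2 →
    (∀ j, k < j → j = j1 ∨ j = j2) → d k < d j1 → d j1 ≤ d j2 → d j2 ≤ 4 * d k →
    ∃ (w : Fin 4 → ℝ) (c : Fin 4 → Fin N → ℝ), Fam k w c ∧
      ∀ L : ℝ, ∃ c₀ : ℝ, 0 < c₀ ∧ QL d k L c₀ (fg w c) (fh w c)

/-! ### the dissipation inequality -/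

/-- the dissipation inequality for states bounded by `M` -/
def Diss {n N : ℕ} (Ω : Set (Sp n)) (d : Fin N → ℝ) (k : Fin N) (θ : Sp n → ℝ) (Dθ : Sp n → Sp n)
    (g : Fin N → (Fin N → ℝ) → ℝ) (h : Fin N → Fin N → (Fin N → ℝ) → ℝ) (M : ℝ) : Prop :=
  ∃ c₀ C₀ : ℝ, 0 < c₀ ∧ 0 < C₀ ∧ ∀ (ε : ℝ), 0 < ε → ε ≤ 1 →
    ∀ (u : Fin N → Sp n → ℝ) (Du : Fin N → Sp n → Sp n),
      (∀ j, C1 Ω (u j) (Du j)) → (∀ j, ∀ x ∈ closure Ω, 0 ≤ u j x ∧ u j x ≤ M) →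
      - (∫ x in Ω, θ x ^ 3 * ((∑ i, u i x) / θ x - 1) *
              ∑ j, (u j x / θ x) * g j (sh k ε θ u x))
          - (∫ x in Ω, θ x ^ 2 * ∑ c : Fin n, Qf d k g h (sh k ε θ u x)
              (fun j => Dsh θ Dθ u Du j x c) (((θ x)⁻¹ • Dθ x) c))
        ≤ - c₀ * Dis Ω k θ Dθ ε u Du
          + C₀ * (∫ x in Ω, ∑ j ∈ Finset.univ.filter (fun j => j < k), u j x)
          + C₀ * ∫ x in Ω, ε / (u k x / θ x + ε)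

/-- the gradient bound `d |∇θ|² ≤ (1 - δ) (2/3) θ³` -/
def GB {n : ℕ} (Ω : Set (Sp n)) (dk : ℝ) (θ : Sp n → ℝ) (Dθ : Sp n → Sp n) : Prop :=
  ∃ δ : ℝ, 0 < δ ∧ δ < 1 ∧ ∀ x ∈ closure Ω, dk * ‖Dθ x‖ ^ 2 ≤ (1 - δ) * (2 / 3 * θ x ^ 3)

/-- **B** dissipation inequality under the gradient bound.
Proof. As `p_B3e` in `Ge/B3.lean` (same structure, `e = 0`, `C = L + 1`), except that the two pointwise
lower bounds are combined: with `l = len k s ≤ L`, `y = Yl / l` (vector of the coordinates `c`),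
`(U/θ - 1) r_ε ≥ (l - 1)² - 5 L (L+1) ε/s_k - 2 (L+1) e/θ` (`DensR`, as `B3_alg`), and by `QL` in every
coordinate `∑_c Qf ≥ c₀ (..) + (1/(6 d_k)) |y|² + (l - 1) ⟨b, y⟩`, `b = Dθ/θ`, where by the gradient
bound `|b|² ≤ (1-δ) (2/3) θ / d_k`, so
`|l - 1| |b| |y| ≤ (1-δ) θ (l-1)² + |b|² |y|²/(4 (1-δ) θ) ≤ (1-δ) θ (l-1)² + |y|²/(6 d_k)`.
Total: `θ³ (..) + θ² ∑ Qf ≥ δ θ³ (l-1)² + c₀ θ² (..) - errors`, `|l-1|³ ≤ (L+1) (l-1)²`. -/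
def StmB : Prop :=
  ∀ {n N : ℕ} (Ω : Set (Sp n)) (d : Fin N → ℝ) (m : Sp n → ℝ) (k : Fin N) (θ : Sp n → ℝ)
    (Dθ : Sp n → Sp n) (lθ : Sp n → ℝ) (P : ℝ), Base Ω d m k θ Dθ lθ P → GB Ω (d k) θ Dθ →
    ∀ (f : (Fin N → ℝ) → ℝ) (g : Fin N → (Fin N → ℝ) → ℝ) (h : Fin N → Fin N → (Fin N → ℝ) → ℝ),
      DensC k f g h → DensR k g → (∀ L : ℝ, ∃ c : ℝ, 0 < c ∧ QL d k L c g h) →
    ∀ M : ℝ, Diss Ω d k θ Dθ g h M

/-! ### one space dimension -/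

/-- the point of `ℝ¹` with coordinate `x` -/
noncomputable def io (x : ℝ) : Sp 1 := WithLp.toLp 2 (fun _ => x)

/-- **G1** bounded open connected subsets of `ℝ¹` are intervals. -/
def StmG1 : Prop :=
  ∀ (Ω : Set (Sp 1)), IsOpen Ω → Ω.Nonempty → IsPreconnected Ω → Bornology.IsBounded Ω →
    ∃ a b : ℝ, a < b ∧ Ω = {x | a < x 0 ∧ x 0 < b} ∧ ∀ x : ℝ, io x ∈ closure Ω ↔ x ∈ Icc a b

/-- **G2** the Neumann problem on an interval in classical form.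
Proof. Integrals over `Ω` are integrals over `Ioo a b` (`EuclideanSpace.volume_preserving..` and
`MeasureTheory.volume_preserving_funUnique`). `G x = ∫_a^x g(io y) dy`; Green with `ψ = 1`: `G b = 0`;
Green with `ψ x = ∫_a^{x 0} (v' - G)` (continuous extension of `v' - G` outside `[a,b]`, e.g. composition
with the projection on `[a,b]`) and integration by parts: `∫ (v' - G)² = 0`. -/
def StmG2 : Prop :=
  ∀ (Ω : Set (Sp 1)) (a b : ℝ), a < b → Ω = {x | a < x 0 ∧ x 0 < b} →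
    (∀ x : ℝ, io x ∈ closure Ω ↔ x ∈ Icc a b) →
    ∀ (φ : Sp 1 → ℝ) (Dφ : Sp 1 → Sp 1) (g : Sp 1 → ℝ), NeuLap Ω φ Dφ g →
      (∀ x ∈ Ioo a b, HasDerivAt (fun y => φ (io y)) (Dφ (io x) 0) x) ∧
      (∀ x ∈ Ioo a b, HasDerivAt (fun y => Dφ (io y) 0) (g (io x)) x) ∧
      Dφ (io a) 0 = 0 ∧ Dφ (io b) 0 = 0

/-- **G3** the gradient bound for the ordinary differential equation.
Proof. `F = (2/3) v³ - d v'²`, `F' = 2 v² v' - 2 d v' v'' = 2 m v v'` as `d v'' = v² - m v`. If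
`v' x > 0` let `x₀ = sup {y ≤ x, v' y ≤ 0}` (`v' a = 0`), `v' x₀ = 0`, `F' ≥ 0` on `(x₀, x)`, so
`F x ≥ F x₀ = (2/3) v(x₀)³ > 0`. If `v' x < 0` the same with `x₀ = inf {y ≥ x, v' y ≥ 0}`, `F' ≤ 0` on
`(x, x₀)`. If `v' x = 0` clear. -/
def StmG3 : Prop :=
  ∀ (a b d : ℝ), a < b → 0 < d → ∀ (v v' g m : ℝ → ℝ), ContinuousOn v (Icc a b) →
    ContinuousOn v' (Icc a b) → (∀ x ∈ Ioo a b, HasDerivAt v (v' x) x) →
    (∀ x ∈ Ioo a b, HasDerivAt v' (g x) x) → v' a = 0 → v' b = 0 →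
    (∀ x ∈ Icc a b, 0 < v x) → (∀ x ∈ Icc a b, 0 ≤ m x) →
    (∀ x ∈ Icc a b, d * g x + v x * (m x - v x) = 0) →
    ∀ x ∈ Icc a b, d * v' x ^ 2 < 2 / 3 * v x ^ 3

/-- **Gb** the gradient bound on intervals. Proof: G1, G2, G3 and compactness (`‖Dθ‖² = (Dθ 0)²`, the
continuous function `(2/3) θ³ - d |Dθ|²` has a positive minimum on `closure Ω`, `θ` is bounded). -/
def StmGb : Prop :=
  ∀ (Ω : Set (Sp 1)), IsOpen Ω → Ω.Nonempty → IsPreconnected Ω → Bornology.IsBounded Ω →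
    ∀ (d : ℝ), 0 < d → ∀ (m : Sp 1 → ℝ), (∀ x ∈ closure Ω, 0 ≤ m x) →
    ∀ (θ : Sp 1 → ℝ) (Dθ : Sp 1 → Sp 1) (lθ : Sp 1 → ℝ), Steady Ω d m θ Dθ lθ → GB Ω d θ Dθ

/-! ### weakly heterogeneous resources -/

/-- **W1** bounds of the steady state. Proof: Green for `lθ` with `ψ = (max (θ - m₂) 0)²` (A1):
`d ∫ lθ ψ = ∫ θ (θ - m) ψ` and `∫ lθ ψ = - 2 ∫ (max (θ - m₂) 0) |Dθ|² ≤ 0`, while
`θ (θ - m) ψ ≥ m₂ .. > 0` where `θ > m₂`; so `ψ = 0` on `Ω`, then on the closure. Same with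
`ψ = (max (m₁ - θ) 0)²`. -/
def StmW1 : Prop :=
  ∀ {n : ℕ} (Ω : Set (Sp n)), IsOpen Ω → Bornology.IsBounded Ω → ∀ (d : ℝ), 0 < d →
    ∀ (m : Sp n → ℝ), ContinuousOn m (closure Ω) → ∀ (m₁ m₂ : ℝ), 0 < m₁ →
    (∀ x ∈ closure Ω, m₁ ≤ m x ∧ m x ≤ m₂) →
    ∀ (θ : Sp n → ℝ) (Dθ : Sp n → Sp n) (lθ : Sp n → ℝ), Steady Ω d m θ Dθ lθ →
    ∀ x ∈ closure Ω, m₁ ≤ θ x ∧ θ x ≤ m₂

/-- **W2** weighted gradient estimate.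
Proof. Green for `lθ` with `ψ = (θ - c) V²`, `Dψ = V² Dθ + 2 (θ - c) V DV`:
`d ∫ |Dθ|² V² = ∫ θ (m - θ) (θ - c) V² - 2 d ∫ (θ - c) V ⟨Dθ, DV⟩`, and
`(m - θ) (θ - c) = (m - c) (θ - c) - (θ - c)² ≤ ω²/4`,
`2 |(θ - c) V ⟨Dθ, DV⟩| ≤ |Dθ|² V²/2 + 2 ω² |DV|²`. -/
def StmW2 : Prop :=
  ∀ {n : ℕ} (Ω : Set (Sp n)), IsOpen Ω → Bornology.IsBounded Ω → ∀ (d : ℝ), 0 < d →
    ∀ (m : Sp n → ℝ), ContinuousOn m (closure Ω) →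
    ∀ (θ : Sp n → ℝ) (Dθ : Sp n → Sp n) (lθ : Sp n → ℝ), Steady Ω d m θ Dθ lθ →
    ∀ (c ω : ℝ), 0 ≤ ω → (∀ x ∈ closure Ω, |m x - c| ≤ ω ∧ |θ x - c| ≤ ω) →
    ∀ (V : Sp n → ℝ) (DV : Sp n → Sp n), C1 Ω V DV →
      d * (∫ x in Ω, ‖Dθ x‖ ^ 2 * V x ^ 2) ≤
        4 * ω ^ 2 * d * (∫ x in Ω, ‖DV x‖ ^ 2) + ω ^ 2 / 2 * ∫ x in Ω, θ x * V x ^ 2

/-- **Bw** dissipation inequality for weakly heterogeneous resources (at most two species above `k`,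
states bounded by `2 m₂`, `m₂ = (101/100) m₁`).
Proof. As `B` with `l = len k s ≤ L = 36/5` on the states considered (`u_j/θ ≤ 101/50`, three species,
`ε ≤ 1`). Now `|l - 1| |b| |y| ≤ |y|²/(6 d_k) + (3/2) d_k (l-1)² |b|²`, and
`∫ θ² (3/2) d_k (l-1)² |b|² = (3/2) d_k ∫ |Dθ|² (l-1)²
  ≤ 6 ω² d_k ∫ |DV|² + (3/4) ω² ∫ θ (l-1)²` by `W2` with `V = l - 1`, `DV = ∑_{j ≥ k} Dsh_j`, `ω = m₁/200`,
`c = m₁ + ω`. As `DV = l T`, `T = (∑_{j≥k} Dsh_j)/l`: `6 ω² l² ≤ (1/100) θ²` (`6 · 51.84/40000 < 1/100`),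
so the first term is absorbed by `θ² (d_k/100) |T|²` of `QL`; the second by `θ³ (l-1)²/2`. -/
def StmBw : Prop :=
  ∀ {n N : ℕ} (Ω : Set (Sp n)) (d : Fin N → ℝ) (m : Sp n → ℝ) (k : Fin N) (θ : Sp n → ℝ)
    (Dθ : Sp n → Sp n) (lθ : Sp n → ℝ) (P : ℝ), Base Ω d m k θ Dθ lθ P →
    ∀ m₁ : ℝ, 0 < m₁ → (∀ x ∈ closure Ω, m₁ ≤ m x ∧ m x ≤ 101 / 100 * m₁) →
    (Finset.univ.filter (fun j => k < j)).card ≤ 2 →
    ∀ (f : (Fin N → ℝ) → ℝ) (g : Fin N → (Fin N → ℝ) → ℝ) (h : Fin N → Fin N → (Fin N → ℝ) → ℝ),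
      DensC k f g h → DensR k g → (∀ L : ℝ, ∃ c : ℝ, 0 < c ∧ QL d k L c g h) →
    Diss Ω d k θ Dθ g h (2 * (101 / 100 * m₁))

/-! ### attraction -/

/-- `AttrU` for solutions bounded by `M` -/
def AttrUM {n N : ℕ} (Ω : Set (Sp n)) (d : Fin N → ℝ) (m : Sp n → ℝ) (k : Fin N)
    (θ : Sp n → ℝ) (M : ℝ) : Prop :=
  ∀ η : ℝ, 0 < η → ∃ ν : ℝ, 0 < ν ∧ ∀ A : ℝ, 0 < A → ∃ τ : ℝ, 0 < τ ∧
    ∀ (T : Set ℝ), IsOpen T → ∀ (a b : ℝ), a + 1 ≤ b → Icc a b ⊆ T →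
    ∀ (u ut : Fin N → ℝ → Sp n → ℝ) (Du : Fin N → ℝ → Sp n → Sp n) (lu : Fin N → ℝ → Sp n → ℝ),
      IsSol Ω d m T u ut Du lu → (∀ j, ∀ t ∈ Icc a b, ∀ x ∈ closure Ω, u j t x ≤ M) →
      A ≤ (∫ x in Ω, u k a x) →
      (∀ t ∈ Icc a b, (∫ x in Ω, ∑ j ∈ Finset.univ.filter (fun j => j < k), u j t x) ≤ ν) →
      ∀ t ∈ Icc (a + 1 + τ) b, Close Ω k θ η (fun j => u j t)

/-- **Z** attraction from the dissipation inequality (adaptation of `p_ZE`) -/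
def StmZr : Prop :=
  ∀ {n N : ℕ} (Ω : Set (Sp n)) (d : Fin N → ℝ) (m : Sp n → ℝ) (k : Fin N) (θ : Sp n → ℝ)
    (Dθ : Sp n → Sp n) (lθ : Sp n → ℝ) (P : ℝ), Base Ω d m k θ Dθ lθ P →
    ∀ (f : (Fin N → ℝ) → ℝ) (g : Fin N → (Fin N → ℝ) → ℝ) (h : Fin N → Fin N → (Fin N → ℝ) → ℝ),
      DensC k f g h →
      (∀ L : ℝ, ∃ c C : ℝ, 0 < c ∧ 0 < C ∧ ∀ e : ℝ, 0 ≤ e → DensV k L c C e f) →
    ∀ M : ℝ, Diss Ω d k θ Dθ g h M → AttrUM Ω d m k θ M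

/-- **Au** from `AttrUM` with `M = 2 m₀` to `AttrU`.
Proof. `StmU0` gives the bound `2 m₀` on `[a + τ₀, b]`, `StmF4` (or `StmD0`) gives the mass at
`a + τ₀`: `≥ A e^{-R τ₀}`, `R ≥ |m - U|`. Apply `AttrUM` on `[a + τ₀, b]`; new `τ = τ₀ + τ'`. -/
def StmAu : Prop :=
  ∀ {n N : ℕ} (Ω : Set (Sp n)), IsOpen Ω → Bornology.IsBounded Ω → ∀ (d : Fin N → ℝ),
    (∀ j, 0 < d j) → ∀ (m : Sp n → ℝ), ContinuousOn m (closure Ω) → ∀ m₀ : ℝ, 0 < m₀ →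
    (∀ x ∈ closure Ω, m x ≤ m₀) → ∀ (k : Fin N) (θ : Sp n → ℝ),
    AttrUM Ω d m k θ (2 * m₀) → AttrU Ω d m k θ

end Pool.Agent.Lib.MP_d8ef8f_an.Rf
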