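import Pool.Agent.Lib.MP_d8ef8f_an.Rf.Stm

/-!
# Functional and closeness: statements (as in `Ge/Dens.lean`, for `DensV`)
-/

set_option autoImplicit false

namespace Pool.Agent.Lib.MP_d8ef8f_an.Rf

open Set Filter Topology MeasureTheory
open Pool.Agent.Lib.MP_d8ef8f_an.Gd Pool.Agent.Lib.MP_d8ef8f_an.Ff

/-- **Cv** small dissipation implies small functional -/
def StmCv : Prop :=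
  ∀ {n N : ℕ} (Ω : Set (Sp n)) (d : Fin N → ℝ) (m : Sp n → ℝ) (k : Fin N) (θ : Sp n → ℝ)
    (Dθ : Sp n → Sp n) (lθ : Sp n → ℝ) (P : ℝ), Base Ω d m k θ Dθ lθ P → ∀ M : ℝ,
    ∃ L₀ : ℝ, ∀ L : ℝ, L₀ ≤ L → ∀ c C : ℝ, 0 < c → 0 < C → ∀ η : ℝ, 0 < η →
    ∃ ν : ℝ, 0 < ν ∧ ν ≤ 1 ∧ ∀ e : ℝ, 0 < e → e ≤ ν →
    ∀ (f : (Fin N → ℝ) → ℝ) (g : Fin N → (Fin N → ℝ) → ℝ) (h : Fin N → Fin N → (Fin N → ℝ) → ℝ),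
      DensC k f g h → DensV k L c C e f → ∀ (ε : ℝ), 0 < ε → ε ≤ 1 →
    ∀ (u : Fin N → Sp n → ℝ) (Du : Fin N → Sp n → Sp n),
      (∀ j, C1 Ω (u j) (Du j)) → (∀ j, ∀ x ∈ closure Ω, 0 ≤ u j x ∧ u j x ≤ M) →
      Dis Ω k θ Dθ ε u Du ≤ ν → Phi Ω k f θ ε u ≤ η

/-- **E1v** the error term -/
def StmE1v : Prop :=
  ∀ {n N : ℕ} (Ω : Set (Sp n)) (d : Fin N → ℝ) (m : Sp n → ℝ) (k : Fin N) (θ : Sp n → ℝ)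
    (Dθ : Sp n → Sp n) (lθ : Sp n → ℝ) (P : ℝ), Base Ω d m k θ Dθ lθ P → ∀ M : ℝ,
    ∃ L₀ : ℝ, ∀ L : ℝ, L₀ ≤ L → ∀ c C : ℝ, 0 < c → 0 < C → ∀ M' : ℝ, ∀ η : ℝ, 0 < η →
    ∃ ε₀ : ℝ, 0 < ε₀ ∧ ε₀ ≤ 1 ∧ ∀ e : ℝ, 0 < e → e ≤ 1 →
    ∀ (f : (Fin N → ℝ) → ℝ) (g : Fin N → (Fin N → ℝ) → ℝ) (h : Fin N → Fin N → (Fin N → ℝ) → ℝ),
      DensC k f g h → DensV k L c C e f → ∀ (ε : ℝ), 0 < ε → ε ≤ ε₀ →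
    ∀ (u : Fin N → Sp n → ℝ), (∀ j, ContinuousOn (u j) (closure Ω)) →
      (∀ j, ∀ x ∈ closure Ω, 0 ≤ u j x ∧ u j x ≤ M) → Phi Ω k f θ ε u ≤ M' →
      ∫ x in Ω, ε / (u k x / θ x + ε) ≤ η

/-- **E2v** small functional implies closeness to `E_k` -/
def StmE2v : Prop :=
  ∀ {n N : ℕ} (Ω : Set (Sp n)) (d : Fin N → ℝ) (m : Sp n → ℝ) (k : Fin N) (θ : Sp n → ℝ)
    (Dθ : Sp n → Sp n) (lθ : Sp n → ℝ) (P : ℝ), Base Ω d m k θ Dθ lθ P → ∀ M : ℝ,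
    ∃ L₀ : ℝ, ∀ L : ℝ, L₀ ≤ L → ∀ c C : ℝ, 0 < c → 0 < C → ∀ η : ℝ, 0 < η →
    ∃ ν : ℝ, 0 < ν ∧ ν ≤ 1 ∧ ∀ e : ℝ, 0 < e → e ≤ ν →
    ∀ (f : (Fin N → ℝ) → ℝ) (g : Fin N → (Fin N → ℝ) → ℝ) (h : Fin N → Fin N → (Fin N → ℝ) → ℝ),
      DensC k f g h → DensV k L c C e f → ∀ (ε : ℝ), 0 < ε → ε ≤ ν →
    ∀ (u : Fin N → Sp n → ℝ), (∀ j, ContinuousOn (u j) (closure Ω)) →
      (∀ j, ∀ x ∈ closure Ω, 0 ≤ u j x ∧ u j x ≤ M) → Phi Ω k f θ ε u ≤ ν →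
      (∫ x in Ω, (u k x - θ x) ^ 2) ≤ η ∧ ∀ j, k < j → (∫ x in Ω, u j x ^ 2) ≤ η

/-- **E3v** the functional is bounded after time one -/
def StmE3v : Prop :=
  ∀ {n N : ℕ} (Ω : Set (Sp n)) (d : Fin N → ℝ) (m : Sp n → ℝ) (k : Fin N) (θ : Sp n → ℝ)
    (Dθ : Sp n → Sp n) (lθ : Sp n → ℝ) (P : ℝ), Base Ω d m k θ Dθ lθ P → ∀ M : ℝ,
    ∃ L₀ : ℝ, ∀ L : ℝ, L₀ ≤ L → ∀ c C : ℝ, 0 < c → 0 < C → ∀ K : ℝ, ∃ M' : ℝ,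
    ∀ e : ℝ, 0 < e → e ≤ 1 →
    ∀ (f : (Fin N → ℝ) → ℝ) (g : Fin N → (Fin N → ℝ) → ℝ) (h : Fin N → Fin N → (Fin N → ℝ) → ℝ),
      DensC k f g h → DensV k L c C e f → ∀ (ε : ℝ), 0 < ε → ε ≤ 1 →
    ∀ (u : Fin N → Sp n → ℝ), (∀ j, ContinuousOn (u j) (closure Ω)) →
      (∀ j, ∀ x ∈ closure Ω, 0 ≤ u j x ∧ u j x ≤ M) →
      (∫ x in Ω, max 0 (- Real.log (u k x / θ x + ε))) ≤ K → Phi Ω k f θ ε u ≤ M'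

end Pool.Agent.Lib.MP_d8ef8f_an.Rf
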